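import Pool.Agent.Zk28.TS.Main

/-!
Sections of multiples of `K_X + Δ` are semistable adapted tensors.
-/

set_option autoImplicit false
set_option linter.unusedSectionVars false

open FF Pool.Agent.W602.GT

namespace Pool.Agent.Zk28.TS

variable {K : Type} [Field K] [Algebra ℂ K]

/-- the matrices of the blocks -/
def blk {n N : ℕ} (y : Fin n → K) (D : Fin (N * n) → Derivation ℂ K K) (r : Fin N) :
    Matrix (Fin n) (Fin n) K := Matrix.of fun j l => D (finProdFinEquiv (r, j)) (y l)

theorem blk_update {n N : ℕ} [inst : DecidableEq (Fin (N * n))] (y : Fin n → K)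
    (D : Fin (N * n) → Derivation ℂ K K) (r0 : Fin N)
    (j0 : Fin n) (x : Derivation ℂ K K) :
    ∏ r, (blk y (@Function.update _ _ inst D (finProdFinEquiv (r0, j0)) x) r).det =
      (Matrix.updateRow (blk y D r0) j0 fun l => x (y l)).det *
        ∏ r ∈ Finset.univ.erase r0, (blk y D r).det := by
  rw [← Finset.mul_prod_erase _ _ (Finset.mem_univ r0)]
  congr 1
  · congr 1
    ext j l
    by_cases hj : j = j0
    · subst hj
      rw [Matrix.updateRow_self]
      change @Function.update _ _ inst D (finProdFinEquiv (r0, j)) x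
        (finProdFinEquiv (r0, j)) (y l) = _
      rw [Function.update_self]
    · rw [Matrix.updateRow_ne hj]
      change @Function.update _ _ inst D (finProdFinEquiv (r0, j0)) x
        (finProdFinEquiv (r0, j)) (y l) = _
      rw [Function.update_of_ne]
      · rfl
      · intro h
        have h1 := finProdFinEquiv.injective h
        exact hj (Prod.ext_iff.mp h1).2
  · refine Finset.prod_congr rfl fun r hr => ?_
    congr 1
    ext j l
    change @Function.update _ _ inst D (finProdFinEquiv (r0, j0)) x
      (finProdFinEquiv (r, j)) (y l) = _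
    rw [Function.update_of_ne]
    · rfl
    · intro h
      have h1 := finProdFinEquiv.injective h
      exact (Finset.mem_erase.mp hr).1 (Prod.ext_iff.mp h1).1

/-- the tensor with the values `∏ det` -/
noncomputable def pdet {n : ℕ} (N : ℕ) (y : Fin n → K) : Tensor K (N * n) where
  toFun D := ∏ r, (blk y D r).det
  map_update_add' D i x x' := by
    obtain ⟨⟨r0, j0⟩, rfl⟩ := finProdFinEquiv.surjective i
    beta_reduce
    rw [blk_update, blk_update, blk_update, ← add_mul, ← Matrix.det_updateRow_add]
    rfl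
  map_update_smul' D i c x := by
    obtain ⟨⟨r0, j0⟩, rfl⟩ := finProdFinEquiv.surjective i
    beta_reduce
    rw [blk_update, blk_update, smul_eq_mul, ← mul_assoc, ← Matrix.det_updateRow_smul]
    rfl

theorem pdet_apply {n : ℕ} (N : ℕ) (y : Fin n → K) (D : Fin (N * n) → Derivation ℂ K K) :
    pdet N y D = ∏ r, (blk y D r).det := rfl

/-- change of coordinates -/
theorem pdet_change {n N : ℕ} {y y' : Fin n → K} {E' : Fin n → Derivation ℂ K K}
    (h' : Fr y' E') (D : Fin (N * n) → Derivation ℂ K K) :
    pdet N y D = (Matrix.of fun i j => E' i (y j)).det ^ N * pdet N y' D := by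
  rw [pdet_apply, pdet_apply, mul_comm, ← Fin.prod_const, ← Finset.prod_mul_distrib]
  refine Finset.prod_congr rfl fun r _ => ?_
  rw [← Matrix.det_mul]
  congr 1
  ext j l
  rw [Matrix.mul_apply]
  change D (finProdFinEquiv (r, j)) (y l) = _
  conv_lhs => rw [← h'.2 (D (finProdFinEquiv (r, j)))]
  rw [der_sum]
  rfl

/-- The tensor defined by a section is adapted. -/
theorem adapted_pdet {n N : ℕ} [Algebra.EssFiniteType ℂ K] (htr : Algebra.trdeg ℂ K = n)
    {X : Set (Place ℂ K)} {δ : Place ℂ K → ℝ} (hδ : ∀ P ∈ X, 0 ≤ δ P ∧ δ P ≤ 1)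
    {ω : (Fin n → Derivation ℂ K K) → K} (hω : IsSection n X δ N ω) {y : Fin n → K}
    {E : Fin n → Derivation ℂ K K} (hF : Fr y E) :
    Adapted n X δ (ω E • pdet N y) := by
  classical
  intro P hPX hP D hD
  obtain ⟨y', E', i0, hF', hyr, hi0, hreg, hlog⟩ := frame_at htr hP
  have h1 : (ω E • pdet N y) D = ω E' * pdet N y' D := by
    change ω E * pdet N y D = _
    rw [pdet_change hF', ← mul_assoc]
    congr 1
    have h2 := hω.1 (Matrix.of fun i j => E' i (y j)) E
    have h3 : (fun i => ∑ j, (Matrix.of fun i j => E' i (y j)) i j • E j) = E' := by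
      funext i
      exact hF.2 (E' i)
    rw [h3] at h2
    rw [h2, mul_comm]
  have h2 : GR P (-(N * δ P)) (ω E') := hω.2 P hPX hP E' hreg
  have h3 : ∀ r : Fin N, GR P (δ P - (∑ j, if ¬ DerLog P (D (finProdFinEquiv (r, j)))
      then (1 : ℝ) else 0) * δ P) (blk y' D r).det := by
    intro r
    have hent : ∀ j l, GR P 0 (blk y' D r j l) := fun j l => GR_of_reg (hD _ _ (hyr l))
    by_cases hall : ∀ j, DerLog P (D (finProdFinEquiv (r, j)))
    · rw [Finset.sum_eq_zero fun j _ => by rw [if_neg (not_not.mpr (hall j))], zero_mul, sub_zero]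
      refine GR.mono (r := 1) ?_ (hδ P hPX).2
      rw [Matrix.det_apply]
      refine GR.sum _ fun σ _ => ?_
      have h4 : GR P 1 (∏ i, blk y' D r (σ i) i) := by
        rw [← Finset.mul_prod_erase _ _ (Finset.mem_univ i0)]
        have h5 : GR P 1 (blk y' D r (σ i0) i0) := by
          have h6 := GR_of_reg (hall (σ i0) (y' i0))
          have h7 : blk y' D r (σ i0) i0 =
              y' i0 * (D (finProdFinEquiv (r, σ i0)) (y' i0) / y' i0) := by
            have h8 : y' i0 ≠ 0 := by
              intro h8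
              rw [h8, P.ord_zero] at hi0
              omega
            rw [mul_div_cancel₀ _ h8]
            rfl
          rw [h7]
          have h9 : GR P 1 (y' i0) := Or.inr (by rw [hi0]; simp)
          simpa using h9.mul h6
        have h6 : GR P 0 (∏ i ∈ Finset.univ.erase i0, blk y' D r (σ i) i) := by
          simpa using GR.prod (P := P) (Finset.univ.erase i0) (r := fun _ => 0)
            (f := fun i => blk y' D r (σ i) i) fun i _ => hent _ _
        simpa using h5.mul h6
      rcases Int.units_eq_one_or (Equiv.Perm.sign σ) with h2 | h2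
      · rw [h2, one_smul]; exact h4
      · rw [h2, Units.neg_smul, one_smul]
        rcases h4 with h4 | h4
        · rw [h4, neg_zero]; exact GR.zero
        · refine Or.inr ?_
          rw [P.ord_neg]
          exact h4
    · push Not at hall
      obtain ⟨j0, hj0⟩ := hall
      refine GR.mono (GR.det hent) ?_
      have h4 : (1 : ℝ) ≤ ∑ j, if ¬ DerLog P (D (finProdFinEquiv (r, j))) then (1 : ℝ) else 0 := by
        refine le_trans ?_ (Finset.single_le_sum (f := fun j =>
          if ¬ DerLog P (D (finProdFinEquiv (r, j))) then (1 : ℝ) else 0) (fun j _ => by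
            split_ifs <;> norm_num) (Finset.mem_univ j0))
        rw [if_pos hj0]
      nlinarith [(hδ P hPX).1]
  have h4 := h2.mul (GR.prod Finset.univ fun r _ => h3 r)
  rw [Finset.sum_sub_distrib, ← Finset.sum_mul, Finset.sum_const, Finset.card_univ,
    Fintype.card_fin, nsmul_eq_mul] at h4
  have h5 : (({a | ¬ DerLog P (D a)}.ncard : ℕ) : ℝ) =
      ∑ r, ∑ j, if ¬ DerLog P (D (finProdFinEquiv (r, j))) then (1 : ℝ) else 0 := by
    rw [ncard_eq, ← finProdFinEquiv.sum_comp, Fintype.sum_prod_type]
    refine Finset.sum_congr rfl fun r _ => Finset.sum_congr rfl fun j _ => ?_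
    congr 1
  change GR P _ ((ω E • pdet N y) D)
  rw [h1, h5]
  refine h4.mono ?_
  linarith

theorem det_frame {n : ℕ} {y : Fin n → K} {E : Fin n → Derivation ℂ K K} (hF : Fr y E)
    {b : Fin n → Derivation ℂ K K} (hb : LinearIndependent K b) :
    (Matrix.of fun i j => b i (y j)).det ≠ 0 := by
  have h1 : LinearIndependent K (Matrix.of fun i j => b i (y j)).row := by
    rw [Fintype.linearIndependent_iff] at hb ⊢
    intro g hg i
    refine hb g ?_ i
    rw [← hF.2 (∑ i, g i • b i)]
    refine Finset.sum_eq_zero fun j _ => ?_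
    have h2 := congrFun hg j
    rw [der_sum]
    rw [Finset.sum_apply] at h2
    have h3 : ∑ i, g i * b i (y j) = 0 := h2
    rw [h3, zero_smul]
  exact ((Matrix.isUnit_iff_isUnit_det _).mp (Matrix.linearIndependent_rows_iff_isUnit.mp h1)).ne_zero

/-- The converse. -/
theorem converse {n : ℕ} (hn : 1 ≤ n) [Algebra.EssFiniteType ℂ K]
    (htr : Algebra.trdeg ℂ K = n) {X : Set (Place ℂ K)} {δ : Place ℂ K → ℝ}
    (hδ : ∀ P ∈ X, 0 ≤ δ P ∧ δ P ≤ 1) {N : ℕ} (hN : 0 < N)
    {ω : (Fin n → Derivation ℂ K K) → K} (hω : IsSection n X δ N ω)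
    {D : Fin n → Derivation ℂ K K} (hD : ω D ≠ 0) :
    ∃ m : ℕ, 0 < m ∧ ∃ s : Tensor K m, Adapted n X δ s ∧
      ∀ b : Fin n → Derivation ℂ K K, LinearIndependent K b → ∃ I : Fin m → Fin n,
        s (fun a => b (I a)) ≠ 0 ∧ ∀ w : Fin n → ℝ, ∑ i, w i = 0 → ∑ a, w (I a) = 0 := by
  classical
  obtain ⟨y, E, hF⟩ := exists_fr htr
  have hωE : ω E ≠ 0 := by
    intro h0
    have h1 := hω.1 (Matrix.of fun i j => D i (y j)) E
    have h2 : (fun i => ∑ j, (Matrix.of fun i j => D i (y j)) i j • E j) = D := by
      funext i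
      exact hF.2 (D i)
    rw [h2, h0, mul_zero] at h1
    exact hD h1
  refine ⟨N * n, Nat.mul_pos hN hn, ω E • pdet N y, adapted_pdet htr hδ hω hF, fun b hb =>
    ⟨fun a => (finProdFinEquiv.symm a).2, ?_, fun w hw => ?_⟩⟩
  · change ω E * pdet N y _ ≠ 0
    refine mul_ne_zero hωE ?_
    rw [pdet_apply]
    refine Finset.prod_ne_zero_iff.mpr fun r _ => ?_
    have h1 : blk y (fun a : Fin (N * n) => b (finProdFinEquiv.symm a).2) r =
        Matrix.of fun i j => b i (y j) := by
      ext j l
      change b (finProdFinEquiv.symm (finProdFinEquiv (r, j))).2 (y l) = _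
      rw [Equiv.symm_apply_apply]
      rfl
    rw [h1]
    exact det_frame hF hb
  · rw [← finProdFinEquiv.sum_comp, Fintype.sum_prod_type]
    simp only [Equiv.symm_apply_apply]
    rw [Finset.sum_const, hw, smul_zero]

end Pool.Agent.Zk28.TS
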