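import Pool.Agent.Zk28.TS.Deco
import Pool.Agent.Zk28.TS.Conv

/-!
The criterion for sections of multiples of `K_X + Δ + B`.
-/

set_option autoImplicit false
set_option linter.unusedSectionVars false

open FF Pool.Agent.W602.GT

namespace Pool.Agent.Zk28.TS

section

variable {K : Type} [Field K] [Algebra ℂ K] {n : ℕ}

/-- The matrix of a linear substitution of a frame. -/
theorem pluri_change {N : ℕ} {ω : (Fin n → Derivation ℂ K K) → K} (hω : IsPluri N ω)
    (A : Fin n → Fin n → K) (b : Fin n → Derivation ℂ K K) :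
    ω (fun i => ∑ j, A i j • b j) = (Matrix.of A).det ^ N * ω b := hω (Matrix.of A) b

/-- Sections give flag tensors. -/
theorem crit_converse (hn : 1 ≤ n) [Algebra.EssFiniteType ℂ K]
    (htr : Algebra.trdeg ℂ K = n) {X : Set (Place ℂ K)} {δ β : Place ℂ K → ℝ}
    (hδ : ∀ P ∈ X, 0 ≤ δ P ∧ δ P ≤ 1) {N : ℕ} (hN : 0 < N)
    {ω : (Fin n → Derivation ℂ K K) → K} (hω : IsSection n X (fun P => δ P + β P) N ω)
    {D : Fin n → Derivation ℂ K K} (hD : ω D ≠ 0) :
    ∃ m : ℕ, 0 < m ∧ ∃ s : STensor K (Fin m), SAdapted n X δ (fun P => (m : ℝ) / n * β P) s ∧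
      ∀ b : Fin n → Derivation ℂ K K, LinearIndependent K b → ∃ I : Fin m → Fin n,
        s (fun a => b (I a)) ≠ 0 ∧ ∀ w : Fin n → ℝ, ∑ i, w i = 0 → ∑ a, w (I a) = 0 := by
  classical
  obtain ⟨y, E, hF⟩ := exists_fr htr
  have hωE : ω E ≠ 0 := by
    intro h0
    have h1 := hω.1 (Matrix.of fun i j => D i (y j)) E
    have h2 : (fun i => ∑ j, (Matrix.of fun i j => D i (y j)) i j • E j) = D := by
      funext i
      exact hF.2 (D i)
    rw [h2, h0, mul_zero] at h1
    exact hD h1
  have hn' : (n : ℝ) ≠ 0 := by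
    have : (0 : ℝ) < n := by exact_mod_cast hn
    exact this.ne'
  let B : Module.Basis (Fin n) K (Derivation ℂ K K) := Module.Basis.mk hF.indep hF.span.ge
  have hB : ∀ i, B i = E i := fun i => by rw [Module.Basis.mk_apply]
  let ν : Fin n → ℕ := fun _ => N
  obtain ⟨s, hs⟩ := exists_flagTensor B hB ν (ω E)
  have hsad : SAdapted n X δ (fun P => N * β P) s := by
    refine flag_adapted htr hδ hF.indep (fun _ _ _ => le_rfl) hs
      fun P hPX hP A i0 hA hdet hreg hlog => ?_
    have h1 : ω E * ∏ i, A i i ^ ν i = ω fun i => ∑ j, A i j • E j := by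
      rw [pluri_change hω.1, tri_det_all hA, Finset.prod_pow, mul_comm]
    rw [h1]
    have h2 : GR P (-(N * (δ P + β P))) (ω fun i => ∑ j, A i j • E j) :=
      hω.2 P hPX hP _ hreg
    refine h2.mono (le_of_eq ?_)
    change -((N : ℝ) * δ P + N * β P) = _
    ring
  let e : (Σ i : Fin n, Fin (ν i)) ≃ Fin (n * N) :=
    Fintype.equivFinOfCardEq (by simp [ν])
  refine ⟨n * N, Nat.mul_pos hn hN, s.domDomCongr e, ?_, fun b hb => ?_⟩
  · intro P hPX hP D' hD'
    have h1 := hsad P hPX hP (fun p => D' (e p)) fun p => hD' _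
    have h2 : ({p | ¬ DerLog P (D' (e p))}.ncard : ℕ) = {a | ¬ DerLog P (D' a)}.ncard := by
      have h3 : {a | ¬ DerLog P (D' a)} = e '' {p | ¬ DerLog P (D' (e p))} := by
        ext a
        constructor
        · intro ha
          exact ⟨e.symm a, by simpa using ha, by simp⟩
        · rintro ⟨p, hp, rfl⟩
          exact hp
      rw [h3, Set.ncard_image_of_injective _ e.injective]
    rw [h2] at h1
    change s (fun p => D' (e p)) = 0 ∨ _ ≤ ((P.ord (s fun p => D' (e p)) : ℤ) : ℝ)
    have h3 : (((n * N : ℕ) : ℝ)) / n * β P = N * β P := by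
      push_cast
      field_simp
    beta_reduce at h1 ⊢
    rw [h3]
    exact h1
  · have hmem : ∀ i, ∃ z : Fin n → K, ∑ j, z j • E j = b i := fun i =>
      (Submodule.mem_span_range_iff_exists_fun K).mp (by rw [hF.span]; exact Submodule.mem_top)
    choose z hz using hmem
    have hdet : (Matrix.of z).det ≠ 0 := by
      have h1 := det_frame hF hb
      have h2 : (Matrix.of fun i j => b i (y j)) = Matrix.of z := by
        ext i j
        change b i (y j) = z i j
        rw [← hz i, der_sum]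
        simp [hF.1]
      rwa [h2] at h1
    refine ⟨fun a => (e.symm a).1, ?_, fun w hw => ?_⟩
    · change s (fun p => b (e.symm (e p)).1) ≠ 0
      have h1 : (fun p : (Σ i : Fin n, Fin (ν i)) => b (e.symm (e p)).1) =
          fun p => ∑ j, z p.1 j • E j := by
        funext p
        rw [Equiv.symm_apply_apply, hz]
      rw [h1, hs fun p => z p.1]
      refine mul_ne_zero hωE (Finset.prod_ne_zero_iff.mpr fun t _ => ?_)
      by_cases ht : t < N
      · have h2 : (Matrix.of fun i i' : {i : Fin n // t < ν i} => z i i').det =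
            (Matrix.of z).det := by
          let e2 : {i : Fin n // t < ν i} ≃ Fin n := Equiv.subtypeUnivEquiv fun i => ht
          rw [← Matrix.det_submatrix_equiv_self e2]
          rfl
        rw [h2]
        exact hdet
      · have : IsEmpty {i : Fin n // t < ν i} := ⟨fun i => ht i.2⟩
        rw [Matrix.det_isEmpty]
        exact one_ne_zero
    · have h1 : ∑ a, w (e.symm a).1 = ∑ p : (Σ i : Fin n, Fin (ν i)), w p.1 :=
        e.symm.sum_comp fun p => w p.1
      rw [h1, Fintype.sum_sigma]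
      simp only [Finset.sum_const, Finset.card_univ, Fintype.card_fin]
      change ∑ i, N • w i = 0
      rw [← Finset.smul_sum, hw, smul_zero]

/-- Flag tensors with constant weights are sections. -/
theorem section_of_flag [Algebra.EssFiniteType ℂ K] (htr : Algebra.trdeg ℂ K = n)
    {X : Set (Place ℂ K)} {δ β : Place ℂ K → ℝ} (hδ : ∀ P ∈ X, 0 ≤ δ P)
    {b : Fin n → Derivation ℂ K K} (hb : LinearIndependent K b) {N : ℕ} {c : K} (hc : c ≠ 0)
    {s : STensor K (Σ _i : Fin n, Fin N)} (hs : IsFlagTensor b (fun _ => N) c s)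
    (hsad : SAdapted n X δ (fun P => N * β P) s) :
    ∃ ω : (Fin n → Derivation ℂ K K) → K, IsSection n X (fun P => δ P + β P) N ω ∧
      ∃ D, ω D ≠ 0 := by
  classical
  obtain ⟨y, E, hF⟩ := exists_fr htr
  have hfin := hF.finite
  have hbspan := hb.span_eq_top_of_card_eq_finrank' (by rw [Fintype.card_fin, hF.finrank])
  let B : Module.Basis (Fin n) K (Derivation ℂ K K) := Module.Basis.mk hb hbspan.ge
  have hB : ∀ i, B i = b i := fun i => by rw [Module.Basis.mk_apply]
  let ω : (Fin n → Derivation ℂ K K) → K := fun D =>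
    c * (Matrix.of fun i j => B.repr (D i) j).det ^ N
  have hωp : IsPluri N ω := by
    intro A D
    have h1 : (Matrix.of fun i j => B.repr (∑ l, A i l • D l) j) =
        A * Matrix.of fun i j => B.repr (D i) j := by
      ext i j
      rw [Matrix.mul_apply]
      change B.repr (∑ l, A i l • D l) j = ∑ l, A i l * B.repr (D l) j
      rw [map_sum, Finsupp.finsetSum_apply]
      exact Finset.sum_congr rfl fun l _ => by rw [map_smul]; rfl
    change c * (Matrix.of fun i j => B.repr (∑ l, A i l • D l) j).det ^ N = _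
    rw [h1, Matrix.det_mul, mul_pow]
    change _ = A.det ^ N * (c * (Matrix.of fun i j => B.repr (D i) j).det ^ N)
    ring
  have hωb : ω b = c := by
    have h1 : (Matrix.of fun i j => B.repr (b i) j) = 1 := by
      ext i j
      change B.repr (b i) j = _
      rw [← hB i, B.repr_self, Matrix.one_apply, Finsupp.single_apply]
    change c * (Matrix.of fun i j => B.repr (b i) j).det ^ N = c
    rw [h1, Matrix.det_one, one_pow, mul_one]
  refine ⟨ω, ⟨hωp, fun P hPX hP D hD => ?_⟩, b, by rw [hωb]; exact hc⟩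
  obtain ⟨A, i0, hA, hdet, hreg, hlog, hco⟩ := flag_frame htr hP hb
  -- the value on the frame at `P`
  have h1 : ω (fun i => ∑ j, A i j • b j) = (Matrix.of A).det ^ N * c := by
    rw [pluri_change hωp, hωb]
  have h2 : s (fun p => ∑ j, A p.1 j • b j) = (Matrix.of A).det ^ N * c := by
    rw [hs fun p => A p.1]
    have h3 : ∀ t ∈ Finset.range (∑ _i : Fin n, N),
        (Matrix.of fun i i' : {i : Fin n // t < N} => A i i').det =
          if t < N then (Matrix.of A).det else 1 := by
      intro t _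
      by_cases ht : t < N
      · rw [if_pos ht]
        let e2 : {i : Fin n // t < N} ≃ Fin n := Equiv.subtypeUnivEquiv fun i => ht
        rw [← Matrix.det_submatrix_equiv_self e2]
        rfl
      · rw [if_neg ht]
        have : IsEmpty {i : Fin n // t < N} := ⟨fun i => ht i.2⟩
        rw [Matrix.det_isEmpty]
    rw [Finset.prod_congr rfl h3, Finset.prod_ite, Finset.prod_const_one, mul_one,
      Finset.prod_const, mul_comm]
    by_cases hn0 : n = 0
    · subst hn0
      simp
    · congr 2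
      have h4 : (Finset.range (∑ _i : Fin n, N)).filter (fun t => t < N) = Finset.range N := by
        ext t
        simp only [Finset.mem_filter, Finset.mem_range, Finset.sum_const, Finset.card_univ,
          Fintype.card_fin, smul_eq_mul]
        constructor
        · exact fun h => h.2
        · intro h
          refine ⟨lt_of_lt_of_le h ?_, h⟩
          exact Nat.le_mul_of_pos_left N (Nat.pos_of_ne_zero hn0)
      rw [h4, Finset.card_range]
  have h3 : GR P (-(N * (δ P + β P))) (ω fun i => ∑ j, A i j • b j) := by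
    rw [h1, ← h2]
    have h4 : GR P _ (s fun p => ∑ j, A p.1 j • b j) :=
      hsad P hPX hP (fun p => ∑ j, A p.1 j • b j) fun p => hreg _
    refine h4.mono ?_
    have h5 : (({p : (Σ _i : Fin n, Fin N) | ¬ DerLog P (∑ j, A p.1 j • b j)}.ncard : ℕ) : ℝ)
        ≤ N := by
      have h6 : {p : (Σ _i : Fin n, Fin N) | ¬ DerLog P (∑ j, A p.1 j • b j)} ⊆
          Set.range fun t : Fin N => (⟨i0, t⟩ : (Σ _i : Fin n, Fin N)) := by
        rintro ⟨i, t⟩ hp
        by_cases hi : i = i0
        · exact ⟨t, by rw [hi]⟩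
        · exact absurd (hlog i hi) hp
      have h7 := Set.ncard_le_ncard h6 (Set.finite_range _)
      have h8 : (Set.range fun t : Fin N => (⟨i0, t⟩ : (Σ _i : Fin n, Fin N))).ncard ≤ N := by
        rw [← Set.image_univ]
        refine le_trans (Set.ncard_image_le Set.finite_univ) ?_
        rw [Set.ncard_univ, Nat.card_eq_fintype_card, Fintype.card_fin]
      exact_mod_cast h7.trans h8
    have h6 := mul_le_mul_of_nonneg_right h5 (hδ P hPX)
    linarith
  -- general fields
  have hbP : LinearIndependent K fun i => ∑ j, A i j • b j := by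
    have hci : LinearIndependent K A := indep_iff_det.mpr hdet
    rw [Fintype.linearIndependent_iff] at hci ⊢
    intro g hg0 i
    refine hci g ?_ i
    have h1 : ∑ j, (∑ i, g i * A i j) • b j = 0 := by
      rw [← hg0]
      simp only [Finset.sum_smul, Finset.smul_sum, mul_smul]
      exact Finset.sum_comm
    have h2 := Fintype.linearIndependent_iff.mp hb _ h1
    funext j
    rw [Finset.sum_apply]
    exact h2 j
  have hspan := hbP.span_eq_top_of_card_eq_finrank' (by rw [Fintype.card_fin, hF.finrank])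
  have hex : ∀ i, ∃ z : Fin n → K, ∑ l, z l • (∑ j, A l j • b j) = D i := fun i =>
    (Submodule.mem_span_range_iff_exists_fun K).mp (by rw [hspan]; exact Submodule.mem_top)
  choose z hz using hex
  have h4 : ω D = (Matrix.of z).det ^ N * ω fun i => ∑ j, A i j • b j := by
    rw [← pluri_change hωp z]
    congr 1
    funext i
    exact (hz i).symm
  have h5 : GR P 0 (Matrix.of z).det :=
    GR.det fun i l => (hco (D i) (hD i) (z i) (hz i).symm).1 l
  have h6 := (h5.pow N).mul h3
  rw [mul_zero, zero_add, ← h4] at h6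
  exact h6

/-- The criterion. -/
theorem crit (hn : 1 ≤ n) [Algebra.EssFiniteType ℂ K]
    (htr : Algebra.trdeg ℂ K = n) {X : Set (Place ℂ K)} {δ β : Place ℂ K → ℝ}
    (hδ : ∀ P ∈ X, 0 ≤ δ P ∧ δ P ≤ 1) {G : Set (K ≃ₐ[ℂ] K)}
    (hG : ∀ σ ∈ G, MPreserves X δ β σ) {m : ℕ} (hm : 0 < m)
    (h : ∀ b : Fin n → Derivation ℂ K K, LinearIndependent K b → ∀ w : Fin n → ℤ,
      ∑ i, w i = 0 → InvariantFlag G b (fun i => (w i : ℝ)) → ∃ s : MTensor K (Fin m),
        MAdapted n X δ (fun P => (m : ℝ) / n * β P) s ∧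
        ∃ I : Fin m → Fin n, s (fun a => b (I a)) ≠ 0 ∧ ∑ a, w (I a) ≤ 0) :
    ∃ N : ℕ, 0 < N ∧ ∃ ω : (Fin n → Derivation ℂ K K) → K,
      IsSection n X (fun P => δ P + β P) N ω ∧ ∃ D, ω D ≠ 0 := by
  classical
  obtain ⟨y, E, hF⟩ := exists_fr htr
  have hn' : (0 : ℝ) < n := by exact_mod_cast hn
  have hm' : (0 : ℝ) < m := by exact_mod_cast hm
  obtain ⟨s1, hs1, I1, hI1, -⟩ := h E hF.indep (fun _ => 0) (by simp) (by
    intro σ _ t D D' hDD' hD
    simp only [Int.cast_zero] at hD ⊢
    by_cases ht : (0 : ℝ) ≤ t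
    · have h1 : E '' {i : Fin n | (0 : ℝ) ≤ t} = Set.range E := by
        have : {i : Fin n | (0 : ℝ) ≤ t} = Set.univ := by
          ext i; simp [ht]
        rw [this, Set.image_univ]
      rw [h1, hF.span]
      exact Submodule.mem_top
    · have h1 : E '' {i : Fin n | (0 : ℝ) ≤ t} = ∅ := by
        have : {i : Fin n | (0 : ℝ) ≤ t} = ∅ := by
          ext i; simp [ht]
        rw [this, Set.image_empty]
      rw [h1, Submodule.span_empty, Submodule.mem_bot] at hD ⊢
      rw [image_eq hDD', hD]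
      ext f
      rw [conj_apply]
      simp)
  have hs1' : s1 ≠ 0 := by
    rintro rfl
    exact hI1 rfl
  obtain ⟨b, ν, hb, hν, hpos, hflag, hineq, c, s, hc, hs, hsad⟩ :=
    decomposition htr hm hδ (G := G) (β := fun P => (m : ℝ) / n * β P) (by
      intro σ hσ P hP
      obtain ⟨Q, hQ, h1, h2, h3⟩ := hG σ hσ P hP
      exact ⟨Q, hQ, h1, by beta_reduce; rw [h2], h3⟩) hs1 hs1'
  -- the weights are constant
  set A : ℝ := ∑ i, (ν i : ℝ) with hA
  have hA0 : 0 < A := by
    have : (0 : ℝ) < ((∑ i, ν i : ℕ) : ℝ) := by exact_mod_cast hpos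
    push_cast at this
    exact this
  obtain ⟨s2, hs2, I, hI, hI'⟩ := h b hb (fun i => (n : ℤ) * ν i - ∑ i, (ν i : ℤ)) (by
      rw [Finset.sum_sub_distrib, Finset.sum_const, Finset.card_univ, Fintype.card_fin,
        ← Finset.mul_sum, nsmul_eq_mul, sub_self]) (by
      intro σ hσ t D D' hDD' hD
      have hset : {i | (((n : ℤ) * ν i - ∑ i, (ν i : ℤ) : ℤ) : ℝ) ≤ t} =
          {i | (ν i : ℝ) ≤ (t + A) / n} := by
        ext i
        change (((n : ℤ) * ν i - ∑ i, (ν i : ℤ) : ℤ) : ℝ) ≤ t ↔ (ν i : ℝ) ≤ (t + A) / n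
        push_cast
        rw [← hA, le_div_iff₀ hn', sub_le_iff_le_add, mul_comm]
      rw [hset] at hD ⊢
      exact hflag σ hσ _ D D' hDD' hD)
  have h1 := hineq s2 hs2 I hI
  have h2 : (m : ℝ) * ∑ i, (ν i : ℝ) ^ 2 ≤ A * ∑ a, (ν (I a) : ℝ) := by
    rw [hA]
    exact_mod_cast h1
  have h3 : ∑ a, (ν (I a) : ℝ) ≤ m * (A / n) := by
    have h31 : ((∑ a, ((n : ℤ) * ν (I a) - ∑ i, (ν i : ℤ)) : ℤ) : ℝ) ≤ 0 := by
      exact_mod_cast hI'
    push_cast at h31
    rw [← hA, Finset.sum_sub_distrib, Finset.sum_const, Finset.card_univ, Fintype.card_fin,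
      nsmul_eq_mul, ← Finset.mul_sum] at h31
    rw [mul_div_assoc', le_div_iff₀ hn']
    linarith
  have h4 : n * ∑ i, (ν i : ℝ) ^ 2 ≤ A ^ 2 := by
    have h5 : (m : ℝ) * ∑ i, (ν i : ℝ) ^ 2 ≤ A * (m * (A / n)) :=
      h2.trans (mul_le_mul_of_nonneg_left h3 hA0.le)
    have h6 : A * (m * (A / n)) = m * (A ^ 2 / n) := by ring
    rw [h6] at h5
    have h7 := le_of_mul_le_mul_left h5 hm'
    rw [le_div_iff₀ hn'] at h7
    linarith
  have hconst : ∀ i, (ν i : ℝ) = A / n := by
    have h5 : ∑ i, ((ν i : ℝ) - A / n) ^ 2 = ∑ i, (ν i : ℝ) ^ 2 - A ^ 2 / n := by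
      have h6 : ∀ i, ((ν i : ℝ) - A / n) ^ 2 = (ν i : ℝ) ^ 2 - 2 * (A / n) * ν i +
          (A / n) ^ 2 := fun i => by ring
      rw [Finset.sum_congr rfl fun i _ => h6 i, Finset.sum_add_distrib, Finset.sum_sub_distrib,
        ← Finset.mul_sum, ← hA, Finset.sum_const, Finset.card_univ, Fintype.card_fin,
        nsmul_eq_mul]
      field_simp
      ring
    have h6 : ∑ i, ((ν i : ℝ) - A / n) ^ 2 = 0 := by
      refine le_antisymm ?_ (Finset.sum_nonneg fun i _ => sq_nonneg _)
      rw [h5, sub_nonpos, le_div_iff₀ hn']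
      linarith
    intro i
    have h7 := (Finset.sum_eq_zero_iff_of_nonneg fun i _ => sq_nonneg ((ν i : ℝ) - A / n)).mp h6 i
      (Finset.mem_univ i)
    have h8 := pow_eq_zero_iff (two_ne_zero) |>.mp h7
    linarith
  set i0 : Fin n := ⟨0, hn⟩ with hi0
  have hνc : ν = fun _ => ν i0 := by
    funext i
    have h5 : (ν i : ℝ) = ν i0 := by rw [hconst i, hconst i0]
    exact_mod_cast h5
  generalize hN : ν i0 = N at hνc
  have hN0 : 0 < N := by
    rcases Nat.eq_zero_or_pos N with h5 | h5
    · rw [hνc, h5] at hpos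
      simp at hpos
    · exact h5
  subst hνc
  obtain ⟨ω, hω, hω'⟩ := section_of_flag htr (β := β) (fun P hP => (hδ P hP).1) hb hc hs (by
    have h5 : (fun P => ((∑ _i : Fin n, N : ℕ) : ℝ) / m * ((m : ℝ) / n * β P)) =
        fun P => N * β P := by
      funext P
      rw [Finset.sum_const, Finset.card_univ, Fintype.card_fin, smul_eq_mul]
      push_cast
      field_simp
    rw [h5] at hsad
    exact hsad)
  exact ⟨N, hN0, ω, hω, hω'⟩

end

end Pool.Agent.Zk28.TS
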