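import Pool.Agent.Helper819.Reyn

/-!
Tensors in coordinates, linear substitutions, and relative invariants of the general linear group.
-/

set_option autoImplicit false
set_option linter.unusedSectionVars false

open MvPolynomial Pool.Agent.Helper819.Apolar

namespace Pool.Agent.Zk28.TS

section

variable {R : Type*} [CommRing R] {n m : ℕ}

/-- The coordinates of a tensor of degree `m` after the substitution `e i ↦ ∑ j, A j i • e j`. -/
def ta (A : Matrix (Fin n) (Fin n) R) (T : (Fin m → Fin n) → R) (I : Fin m → Fin n) : R :=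
  ∑ J : Fin m → Fin n, (∏ a, A (J a) (I a)) * T J

theorem ta_mul (A B : Matrix (Fin n) (Fin n) R) (T : (Fin m → Fin n) → R) :
    ta (A * B) T = ta B (ta A T) := by
  classical
  funext I
  unfold ta
  have h1 : ∀ J : Fin m → Fin n, (∏ a, (A * B) (J a) (I a)) =
      ∑ L : Fin m → Fin n, (∏ a, B (L a) (I a)) * ∏ a, A (J a) (L a) := by
    intro J
    have h2 : ∀ a, (A * B) (J a) (I a) = ∑ l, B l (I a) * A (J a) l := by
      intro a
      rw [Matrix.mul_apply]
      exact Finset.sum_congr rfl fun l _ => mul_comm _ _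
    rw [Finset.prod_congr rfl fun a _ => h2 a, Finset.prod_univ_sum, Fintype.piFinset_univ]
    exact Finset.sum_congr rfl fun L _ => Finset.prod_mul_distrib
  simp_rw [h1, Finset.sum_mul, Finset.mul_sum]
  rw [Finset.sum_comm]
  exact Finset.sum_congr rfl fun L _ => Finset.sum_congr rfl fun J _ => by ring

theorem ta_one (T : (Fin m → Fin n) → R) : ta (1 : Matrix (Fin n) (Fin n) R) T = T := by
  classical
  funext I
  unfold ta
  rw [Finset.sum_eq_single I]
  · have h1 : ∏ a, (1 : Matrix (Fin n) (Fin n) R) (I a) (I a) = 1 :=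
      Finset.prod_eq_one fun a _ => Matrix.one_apply_eq _
    rw [h1, one_mul]
  · intro J _ hJ
    obtain ⟨a, ha⟩ := Function.ne_iff.mp hJ
    have h1 : ∏ a, (1 : Matrix (Fin n) (Fin n) R) (J a) (I a) = 0 :=
      Finset.prod_eq_zero (Finset.mem_univ a) (Matrix.one_apply_ne ha)
    rw [h1, zero_mul]
  · intro h
    exact absurd (Finset.mem_univ _) h

theorem ta_diagonal (d : Fin n → R) (T : (Fin m → Fin n) → R) (I : Fin m → Fin n) :
    ta (Matrix.diagonal d) T I = (∏ a, d (I a)) * T I := by
  classical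
  unfold ta
  rw [Finset.sum_eq_single I]
  · have h1 : ∏ a, (Matrix.diagonal d) (I a) (I a) = ∏ a, d (I a) :=
      Finset.prod_congr rfl fun a _ => Matrix.diagonal_apply_eq _ _
    rw [h1]
  · intro J _ hJ
    obtain ⟨a, ha⟩ := Function.ne_iff.mp hJ
    have h1 : ∏ a, (Matrix.diagonal d) (J a) (I a) = 0 :=
      Finset.prod_eq_zero (Finset.mem_univ a) (Matrix.diagonal_apply_ne _ ha)
    rw [h1, zero_mul]
  · intro h
    exact absurd (Finset.mem_univ _) h

theorem map_ta {R' : Type*} [CommRing R'] (φ : R →+* R') (A : Matrix (Fin n) (Fin n) R)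
    (T : (Fin m → Fin n) → R) (I : Fin m → Fin n) :
    φ (ta A T I) = ta (A.map φ) (fun J => φ (T J)) I := by
  unfold ta
  rw [map_sum]
  refine Finset.sum_congr rfl fun J _ => ?_
  rw [map_mul, map_prod]
  rfl

end

section

variable {K : Type} [Field K] {n m : ℕ} {S : Type}

/-- The coordinates of the tensors `v s` after the generic substitution. -/
noncomputable def PP (v : S → (Fin m → Fin n) → K) (c : S × (Fin m → Fin n)) :
    MvPolynomial (Fin n × Fin n) K :=
  ta (Matrix.mvPolynomialX (Fin n) (Fin n) K) (fun J => C (v c.1 J)) c.2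

theorem PP_act (B : Matrix (Fin n) (Fin n) K) (v : S → (Fin m → Fin n) → K)
    (c : S × (Fin m → Fin n)) : PP (fun s => ta B (v s)) c = Lsub B (PP v c) := by
  unfold PP
  have h1 : Lsub B (ta (Matrix.mvPolynomialX (Fin n) (Fin n) K) (fun J => C (v c.1 J)) c.2) =
      ta ((Matrix.mvPolynomialX (Fin n) (Fin n) K).map (Lsub B).toRingHom)
        (fun J => (Lsub B).toRingHom (C (v c.1 J))) c.2 :=
    map_ta (Lsub B).toRingHom _ _ _
  have h2 : (Matrix.mvPolynomialX (Fin n) (Fin n) K).map (Lsub B).toRingHom =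
      B.map C * Matrix.mvPolynomialX (Fin n) (Fin n) K := by
    ext1 i j
    rw [Matrix.map_apply, Matrix.mul_apply]
    change Lsub B (X (i, j)) = _
    unfold Lsub
    rw [bind₁_X_right]
    rfl
  have h3 : (fun J => (Lsub B).toRingHom (C (v c.1 J))) =
      fun J => (C (v c.1 J) : MvPolynomial (Fin n × Fin n) K) := by
    funext J
    exact (Lsub B).commutes (v c.1 J)
  rw [h1, h2, h3, ta_mul]
  congr 1
  funext J
  have h4 := map_ta (C : K →+* MvPolynomial (Fin n × Fin n) K) B (v c.1) J
  exact h4

variable [CharZero K]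

/-- The relative invariants of weight `N`, evaluated at the tensors `v s`. -/
noncomputable def Qv (v : S → (Fin m → Fin n) → K) (N q : ℕ)
    (l : Fin q → S × (Fin m → Fin n)) : K := rho N (∏ i, PP v (l i))

theorem Qv_act (B : Matrix (Fin n) (Fin n) K) (v : S → (Fin m → Fin n) → K) (N q : ℕ)
    (l : Fin q → S × (Fin m → Fin n)) :
    Qv (fun s => ta B (v s)) N q l = B.det ^ N * Qv v N q l := by
  unfold Qv
  rw [← rho_Lsub, map_prod]
  congr 1
  exact Finset.prod_congr rfl fun i _ => PP_act B v (l i)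

theorem rho_dt_pow_mul (N j : ℕ) (p : MvPolynomial (Fin n × Fin n) K) :
    rho (N + j) (dt n K ^ j * p) = rho N p := by
  induction j with
  | zero => rw [pow_zero, one_mul, add_zero]
  | succ j ih => rw [pow_succ', mul_assoc, ← add_assoc, rho_det_mul, ih]

/-- The functional vanishes on the algebra generated by the coordinates, if all relative invariants
vanish. -/
theorem rho_zero_of (v : S → (Fin m → Fin n) → K)
    (h : ∀ N, 1 ≤ N → ∀ (q : ℕ) (l : Fin q → S × (Fin m → Fin n)), Qv v N q l = 0)
    {N : ℕ} (hN : 1 ≤ N) {p : MvPolynomial (Fin n × Fin n) K}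
    (hp : p ∈ Algebra.adjoin K (Set.range (PP v))) : rho N p = 0 := by
  rw [← Subalgebra.mem_toSubmodule, Algebra.adjoin_eq_span] at hp
  induction hp using Submodule.span_induction with
  | mem x hx =>
    obtain ⟨L, hL, rfl⟩ := Submonoid.exists_list_of_mem_closure hx
    choose g hg using hL
    have h1 : L.prod = ∏ i : Fin L.length, PP v (g (L.get i) (List.get_mem _ _)) := by
      rw [← List.prod_ofFn]
      congr 1
      apply List.ext_get
      · simp
      · intro i h1 h2
        simp only [List.get_eq_getElem, List.getElem_ofFn]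
        exact (hg _ (List.getElem_mem _)).symm
    rw [h1]
    exact h N hN _ _
  | zero => exact rho_zero N
  | add x y _ _ hx hy => rw [rho_add, hx, hy, add_zero]
  | smul a x _ hx => rw [smul_eq_C_mul, rho_smul, hx, mul_zero]

/-- There is no relation. -/
theorem no_relation (v : S → (Fin m → Fin n) → K)
    (h : ∀ N, 1 ≤ N → ∀ (q : ℕ) (l : Fin q → S × (Fin m → Fin n)), Qv v N q l = 0)
    (W : ℕ) (F : ℕ → MvPolynomial (Fin n × Fin n) K)
    (hF : ∀ i, F i ∈ Algebra.adjoin K (Set.range (PP v))) :
    dt n K ^ (W + 1) ≠ ∑ i ∈ Finset.range (W + 1), dt n K ^ (W - i) * F i := by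
  intro h0
  have h1 := congrArg (rho (W + 1)) h0
  rw [rho_dt, rho_sum, Finset.sum_eq_zero] at h1
  · exact one_ne_zero h1
  · intro i hi
    have hi' : i ≤ W := Nat.lt_succ_iff.mp (Finset.mem_range.mp hi)
    have h2 : W + 1 = (i + 1) + (W - i) := by omega
    rw [h2, rho_dt_pow_mul]
    exact rho_zero_of v h (Nat.succ_pos i) (hF i)

end

end Pool.Agent.Zk28.TS
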