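import Pool.Agent.Zk28.TS.Inv

/-!
Change of the frame, and orders of the auxiliary family.
-/

set_option autoImplicit false
set_option linter.unusedSectionVars false

open MvPolynomial Pool.Agent.Helper819.Apolar FF

namespace Pool.Agent.Zk28.TS

section

variable {R : Type*} [Field R] {n m : ℕ} {S : Type*} {Q T M : ℕ}

theorem tm_single (T' : (Fin m → Fin n) → R) (J : Fin m → Fin n) :
    tm T' (fun x => (Pi.single (J x) 1 : Fin n → R)) = T' J := by
  classical
  rw [tm_apply, Finset.sum_eq_single J]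
  · simp
  · intro J' _ hJ'
    obtain ⟨a, ha⟩ := Function.ne_iff.mp hJ'
    rw [Finset.prod_eq_zero (Finset.mem_univ a) (Pi.single_eq_of_ne ha _), zero_mul]
  · intro h
    exact absurd (Finset.mem_univ _) h

theorem aux_eq (a : Fin n → ℕ) (w : Fin n → ℝ)
    (e : (Σ j : Fin Q ⊕ Fin T, kap m Q T a j) ≃ Fin M) (v : S → (Fin m → Fin n) → R)
    (s : Fin Q → S) (J : Fin M → Fin n) :
    aux a w e v s J = (∏ k, lead w (v (s k)) fun x : Fin m => J (e ⟨Sum.inl k, x⟩)) *
      ∏ t : Fin T, (Matrix.of fun i i' : {i : Fin n // (t : ℕ) < a i} =>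
        (Pi.single (J (e ⟨Sum.inr t, i⟩)) (1 : R) : Fin n → R) i').det := by
  unfold aux
  rw [auxF_apply]
  congr 1
  refine Finset.prod_congr rfl fun k _ => ?_
  exact tm_single _ _

theorem ta_eq_tm (A : Fin n → Fin n → R) (T' : (Fin m → Fin n) → R) (J : Fin m → Fin n) :
    ta (Matrix.of A).transpose T' J = tm T' fun x => A (J x) :=
  (tm_frame T' A J).symm

/-- Change of the frame for the leading part. -/
theorem lead_change {w : Fin n → ℝ} {A : Fin n → Fin n → R}
    (hA : ∀ j i, A j i ≠ 0 → w i ≤ w j) {T' : (Fin m → Fin n) → R}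
    (hT : ∀ I, T' I ≠ 0 → 1 ≤ ∑ x, w (I x)) :
    lead w (ta (Matrix.of A).transpose T') = ta (Matrix.of (bpart w A)).transpose (lead w T') := by
  classical
  funext J
  rw [ta_eq_tm, tm_apply]
  unfold lead
  rw [ta_eq_tm, tm_apply]
  split_ifs with hJ
  · refine Finset.sum_congr rfl fun I _ => ?_
    by_cases hI : T' I = 0
    · rw [hI, mul_zero]
      split_ifs <;> simp
    by_cases hall : ∀ x, A (J x) (I x) ≠ 0
    · have h2 : ∀ x ∈ Finset.univ, w (I x) ≤ w (J x) := fun x _ => hA _ _ (hall x)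
      have h3 : ∑ x, w (I x) ≤ ∑ x, w (J x) := Finset.sum_le_sum h2
      have h4 : ∑ x, w (I x) = 1 := le_antisymm (by rw [← hJ]; exact h3) (hT I hI)
      have h5 := (Finset.sum_eq_sum_iff_of_le h2).mp (by rw [h4, hJ])
      rw [if_pos h4]
      congr 1
      exact Finset.prod_congr rfl fun x hx => (bpart_eq (h5 x hx)).symm
    · push Not at hall
      obtain ⟨x, hx⟩ := hall
      have h2 : bpart w A (J x) (I x) = 0 := by
        unfold bpart
        split_ifs
        · exact hx
        · rfl
      rw [Finset.prod_eq_zero (Finset.mem_univ x) hx, Finset.prod_eq_zero (Finset.mem_univ x) h2,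
        zero_mul, zero_mul]
  · symm
    refine Finset.sum_eq_zero fun I _ => ?_
    by_cases hall : ∀ x, bpart w A (J x) (I x) ≠ 0
    · have h1 : ∀ x, w (I x) = w (J x) := fun x => by
        by_contra hne
        exact hall x (bpart_ne hne)
      rw [if_neg, mul_zero]
      rw [Finset.sum_congr rfl fun x _ => h1 x]
      exact hJ
    · push Not at hall
      obtain ⟨x, hx⟩ := hall
      rw [Finset.prod_eq_zero (Finset.mem_univ x) hx, zero_mul]

/-- The minors with indices in a union of blocks. -/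
theorem minor_change {w : Fin n → ℝ} (A : Fin n → Fin n → R) (C : Fin n → Prop)
    [DecidablePred C] (hC : ∀ i j, w i = w j → C i → C j) (J : {i // C i} → Fin n) :
    (Matrix.of fun i i' : {i // C i} => bpart w A (J i) i').det =
      (Matrix.of fun i i' : {i // C i} => (Pi.single (J i) (1 : R) : Fin n → R) i').det *
        (Matrix.of fun i i' : {i // C i} => bpart w A i i').det := by
  classical
  rw [← Matrix.det_mul]
  congr 1
  ext i i'
  rw [Matrix.mul_apply]
  change bpart w A (J i) i' =
    ∑ j : {i // C i}, (Pi.single (J i) (1 : R) : Fin n → R) j * bpart w A j i'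
  by_cases hJ : C (J i)
  · rw [Finset.sum_eq_single ⟨J i, hJ⟩]
    · simp
    · intro j _ hj
      rw [Pi.single_eq_of_ne, zero_mul]
      intro h
      exact hj (Subtype.ext h)
    · intro h
      exact absurd (Finset.mem_univ _) h
  · rw [Finset.sum_eq_zero]
    · refine bpart_ne fun h => hJ (hC i' (J i) h i'.2)
    · intro j _
      rw [Pi.single_eq_of_ne, zero_mul]
      intro h
      exact hJ (h ▸ j.2)

/-- Change of the frame for the auxiliary family. -/
theorem aux_change {w : Fin n → ℝ} {A : Fin n → Fin n → R}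
    (hA : ∀ j i, A j i ≠ 0 → w i ≤ w j) {a : Fin n → ℕ} (ha : ∀ i j, w i = w j → a i = a j)
    (e : (Σ j : Fin Q ⊕ Fin T, kap m Q T a j) ≃ Fin M) {v : S → (Fin m → Fin n) → R}
    (hv : ∀ s I, v s I ≠ 0 → 1 ≤ ∑ x, w (I x)) (s : Fin Q → S) (J : Fin M → Fin n) :
    ta (Matrix.of (bpart w A)).transpose (aux a w e v s) J =
      (∏ t : Fin T, (Matrix.of fun i i' : {i : Fin n // (t : ℕ) < a i} =>
        bpart w A i i').det) *
      aux a w e (fun s => ta (Matrix.of A).transpose (v s)) s J := by
  classical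
  rw [ta_eq_tm, tm_aux, auxF_apply, aux_eq]
  have h1 : ∀ k, tm (lead w (v (s k))) (fun x : Fin m => bpart w A (J (e ⟨Sum.inl k, x⟩))) =
      lead w (ta (Matrix.of A).transpose (v (s k))) fun x : Fin m => J (e ⟨Sum.inl k, x⟩) := by
    intro k
    rw [lead_change hA (hv (s k)), ta_eq_tm]
  have h2 : ∀ t : Fin T, (Matrix.of fun i i' : {i : Fin n // (t : ℕ) < a i} =>
      bpart w A (J (e ⟨Sum.inr t, i⟩)) i').det =
      (Matrix.of fun i i' : {i : Fin n // (t : ℕ) < a i} =>
        (Pi.single (J (e ⟨Sum.inr t, i⟩)) (1 : R) : Fin n → R) i').det *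
        (Matrix.of fun i i' : {i : Fin n // (t : ℕ) < a i} => bpart w A i i').det := fun t =>
    minor_change A (fun i => (t : ℕ) < a i) (fun i j hij hi => by rwa [← ha i j hij])
      fun i => J (e ⟨Sum.inr t, i⟩)
  rw [Finset.prod_congr rfl fun k _ => h1 k, Finset.prod_congr rfl fun t _ => h2 t,
    Finset.prod_mul_distrib]
  ring

end

section

variable {K : Type} [Field K] [CharZero K] {n m : ℕ} {S : Type}

theorem Qv_smul (x : K) (v : S → (Fin m → Fin n) → K) (N q : ℕ)
    (l : Fin q → S × (Fin m → Fin n)) :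
    Qv (fun s J => x * v s J) N q l = x ^ q * Qv v N q l := by
  unfold Qv
  have h1 : ∀ c, PP (fun s J => x * v s J) c = C x * PP v c := by
    intro c
    unfold PP ta
    rw [Finset.mul_sum]
    refine Finset.sum_congr rfl fun J _ => ?_
    beta_reduce
    rw [map_mul]
    ring
  rw [Finset.prod_congr rfl fun i _ => h1 (l i), Finset.prod_mul_distrib, Finset.prod_const,
    Finset.card_univ, Fintype.card_fin, ← map_pow, rho_smul]

theorem Qv_congr {S' : Type} {v : S → (Fin m → Fin n) → K} {v' : S' → (Fin m → Fin n) → K}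
    {N q : ℕ} {l : Fin q → S × (Fin m → Fin n)} {l' : Fin q → S' × (Fin m → Fin n)}
    (h : ∀ i J, v (l i).1 J = v' (l' i).1 J) (h' : ∀ i, (l i).2 = (l' i).2) :
    Qv v N q l = Qv v' N q l' := by
  unfold Qv
  congr 1
  refine Finset.prod_congr rfl fun i _ => ?_
  unfold PP
  rw [h' i]
  congr 1
  funext J
  rw [h i J]

theorem map_Qv {F : Type} [Field F] [CharZero F] (φ : K →+* F) (v : S → (Fin m → Fin n) → K)
    (N q : ℕ) (l : Fin q → S × (Fin m → Fin n)) :
    φ (Qv v N q l) = Qv (fun s J => φ (v s J)) N q l := by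
  unfold Qv
  rw [← rho_map, map_prod]
  congr 1
  refine Finset.prod_congr rfl fun i _ => ?_
  unfold PP
  rw [map_ta]
  congr 1
  · ext1 i j
    simp [Matrix.mvPolynomialX]
  · funext J
    simp

variable {k : Type} [Field k] [CharZero k] [Algebra k K]

/-- The order of the relative invariants. -/
theorem Qv_ord' (P : Place k K) {δ γ : ℝ} (i0 : Fin n) (v : S → (Fin m → Fin n) → K)
    (hv : ∀ s J, GR P (-(δ * ((Finset.univ.filter fun a => J a = i0).card : ℝ)) + γ) (v s J))
    (N q : ℕ) (l : Fin q → S × (Fin m → Fin n)) : GR P (-(δ * N) + q * γ) (Qv v N q l) := by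
  classical
  unfold Qv
  have h1 : ∏ i, PP v (l i) = ∑ L : Fin q → (Fin m → Fin n),
      C (∏ i, v (l i).1 (L i)) * ∏ p : Fin q × Fin m, X (L p.1 p.2, (l p.1).2 p.2) := by
    unfold PP ta
    rw [Finset.prod_univ_sum, Fintype.piFinset_univ]
    refine Finset.sum_congr rfl fun L _ => ?_
    rw [Finset.prod_mul_distrib, map_prod, mul_comm, Fintype.prod_prod_type]
    rfl
  rw [h1, rho_sum]
  refine GR.sum _ fun L _ => ?_
  rw [rho_smul]
  by_cases h0 : rho N (∏ p : Fin q × Fin m,
      (X (L p.1 p.2, (l p.1).2 p.2) : MvPolynomial (Fin n × Fin n) K)) = 0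
  · rw [h0, mul_zero]; exact GR.zero
  have h2 := rho_row Finset.univ (fun p : Fin q × Fin m => L p.1 p.2)
    (fun p => (l p.1).2 p.2) N i0 h0
  have h3 : GR P 0 (rho N (∏ p : Fin q × Fin m,
      (X (L p.1 p.2, (l p.1).2 p.2) : MvPolynomial (Fin n × Fin n) K))) := by
    have h4 : (∏ p : Fin q × Fin m,
        (X (L p.1 p.2, (l p.1).2 p.2) : MvPolynomial (Fin n × Fin n) K)) =
        map (algebraMap k K) (∏ p : Fin q × Fin m, X (L p.1 p.2, (l p.1).2 p.2)) := by
      rw [map_prod]
      exact Finset.prod_congr rfl fun p _ => (map_X _ _).symm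
    rw [h4, rho_map]
    refine Or.inr ?_
    rw [P.ord_const]
    · simp
    · intro h5
      rw [h4, rho_map, h5, map_zero] at h0
      exact h0 rfl
  have h4 : GR P (∑ i, (-(δ * ((Finset.univ.filter fun a => L i a = i0).card : ℝ)) + γ))
      (∏ i, v (l i).1 (L i)) := GR.prod _ fun i _ => hv _ _
  have h5 : ∑ i, (-(δ * ((Finset.univ.filter fun a => L i a = i0).card : ℝ)) + γ) =
      -(δ * N) + q * γ := by
    rw [Finset.sum_add_distrib, Finset.sum_neg_distrib, ← Finset.mul_sum, ← h2, Finset.sum_const,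
      Finset.card_univ, Fintype.card_fin, nsmul_eq_mul]
    congr 3
    rw [Finset.card_filter, Fintype.sum_prod_type]
    push_cast
    refine Finset.sum_congr rfl fun i _ => ?_
    rw [Finset.card_filter]
    push_cast
    rfl
  rw [h5] at h4
  have h6 := h4.mul h3
  rwa [add_zero] at h6

variable {Q T M : ℕ}

/-- The order of the auxiliary tensors. -/
theorem aux_ord (P : Place k K) {δ γ : ℝ} (i0 : Fin n) {a : Fin n → ℕ} (haT : ∀ i, a i ≤ T)
    (w : Fin n → ℝ) (e : (Σ j : Fin Q ⊕ Fin T, kap m Q T a j) ≃ Fin M)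
    (v : S → (Fin m → Fin n) → K)
    (hv : ∀ s J, GR P (-(δ * ((Finset.univ.filter fun a => J a = i0).card : ℝ)) + γ) (v s J))
    (s : Fin Q → S) (J : Fin M → Fin n) :
    GR P (-(δ * ((Finset.univ.filter fun a => J a = i0).card : ℝ)) + (δ * a i0 + Q * γ))
      (aux a w e v s J) := by
  classical
  rw [aux_eq]
  by_cases hdet : ∃ t : Fin T, (Matrix.of fun i i' : {i : Fin n // (t : ℕ) < a i} =>
        (Pi.single (J (e ⟨Sum.inr t, i⟩)) (1 : K) : Fin n → K) i').det = 0
  · obtain ⟨t, ht⟩ := hdet
    rw [Finset.prod_eq_zero (Finset.mem_univ t) ht, mul_zero]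
    exact GR.zero
  push Not at hdet
  -- the number of indices equal to `i0`
  have hcount : ∀ t : Fin T, (∑ i : {i : Fin n // (t : ℕ) < a i},
      if J (e ⟨Sum.inr t, i⟩) = i0 then (1 : ℕ) else 0) =
      ∑ i : {i : Fin n // (t : ℕ) < a i}, if (i : Fin n) = i0 then 1 else 0 := by
    intro t
    by_cases hi0 : (t : ℕ) < a i0
    · have h1 : (∑ i : {i : Fin n // (t : ℕ) < a i}, if (i : Fin n) = i0 then 1 else 0) = 1 := by
        rw [Finset.sum_eq_single (⟨i0, hi0⟩ : {i : Fin n // (t : ℕ) < a i})]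
        · simp
        · intro i _ hi
          exact if_neg fun h => hi (Subtype.ext h)
        · intro h
          exact absurd (Finset.mem_univ _) h
      rw [h1]
      obtain ⟨i1, hi1⟩ : ∃ i1 : {i : Fin n // (t : ℕ) < a i},
          J (e ⟨Sum.inr t, i1⟩) = i0 := by
        by_contra hno
        push Not at hno
        refine hdet t (Matrix.det_eq_zero_of_column_eq_zero (⟨i0, hi0⟩ :
          {i : Fin n // (t : ℕ) < a i}) fun i => ?_)
        exact Pi.single_eq_of_ne (fun h => hno i h.symm) _
      rw [Finset.sum_eq_single i1]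
      · rw [if_pos hi1]
      · intro i _ hi
        refine if_neg fun h => hdet t (Matrix.det_zero_of_row_eq hi ?_)
        funext i'
        change (Pi.single (J (e ⟨Sum.inr t, i⟩)) (1 : K) : Fin n → K) i' =
          (Pi.single (J (e ⟨Sum.inr t, i1⟩)) (1 : K) : Fin n → K) i'
        rw [h, hi1]
      · intro h
        exact absurd (Finset.mem_univ _) h
    · have hz1 : (∑ i : {i : Fin n // (t : ℕ) < a i},
          if J (e ⟨Sum.inr t, i⟩) = i0 then (1 : ℕ) else 0) = 0 := by
        refine Finset.sum_eq_zero fun i _ => ?_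
        refine if_neg fun h => hdet t (Matrix.det_eq_zero_of_row_eq_zero i fun i' => ?_)
        refine Pi.single_eq_of_ne (fun h' => hi0 ?_) _
        rw [← h, ← h']
        exact i'.2
      have hz2 : (∑ i : {i : Fin n // (t : ℕ) < a i},
          if (i : Fin n) = i0 then (1 : ℕ) else 0) = 0 := by
        refine Finset.sum_eq_zero fun i _ => if_neg fun h => hi0 ?_
        rw [← h]
        exact i.2
      rw [hz1, hz2]
  have hcard : (Finset.univ.filter fun p => J p = i0).card =
      ∑ k : Fin Q, (Finset.univ.filter fun x : Fin m => J (e ⟨Sum.inl k, x⟩) = i0).card +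
        a i0 := by
    rw [Finset.card_filter]
    have h1 : ∑ p, (if J p = i0 then (1 : ℕ) else 0) =
        ∑ p : (Σ j : Fin Q ⊕ Fin T, kap m Q T a j), if J (e p) = i0 then 1 else 0 :=
      (e.sum_comp fun p => if J p = i0 then (1 : ℕ) else 0).symm
    rw [h1, sum_pos]
    congr 1
    · refine Finset.sum_congr rfl fun k _ => ?_
      rw [Finset.card_filter]
    · rw [Finset.sum_congr rfl fun t _ => hcount t]
      have h2 := sum_level (T := T) a haT fun i => if i = i0 then (1 : ℕ) else 0
      rw [h2]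
      simp
  have h1 : GR P (∑ k : Fin Q, (-(δ * ((Finset.univ.filter fun x : Fin m =>
      J (e ⟨Sum.inl k, x⟩) = i0).card : ℝ)) + γ))
      (∏ k, lead w (v (s k)) fun x : Fin m => J (e ⟨Sum.inl k, x⟩)) := by
    refine GR.prod _ fun k _ => ?_
    unfold lead
    split_ifs
    · exact hv _ _
    · exact GR.zero
  have h2 : GR P 0 (∏ t : Fin T, (Matrix.of fun i i' : {i : Fin n // (t : ℕ) < a i} =>
      (Pi.single (J (e ⟨Sum.inr t, i⟩)) (1 : K) : Fin n → K) i').det) := by
    have h3 := GR.prod (P := P) Finset.univ (r := fun _ : Fin T => (0 : ℝ))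
      (f := fun t : Fin T => (Matrix.of fun i i' : {i : Fin n // (t : ℕ) < a i} =>
        (Pi.single (J (e ⟨Sum.inr t, i⟩)) (1 : K) : Fin n → K) i').det) fun t _ => by
      rw [Matrix.det_apply]
      refine GR.sum _ fun σ _ => ?_
      have h4 : GR P 0 (∏ i : {i : Fin n // (t : ℕ) < a i},
          (Matrix.of fun i i' : {i : Fin n // (t : ℕ) < a i} =>
            (Pi.single (J (e ⟨Sum.inr t, i⟩)) (1 : K) : Fin n → K) i') (σ i) i) := by
        have h5 := GR.prod (P := P) Finset.univ
          (r := fun _ : {i : Fin n // (t : ℕ) < a i} => (0 : ℝ))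
          (f := fun i => (Matrix.of fun i i' : {i : Fin n // (t : ℕ) < a i} =>
            (Pi.single (J (e ⟨Sum.inr t, i⟩)) (1 : K) : Fin n → K) i') (σ i) i) fun i _ => by
          change GR P 0 ((Pi.single (J (e ⟨Sum.inr t, σ i⟩)) (1 : K) : Fin n → K) i)
          by_cases h6 : (i : Fin n) = J (e ⟨Sum.inr t, σ i⟩)
          · rw [← h6, Pi.single_eq_same]
            exact GR.one
          · rw [Pi.single_eq_of_ne h6]
            exact GR.zero
        simpa using h5
      rcases Int.units_eq_one_or (Equiv.Perm.sign σ) with h2 | h2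
      · rw [h2, one_smul]; exact h4
      · rw [h2, Units.neg_smul, one_smul]
        rcases h4 with h4 | h4
        · rw [h4, neg_zero]; exact GR.zero
        · refine Or.inr ?_
          rw [P.ord_neg]
          exact h4
    simpa using h3
  have h3 := h1.mul h2
  refine h3.mono (le_of_eq ?_)
  rw [hcard, Finset.sum_add_distrib, Finset.sum_neg_distrib, ← Finset.mul_sum, Finset.sum_const,
    Finset.card_univ, Fintype.card_fin, nsmul_eq_mul]
  push_cast
  ring

end

end Pool.Agent.Zk28.TS
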