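import Pool.Agent.Zk28.TS.Res

/-!
Destabilizing weights over the algebraic closure.
-/

set_option autoImplicit false
set_option linter.unusedSectionVars false

open MvPolynomial Pool.Agent.Helper819.Apolar

namespace Pool.Agent.Zk28.TS

section

variable {K : Type} [Field K] {n m : ℕ} {S : Type}

theorem eval₂_PP {κ : Type*} [CommRing κ] (ψ : K →+* κ) (g : Matrix (Fin n) (Fin n) κ)
    (v : S → (Fin m → Fin n) → K) (c : S × (Fin m → Fin n)) :
    eval₂Hom ψ (fun p => g p.1 p.2) (PP v c) = ta g (fun J => ψ (v c.1 J)) c.2 := by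
  unfold PP
  rw [map_ta]
  congr 1
  · ext i j
    simp [Matrix.mvPolynomialX]
  · funext J
    simp

theorem eval₂_dt {κ : Type*} [CommRing κ] (ψ : K →+* κ) (g : Matrix (Fin n) (Fin n) κ) :
    eval₂Hom ψ (fun p => g p.1 p.2) (dt n K) = g.det := by
  unfold dt
  rw [RingHom.map_det, RingHom.mapMatrix_apply]
  congr 1
  ext i j
  simp [Matrix.mvPolynomialX]

/-- The support of the tensors in a suitable frame over an algebraically closed field is contained
in that over an arbitrary extension. -/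
theorem exists_closed (F : Type) [Field F] [Algebra K F] [IsAlgClosed F]
    (v : S → (Fin m → Fin n) → K) {κ : Type} [Field κ] (ψ : K →+* κ)
    (g : Matrix (Fin n) (Fin n) κ) (hg : g.det ≠ 0) :
    ∃ g' : Matrix (Fin n) (Fin n) F, g'.det ≠ 0 ∧ ∀ s I,
      ta g' (fun J => algebraMap K F (v s J)) I ≠ 0 →
        ∃ s', ta g (fun J => ψ (v s' J)) I ≠ 0 := by
  classical
  by_contra hno
  push Not at hno
  let I0 : Ideal (MvPolynomial (Fin n × Fin n) K) :=
    Ideal.span {p | ∃ s I, (∀ s', ta g (fun J => ψ (v s' J)) I = 0) ∧ p = PP v (s, I)}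
  have h1 : dt n K ∈ vanishingIdeal K (zeroLocus F I0) := by
    rw [mem_vanishingIdeal_iff]
    intro x hx
    by_contra hne
    obtain ⟨s, I, h2, h3⟩ := hno (Matrix.of fun i j => x (i, j)) (by
      intro h0
      apply hne
      have h4 := eval₂_dt (algebraMap K F) (Matrix.of fun i j => x (i, j))
      rw [h0] at h4
      exact h4)
    apply h2
    have h5 := (mem_zeroLocus_iff.mp hx) (PP v (s, I)) (Ideal.subset_span ⟨s, I, h3, rfl⟩)
    have h6 := eval₂_PP (algebraMap K F) (Matrix.of fun i j => x (i, j)) v (s, I)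
    rw [← h6]
    exact h5
  rw [vanishingIdeal_zeroLocus_eq_radical] at h1
  obtain ⟨N, hN⟩ := h1
  have h2 : I0 ≤ RingHom.ker (eval₂Hom ψ fun p => g p.1 p.2) := by
    refine Ideal.span_le.mpr ?_
    rintro p ⟨s, I, h3, rfl⟩
    change eval₂Hom ψ (fun p => g p.1 p.2) (PP v (s, I)) = 0
    rw [eval₂_PP]
    exact h3 s
  have h3 : eval₂Hom ψ (fun p => g p.1 p.2) (dt n K ^ N) = 0 := h2 hN
  rw [map_pow, eval₂_dt] at h3
  exact hg (eq_zero_of_pow_eq_zero h3)

end

end Pool.Agent.Zk28.TS
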