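import Pool.Agent.Zk28.TS.Flag

/-!
The canonical decomposition.
-/

set_option autoImplicit false
set_option linter.unusedSectionVars false

open FF Pool.Agent.W602.GT

namespace Pool.Agent.Zk28.TS

section

variable {K : Type} [Field K] [Algebra ℂ K] {n m : ℕ}

theorem exists_val_ne {b : Fin n → Derivation ℂ K K}
    (hspan : Submodule.span K (Set.range b) = ⊤) {F : Type} [Field F] [Algebra K F]
    {s : MultilinearMap K (fun _ : Fin m => Derivation ℂ K K) F} (hs : s ≠ 0) :
    ∃ J : Fin m → Fin n, s (fun a => b (J a)) ≠ 0 := by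
  classical
  by_contra hno
  push Not at hno
  apply hs
  ext D
  have hex : ∀ a, ∃ z : Fin n → K, ∑ i, z i • b i = D a := fun a =>
    (Submodule.mem_span_range_iff_exists_fun K).mp (by rw [hspan]; exact Submodule.mem_top)
  choose z hz using hex
  have h1 : D = fun a => ∑ i, z a i • b i := by
    funext a
    exact (hz a).symm
  rw [h1, MultilinearMap.map_sum]
  refine Finset.sum_eq_zero fun J _ => ?_
  rw [MultilinearMap.map_smul_univ s (fun a => z a (J a)) (fun a => b (J a)), hno J, smul_zero]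

/-- The canonical decomposition, with the optimal weights. -/
theorem deco_core [Algebra.EssFiniteType ℂ K] (htr : Algebra.trdeg ℂ K = n) (hm : 1 ≤ m)
    {X : Set (Place ℂ K)} {δ β : Place ℂ K → ℝ} (hδ : ∀ P ∈ X, 0 ≤ δ P ∧ δ P ≤ 1)
    {G : Set (K ≃ₐ[ℂ] K)} (hG : ∀ σ ∈ G, MPreserves X δ β σ)
    {s1 : MTensor K (Fin m)} (hs1 : MAdapted n X δ β s1) (hs1' : s1 ≠ 0) :
    ∃ (b : Fin n → Derivation ℂ K K) (w : Fin n → ℝ) (ρ : ℝ) (ν : Fin n → ℕ),
      Opt (PA n X δ β m) b w ∧ Monotone w ∧ 0 < ρ ∧ (∀ i, (ν i : ℝ) = ρ * w i) ∧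
      0 < ∑ i, ν i ∧ InvariantFlag G b w ∧
      ∃ (c : K) (s : STensor K (Σ i : Fin n, Fin (ν i))), c ≠ 0 ∧ IsFlagTensor b ν c s ∧
        SAdapted n X δ (fun P => ((∑ i, ν i : ℕ) : ℝ) / m * β P) s := by
  classical
  have hcK : CharZero K := charZero_of_injective_algebraMap (algebraMap ℂ K).injective
  obtain ⟨y, E, hF⟩ := exists_fr htr
  have hfinV := hF.finite
  set F := AlgebraicClosure K with hFdef
  have hm' : (0 : ℝ) < m := by exact_mod_cast hm
  -- the dimension is positive
  have hn : 1 ≤ n := by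
    obtain ⟨J, -⟩ := exists_val_ne hF.span hs1'
    exact (Nat.pos_of_ne_zero fun h0 => by
      subst h0
      exact (J ⟨0, hm⟩).elim0)
  -- the optimal weights
  obtain ⟨b', w', hopt'⟩ := exists_opt hm (PA n X δ β m) hF.indep
  let π : Equiv.Perm (Fin n) := Tuple.sort w'
  set w : Fin n → ℝ := w' ∘ π with hw
  set b : Fin n → Derivation ℂ K K := b' ∘ π with hb
  have hopt : Opt (PA n X δ β m) b w := hopt'.perm π
  have hmono : Monotone w := Tuple.monotone_sort w'
  have hbspan : Submodule.span K (Set.range b) = ⊤ :=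
    hopt.1.span_eq_top_of_card_eq_finrank' (by rw [Fintype.card_fin, hF.finrank])
  -- coordinates
  let S : Type := {s : MTensor K (Fin m) // s ∈ PA n X δ β m}
  let v : S → (Fin m → Fin n) → F := fun s J => s.1 fun a => b (J a)
  have hstd : Opt (Set.range fun s => resK (K := K) (tm (v s))) (std K n) w :=
    opt_std hopt (fun s : S => s.1) Subtype.range_coe
  have hgal : ∀ (σ : F ≃ₐ[K] F) (s : S), ∃ s', ∀ J, v s' J = σ (v s J) := fun σ s =>
    ⟨⟨_, gal_adapted s.2 σ⟩, fun J => rfl⟩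
  have hne : (supp (Set.range fun s => resK (K := K) (tm (v s))) (std K n)).Nonempty := by
    obtain ⟨J, hJ⟩ := exists_val_ne hbspan hs1'
    refine ⟨J, _, ⟨⟨s1, hs1⟩, rfl⟩, ?_⟩
    rw [resK_std]
    exact hJ
  have hsupp : ∀ (s : S) I, v s I ≠ 0 → 1 ≤ ∑ x, w (I x) := fun s I hI =>
    hopt.2.1 I ⟨s.1, s.2, hI⟩
  obtain ⟨Q, N, a, e, q, l, hQ, hN, hq, haN, ha, hinv⟩ := exists_inv (K := K) hn hm v hgal hstd hne
  have hsq : 0 < sq w := hstd.pos hne
  have ha' : ∀ i j, w i = w j → a i = a j := by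
    intro i j hij
    have h1 : (a i : ℝ) = a j := by rw [ha, ha, hij]
    exact_mod_cast h1
  -- a finite Galois extension
  let S0 : Type := Fin q × Fin Q
  let v0 : S0 → (Fin m → Fin n) → F := fun p => v ((l p.1).1 p.2)
  let Z : Set F := Set.range fun p : S0 × (Fin m → Fin n) => v0 p.1 p.2
  have hZ : Finite Z := Set.finite_range _
  let L : FiniteGaloisIntermediateField K F := FiniteGaloisIntermediateField.adjoin K Z
  have hZL : ∀ p J, v0 p J ∈ (L : IntermediateField K F) := fun p J =>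
    FiniteGaloisIntermediateField.subset_adjoin K Z ⟨(p, J), rfl⟩
  let vL : S0 → (Fin m → Fin n) → L := fun p J => ⟨v0 p J, hZL p J⟩
  let l0 : Fin q → (Fin Q → S0) × (Fin (n * N) → Fin n) := fun i => (fun k => (i, k), (l i).2)
  have hcL : CharZero L := charZero_of_injective_algebraMap (algebraMap K L).injective
  set cL : L := Qv (aux a w e vL) (q * N) q l0 with hcLdef
  have hcL0 : cL ≠ 0 := by
    intro h0
    apply hinv
    have h1 := map_Qv (algebraMap L F) (aux a w e vL) (q * N) q l0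
    rw [← hcLdef, h0, map_zero] at h1
    rw [h1]
    refine Qv_congr (fun i J => ?_) fun i => rfl
    rw [map_aux]
    rfl
  set d := Fintype.card (L ≃ₐ[K] L) with hd
  have hd0 : 0 < d := Fintype.card_pos
  let c : K := Algebra.norm K cL
  have hc0 : c ≠ 0 := Algebra.norm_ne_zero_iff.mpr hcL0
  let ν : Fin n → ℕ := fun i => d * q * (N - a i)
  set ρ : ℝ := d * q * Q / sq w with hρ
  have hρ0 : 0 < ρ := by
    have h1 : (0 : ℝ) < d := by exact_mod_cast hd0
    have h2 : (0 : ℝ) < q := by exact_mod_cast hq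
    have h3 : (0 : ℝ) < Q := by exact_mod_cast hQ
    positivity
  have hνw : ∀ i, (ν i : ℝ) = ρ * w i := by
    intro i
    simp only [ν]
    push_cast [Nat.cast_sub (haN i)]
    rw [ha i, hρ]
    field_simp
    ring
  have hνmono : Monotone ν := by
    intro i j hij
    have h1 : (ν i : ℝ) ≤ ν j := by
      rw [hνw, hνw]
      exact mul_le_mul_of_nonneg_left (hmono hij) hρ0.le
    exact_mod_cast h1
  have hsumw := hopt.sum
  have hsumν : ((∑ i, ν i : ℕ) : ℝ) = d * q * Q * m := by
    push_cast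
    rw [Finset.sum_congr rfl fun i _ => hνw i, ← Finset.mul_sum, hsumw, hρ]
    field_simp
  have hbasis : ∃ B : Module.Basis (Fin n) K (Derivation ℂ K K), ∀ i, B i = b i :=
    ⟨Module.Basis.mk hopt.1 hbspan.ge, fun i => by rw [Module.Basis.mk_apply]⟩
  obtain ⟨B, hB⟩ := hbasis
  obtain ⟨s, hs⟩ := exists_flagTensor B hB ν c
  refine ⟨b, w, ρ, ν, hopt, hmono, hρ0, hνw, ?_, ?_, c, s, hc0, hs, ?_⟩
  · have h1 : (0 : ℝ) < ((∑ i, ν i : ℕ) : ℝ) := by
      rw [hsumν]
      have h1 : (0 : ℝ) < d := by exact_mod_cast hd0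
      have h2 : (0 : ℝ) < q := by exact_mod_cast hq
      have h3 : (0 : ℝ) < Q := by exact_mod_cast hQ
      positivity
    exact_mod_cast h1
  · intro σ hσ t D D' hDD' hD
    rw [image_eq hDD']
    obtain ⟨τ, hτ⟩ := exists_lift σ
    refine hopt.invariant hF.finrank σ.toRingEquiv (conj σ) (conj_add σ)
      (fun a x => conj_smul σ a x) (fun x hx => conj_inj hx) ?_ t hD
    intro s hs u hu
    refine ⟨mpull σ τ hτ s, mpull_adapted (hG σ hσ) τ hτ hs, ?_⟩
    rw [mpull_apply]
    exact (map_ne_zero_iff _ τ.symm.injective).mpr hu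
  · refine flag_adapted htr hδ hopt.1 hνmono hs fun P hPX hP A i0 hA hdet hreg hlog => ?_
    have h1 := norm_order (P := P) (L := L) hmono hA hdet (v := vL)
      (fun p I hI => hsupp ((l p.1).1 p.2) I fun h0 => hI (Subtype.ext h0))
      (i0 := i0) (δ := δ P) (β := β P) (by
        intro Ω eΩ hΩ σ p J
        have h2 : AlgOrd P (-(({x | ¬ DerLog P (∑ j, A (J x) j • b j)}.ncard : ℝ) * δ P + β P))
            (((l p.1).1 p.2).1 fun x => ∑ j, A (J x) j • b j) :=
          ((l p.1).1 p.2).2 P hPX hP _ fun x => hreg (J x)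
        have h3 : (((l p.1).1 p.2).1 fun x => ∑ j, A (J x) j • b j) =
            algebraMap L F (ta (Matrix.of fun i j => algebraMap K L (A i j)).transpose
              (vL p) J) := by
          rw [mtensor_expand, ta_eq_tm, map_tm]
          rfl
        rw [h3] at h2
        have h4 := h2.place hΩ (x := σ (ta (Matrix.of fun i j =>
          algebraMap K L (A i j)).transpose (vL p) J)) (by
          intro pol hpol
          have h5 : Polynomial.aeval (ta (Matrix.of fun i j =>
              algebraMap K L (A i j)).transpose (vL p) J) pol = 0 := by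
            apply (algebraMap L F).injective
            rw [map_zero, ← hpol]
            exact (Polynomial.aeval_algebraMap_apply F _ pol).symm
          have h6 := Polynomial.aeval_algHom_apply σ.toAlgHom (ta (Matrix.of fun i j =>
              algebraMap K L (A i j)).transpose (vL p) J) pol
          rw [h5, map_zero] at h6
          exact h6)
        refine h4.mono ?_
        refine mul_le_mul_of_nonneg_left ?_ (Nat.cast_nonneg _)
        rw [neg_le_neg_iff]
        have h5 : (({x | ¬ DerLog P (∑ j, A (J x) j • b j)}.ncard : ℕ) : ℝ) ≤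
            ((Finset.univ.filter fun x => J x = i0).card : ℝ) := by
          rw [ncard_eq, ← Finset.sum_boole]
          refine Finset.sum_le_sum fun x _ => ?_
          by_cases h : J x = i0
          · rw [if_pos h]
            split_ifs <;> norm_num
          · rw [if_neg h, if_neg]
            exact fun h' => h' (hlog _ h)
        have h6 := mul_le_mul_of_nonneg_right h5 (hδ P hPX).1
        linarith)
      ha' haN e q l0
    refine h1.mono (le_of_eq ?_)
    rw [hsumν]
    simp only [ν]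
    push_cast
    rw [← hd]
    field_simp

/-- The canonical decomposition. -/
theorem decomposition [Algebra.EssFiniteType ℂ K] (htr : Algebra.trdeg ℂ K = n) (hm : 1 ≤ m)
    {X : Set (Place ℂ K)} {δ β : Place ℂ K → ℝ} (hδ : ∀ P ∈ X, 0 ≤ δ P ∧ δ P ≤ 1)
    {G : Set (K ≃ₐ[ℂ] K)} (hG : ∀ σ ∈ G, MPreserves X δ β σ)
    {s1 : MTensor K (Fin m)} (hs1 : MAdapted n X δ β s1) (hs1' : s1 ≠ 0) :
    ∃ (b : Fin n → Derivation ℂ K K) (ν : Fin n → ℕ), LinearIndependent K b ∧ Monotone ν ∧
      0 < ∑ i, ν i ∧ InvariantFlag G b (fun i => (ν i : ℝ)) ∧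
      (∀ s : MTensor K (Fin m), MAdapted n X δ β s → ∀ I : Fin m → Fin n,
        s (fun a => b (I a)) ≠ 0 → m * ∑ i, ν i ^ 2 ≤ (∑ i, ν i) * ∑ a, ν (I a)) ∧
      ∃ (c : K) (s : STensor K (Σ i : Fin n, Fin (ν i))), c ≠ 0 ∧ IsFlagTensor b ν c s ∧
        SAdapted n X δ (fun P => ((∑ i, ν i : ℕ) : ℝ) / m * β P) s := by
  obtain ⟨b, w, ρ, ν, hopt, hmono, hρ0, hνw, hpos, hflag, hcs⟩ :=
    deco_core htr hm hδ hG hs1 hs1'
  have hsumw := hopt.sum
  refine ⟨b, ν, hopt.1, ?_, hpos, ?_, ?_, hcs⟩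
  · intro i j hij
    have h1 : (ν i : ℝ) ≤ ν j := by
      rw [hνw, hνw]
      exact mul_le_mul_of_nonneg_left (hmono hij) hρ0.le
    exact_mod_cast h1
  · intro σ hσ t D D' hDD' hD
    have hset : {i | (ν i : ℝ) ≤ t} = {i | w i ≤ t / ρ} := by
      ext i
      change (ν i : ℝ) ≤ t ↔ w i ≤ t / ρ
      rw [hνw, le_div_iff₀ hρ0, mul_comm]
    rw [hset] at hD ⊢
    exact hflag σ hσ _ D D' hDD' hD
  · intro s hs I hI
    have h1 := hopt.2.1 I ⟨s, hs, hI⟩
    have h2 : ((m * ∑ i, ν i ^ 2 : ℕ) : ℝ) ≤ (((∑ i, ν i) * ∑ a, ν (I a) : ℕ) : ℝ) := by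
      push_cast
      rw [Finset.sum_congr rfl fun i _ => by rw [hνw i],
        Finset.sum_congr rfl fun i (_ : i ∈ Finset.univ) => hνw i,
        Finset.sum_congr rfl fun x (_ : x ∈ Finset.univ) => hνw (I x),
        ← Finset.mul_sum, ← Finset.mul_sum, hsumw]
      have h3 : ∑ i, (ρ * w i) ^ 2 = ρ ^ 2 * sq w := by
        unfold sq
        rw [Finset.mul_sum]
        exact Finset.sum_congr rfl fun i _ => by ring
      rw [h3]
      have h5 : 0 ≤ sq w := Finset.sum_nonneg fun i _ => sq_nonneg _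
      have h4 : 0 ≤ ρ ^ 2 * (m * sq w) := by positivity
      nlinarith [mul_le_mul_of_nonneg_left h1 h4]
    exact_mod_cast h2

end

end Pool.Agent.Zk28.TS
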