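import Pool.Agent.W602.GT.Defs

/-!
Adapted tensors of a pair, automorphisms of a pair.
-/

set_option autoImplicit false
set_option linter.unusedSectionVars false

open FF Pool.Agent.W602.GT

namespace Pool.Agent.Zk28.TS

/-- The rational contravariant tensors of degree `m` on the varieties with function field `K`: the
`K`-multilinear functions of `m` rational vector fields. -/
abbrev Tensor (K : Type) [Field K] [Algebra ℂ K] (m : ℕ) : Type :=
  MultilinearMap K (fun _ : Fin m => Derivation ℂ K K) K

variable {K : Type} [Field K] [Algebra ℂ K]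

/-- `ω` is a section of `N (K_X + Δ)`, where `X` is given by the set of its prime divisors, and `Δ` has
the coefficient `δ P` at `P`: an `N`-canonical form whose values on vector fields which are
regular at `P` have order at least `- N δ P`, for all prime divisors `P` of `X`. -/
def IsSection (n : ℕ) (X : Set (Place ℂ K))
    (δ : Place ℂ K → ℝ) (N : ℕ) (ω : (Fin n → Derivation ℂ K K) → K) : Prop :=
  IsPluri N ω ∧ ∀ P ∈ X, Divisorial n P → ∀ D : Fin n → Derivation ℂ K K,
    (∀ i, DerReg P (D i)) → ω D = 0 ∨ -(N * δ P) ≤ (P.ord (ω D) : ℝ)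

/-- The tensor `s` of degree `m` is adapted to the pair `(X, Δ)` (an orbifold tensor in the sense of
Campana): for all prime divisors `P` of `X` its value on `m` vector fields which are regular at `P` has
order at least `- r δ P`, where `r` is the number of those vector fields which are not tangent to `P`
(not logarithmic at `P`). -/
def Adapted (n : ℕ) (X : Set (Place ℂ K)) (δ : Place ℂ K → ℝ) {m : ℕ} (s : Tensor K m) : Prop :=
  ∀ P ∈ X, Divisorial n P → ∀ D : Fin m → Derivation ℂ K K, (∀ a, DerReg P (D a)) →
    s D = 0 ∨ -(({a | ¬ DerLog P (D a)}.ncard : ℝ) * δ P) ≤ (P.ord (s D) : ℝ)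

/-- The birational automorphism `σ` of `X` (an automorphism of the function field) preserves the pair
`(X, Δ)`: it maps every prime divisor of `X` to a prime divisor of `X` with the same coefficient in
`Δ`. -/
def Preserves (X : Set (Place ℂ K)) (δ : Place ℂ K → ℝ) (σ : K ≃ₐ[ℂ] K) : Prop :=
  ∀ P ∈ X, ∃ Q ∈ X, δ Q = δ P ∧ ∀ f, Q.ord (σ f) = P.ord f

/-- The vector field `E` is the image `σ D σ⁻¹` of the vector field `D` under the automorphism
`σ`. -/
def Image (σ : K ≃ₐ[ℂ] K) (D E : Derivation ℂ K K) : Prop := ∀ f, E (σ f) = σ (D f)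

/-- The weighted frame `b`, `w` of the tangent bundle defines the flag of the distributions spanned by
the `b i` with `w i ≤ t`, for real `t`. It is invariant under the automorphisms in `G`. -/
def InvariantFlag (G : Set (K ≃ₐ[ℂ] K)) {n : ℕ} (b : Fin n → Derivation ℂ K K)
    (w : Fin n → ℝ) : Prop :=
  ∀ σ ∈ G, ∀ (t : ℝ) (D E : Derivation ℂ K K), Image σ D E →
    D ∈ Submodule.span K (b '' {i | w i ≤ t}) → E ∈ Submodule.span K (b '' {i | w i ≤ t})

end Pool.Agent.Zk28.TS
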