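import Pool.Agent.Zk28.TS.Defs

/-!
Multivalued adapted tensors with values in a divisor.
-/

set_option autoImplicit false
set_option linter.unusedSectionVars false

open FF Pool.Agent.W602.GT

namespace Pool.Agent.Zk28.TS

variable {K : Type} [Field K] [Algebra ℂ K]

/-- The algebraic function `f` has order at least `r` along all prime divisors over `P`, on the
coverings where it is defined: it satisfies an equation `f ^ d + a (d - 1) f ^ (d - 1) + ... + a 0 = 0`
over `K` such that `a i` is zero or has order at least `(d - i) r` at `P`. -/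
def AlgOrd (P : Place ℂ K) (r : ℝ) (f : AlgebraicClosure K) : Prop :=
  ∃ p : Polynomial K, p.Monic ∧ Polynomial.aeval f p = 0 ∧
    ∀ i < p.natDegree, p.coeff i = 0 ∨ ((p.natDegree : ℝ) - i) * r ≤ (P.ord (p.coeff i) : ℝ)

/-- The multivalued rational tensors on the varieties with function field `K`, with arguments
indexed by `κ`: the `K`-multilinear functions of rational vector fields with values in the algebraic
functions. -/
abbrev MTensor (K : Type) [Field K] [Algebra ℂ K] (κ : Type) : Type :=
  MultilinearMap K (fun _ : κ => Derivation ℂ K K) (AlgebraicClosure K)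

/-- The rational tensors, with arguments indexed by `κ`. -/
abbrev STensor (K : Type) [Field K] [Algebra ℂ K] (κ : Type) : Type :=
  MultilinearMap K (fun _ : κ => Derivation ℂ K K) K

/-- The multivalued tensor `s` is adapted to the pair `(X, Δ)` and has values in the divisor `B`:
for all prime divisors `P` of `X` its value on vector fields which are regular at `P` has order at least
`- r δ P - β P` at `P`, where `δ P` and `β P` are the coefficients of `Δ` and `B` and `r` is the number of
those vector fields which are not tangent to `P` (not logarithmic at `P`). -/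
def MAdapted (n : ℕ) (X : Set (Place ℂ K)) (δ β : Place ℂ K → ℝ) {κ : Type}
    (s : MTensor K κ) : Prop :=
  ∀ P ∈ X, Divisorial n P → ∀ D : κ → Derivation ℂ K K, (∀ a, DerReg P (D a)) →
    AlgOrd P (-(({a | ¬ DerLog P (D a)}.ncard : ℝ) * δ P + β P)) (s D)

/-- The same for rational tensors. -/
def SAdapted (n : ℕ) (X : Set (Place ℂ K)) (δ β : Place ℂ K → ℝ) {κ : Type}
    (s : STensor K κ) : Prop :=
  ∀ P ∈ X, Divisorial n P → ∀ D : κ → Derivation ℂ K K, (∀ a, DerReg P (D a)) →
    s D = 0 ∨ -(({a | ¬ DerLog P (D a)}.ncard : ℝ) * δ P + β P) ≤ (P.ord (s D) : ℝ)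

/-- The birational automorphism `σ` of `X` (an automorphism of the function field) preserves `X`, `Δ`
and `B`: it maps every prime divisor of `X` to a prime divisor of `X` with the same coefficients. -/
def MPreserves (X : Set (Place ℂ K)) (δ β : Place ℂ K → ℝ) (σ : K ≃ₐ[ℂ] K) : Prop :=
  ∀ P ∈ X, ∃ Q ∈ X, δ Q = δ P ∧ β Q = β P ∧ ∀ f, Q.ord (σ f) = P.ord f

/-- For the frame `b` and the weights `ν i` let `θ t` be the exterior product of the forms `b i *` of the
dual frame with `ν i > t`, the determinant form of the quotient of the tangent bundle by the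
distribution spanned by the `b i` with `ν i ≤ t`. The tensor `s`, whose arguments are indexed by the
pairs `(i, t)` with `t < ν i`, is the tensor product `c θ 0 ⊗ θ 1 ⊗ θ 2 ⊗ ...`: its value on the vector
fields with the coordinates `x (i, t) j` is `c` times the product of the minors. -/
def IsFlagTensor {n : ℕ} (b : Fin n → Derivation ℂ K K) (ν : Fin n → ℕ) (c : K)
    (s : STensor K (Σ i : Fin n, Fin (ν i))) : Prop :=
  ∀ x : (Σ i : Fin n, Fin (ν i)) → Fin n → K,
    s (fun p => ∑ j, x p j • b j) = c * ∏ t ∈ Finset.range (∑ i, ν i),
      (Matrix.of fun i i' : {i : Fin n // t < ν i} => x ⟨i, ⟨t, i.2⟩⟩ i').det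

end Pool.Agent.Zk28.TS
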