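import Mathlib

/-!
Optimal weighted flags for a set of multilinear forms (after Kempf).
-/

set_option autoImplicit false
set_option linter.unusedSectionVars false

namespace Pool.Agent.Zk28.TS

section

variable {F : Type*} [Field F] {V : Type*} [AddCommGroup V] [Module F V] {W : Type*}
  [AddCommGroup W] [Module F W] {n m : ℕ}

/-- The indices of the coordinates in the frame `b` which do not vanish for all forms. -/
def supp (P : Set (MultilinearMap F (fun _ : Fin m => V) W)) (b : Fin n → V) :
    Set (Fin m → Fin n) := {I | ∃ s ∈ P, s (fun a => b (I a)) ≠ 0}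

/-- All weights of nonzero coordinates in the frame `b` are at least `1`. -/
def Good (P : Set (MultilinearMap F (fun _ : Fin m => V) W)) (b : Fin n → V)
    (w : Fin n → ℝ) : Prop := ∀ I ∈ supp P b, 1 ≤ ∑ a, w (I a)

/-- the flag -/
def fl (F : Type*) [Field F] {V : Type*} [AddCommGroup V] [Module F V] (b : Fin n → V)
    (w : Fin n → ℝ) (t : ℝ) : Submodule F V :=
  Submodule.span F (b '' {i | w i ≤ t})

theorem mem_fl (b : Fin n → V) (w : Fin n → ℝ) (i : Fin n) : b i ∈ fl F b w (w i) :=
  Submodule.subset_span ⟨i, le_refl (w i), rfl⟩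

theorem fl_mono (b : Fin n → V) (w : Fin n → ℝ) {t t' : ℝ} (h : t ≤ t') :
    fl F b w t ≤ fl F b w t' :=
  Submodule.span_mono (Set.image_mono fun _ hi => le_trans hi h)

theorem exists_coeff {b : Fin n → V} {w : Fin n → ℝ} {t : ℝ} {x : V} (hx : x ∈ fl F b w t) :
    ∃ c : Fin n → F, (∀ i, c i ≠ 0 → w i ≤ t) ∧ x = ∑ i, c i • b i := by
  classical
  unfold fl at hx
  induction hx using Submodule.span_induction with
  | mem x hx =>
    obtain ⟨i, hi, rfl⟩ := hx
    refine ⟨Pi.single i 1, fun j hj => ?_, ?_⟩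
    · by_cases h : j = i
      · rw [h]; exact hi
      · rw [Pi.single_eq_of_ne h] at hj
        exact absurd rfl hj
    · rw [Finset.sum_eq_single i]
      · rw [Pi.single_eq_same, one_smul]
      · intro j _ hj
        rw [Pi.single_eq_of_ne hj, zero_smul]
      · intro h
        exact absurd (Finset.mem_univ _) h
  | zero => exact ⟨0, fun i hi => absurd rfl hi, by simp⟩
  | add x y _ _ hx hy =>
    obtain ⟨c, hc, rfl⟩ := hx
    obtain ⟨c', hc', rfl⟩ := hy
    refine ⟨c + c', fun i hi => ?_, ?_⟩
    · by_cases h : c i = 0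
      · refine hc' i fun h' => hi ?_
        rw [Pi.add_apply, h, h', add_zero]
      · exact hc i h
    · rw [← Finset.sum_add_distrib]
      exact Finset.sum_congr rfl fun i _ => by rw [Pi.add_apply, add_smul]
  | smul a x _ hx =>
    obtain ⟨c, hc, rfl⟩ := hx
    refine ⟨fun i => a * c i, fun i hi => hc i fun h => hi ?_, ?_⟩
    · change a * c i = 0
      rw [h, mul_zero]
    · rw [Finset.smul_sum]
      exact Finset.sum_congr rfl fun i _ => by rw [mul_smul]

theorem Good.transfer {P : Set (MultilinearMap F (fun _ : Fin m => V) W)} {b c : Fin n → V}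
    {w α : Fin n → ℝ} (h : Good P b w) (hc : ∀ i, c i ∈ fl F b w (α i)) : Good P c α := by
  classical
  rintro I ⟨s, hs, hI⟩
  choose x hx hx' using fun i => exists_coeff (hc i)
  have h1 : (fun a => c (I a)) = fun a => ∑ l, x (I a) l • b l := by
    funext a
    exact hx' (I a)
  rw [h1, MultilinearMap.map_sum] at hI
  obtain ⟨L, _, hL⟩ := Finset.exists_ne_zero_of_sum_ne_zero hI
  rw [MultilinearMap.map_smul_univ] at hL
  have h2 : ∏ a, x (I a) (L a) ≠ 0 := fun h0 => hL (by rw [h0, zero_smul])
  have h3 : s (fun a => b (L a)) ≠ 0 := fun h0 => hL (by rw [h0, smul_zero])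
  refine le_trans (h L ⟨s, hs, h3⟩) (Finset.sum_le_sum fun a _ => ?_)
  exact hx (I a) (L a) (Finset.prod_ne_zero_iff.mp h2 a (Finset.mem_univ a))

end

section

variable {F : Type*} [Field F] {V : Type*} [AddCommGroup V] [Module F V]

/-- Two flags have a common adapted basis. -/
theorem common_basis : ∀ (n : ℕ) (b b' : Fin n → V) (w w' : Fin n → ℝ), LinearIndependent F b →
    Submodule.span F (Set.range b) = Submodule.span F (Set.range b') →
    ∃ (c : Fin n → V) (σ τ : Equiv.Perm (Fin n)), LinearIndependent F c ∧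
      ∀ i, c i ∈ fl F b w (w (σ i)) ∧ c i ∈ fl F b' w' (w' (τ i)) := by
  classical
  intro n
  induction n with
  | zero =>
    intro b b' w w' _ _
    exact ⟨b, 1, 1, linearIndependent_empty_type, fun i => i.elim0⟩
  | succ n ih =>
    intro b b' w w' hb hspan
    obtain ⟨i0, _, hi0⟩ := Finset.exists_max_image Finset.univ w ⟨0, Finset.mem_univ _⟩
    set p := Submodule.span F (Set.range (b ∘ i0.succAbove)) with hp
    have hnot : b i0 ∉ p := by
      have h1 := hb.notMem_span_image (s := {i | i ≠ i0}) (x := i0) (by simp)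
      intro h2
      apply h1
      refine Submodule.span_mono ?_ h2
      rintro _ ⟨k, rfl⟩
      exact ⟨i0.succAbove k, Fin.succAbove_ne _ _, rfl⟩
    obtain ⟨f, hf0, hf⟩ := Submodule.exists_le_ker_of_notMem hnot
    have hfp : ∀ x ∈ p, f x = 0 := fun x hx => hf hx
    -- the index `j0`
    have hex : (Finset.univ.filter fun j => f (b' j) ≠ 0).Nonempty := by
      by_contra hne
      rw [Finset.not_nonempty_iff_eq_empty] at hne
      have h1 : Submodule.span F (Set.range b') ≤ LinearMap.ker f := by
        refine Submodule.span_le.mpr ?_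
        rintro _ ⟨j, rfl⟩
        by_contra h2
        have h3 : j ∈ (Finset.univ.filter fun j => f (b' j) ≠ 0) :=
          Finset.mem_filter.mpr ⟨Finset.mem_univ _, h2⟩
        rw [hne] at h3
        exact absurd h3 (Finset.notMem_empty _)
      rw [← hspan] at h1
      exact hf0 (h1 (Submodule.subset_span ⟨i0, rfl⟩))
    obtain ⟨j0, hj0m, hj0⟩ := Finset.exists_min_image _ w' hex
    have hfj0 : f (b' j0) ≠ 0 := (Finset.mem_filter.mp hj0m).2
    let b'' : Fin n → V := fun k =>
      b' (j0.succAbove k) - (f (b' (j0.succAbove k)) / f (b' j0)) • b' j0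
    have hfb'' : ∀ k, f (b'' k) = 0 := by
      intro k
      change f (b' (j0.succAbove k) - (f (b' (j0.succAbove k)) / f (b' j0)) • b' j0) = 0
      rw [map_sub, map_smul, smul_eq_mul, div_mul_cancel₀ _ hfj0, sub_self]
    have hW : ∀ x ∈ Submodule.span F (Set.range b), f x = 0 → x ∈ p := by
      intro x hx hfx
      have h1 : Set.range b = insert (b i0) (Set.range (b ∘ i0.succAbove)) := by
        ext y
        constructor
        · rintro ⟨i, rfl⟩
          rcases Fin.eq_self_or_eq_succAbove i0 i with h | ⟨k, h⟩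
          · rw [h]; exact Set.mem_insert _ _
          · rw [h]; exact Set.mem_insert_of_mem _ ⟨k, rfl⟩
        · rintro (rfl | ⟨k, rfl⟩)
          · exact ⟨_, rfl⟩
          · exact ⟨_, rfl⟩
      rw [h1, Submodule.mem_span_insert] at hx
      obtain ⟨a, z, hz, rfl⟩ := hx
      rw [map_add, map_smul, hfp z hz, add_zero, smul_eq_mul, mul_eq_zero] at hfx
      rcases hfx with h | h
      · rw [h, zero_smul, zero_add]; exact hz
      · exact absurd h hf0
    have hspan' : Submodule.span F (Set.range (b ∘ i0.succAbove)) =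
        Submodule.span F (Set.range b'') := by
      apply le_antisymm
      · intro x hx
        have hx1 : x ∈ Submodule.span F (Set.range b') := by
          rw [← hspan]
          exact Submodule.span_mono (Set.range_comp_subset_range _ _) hx
        have h1 : Set.range b' ⊆ (Submodule.span F (insert (b' j0) (Set.range b'')) : Set V) := by
          rintro _ ⟨j, rfl⟩
          rcases Fin.eq_self_or_eq_succAbove j0 j with h | ⟨k, h⟩
          · rw [h]; exact Submodule.subset_span (Set.mem_insert _ _)
          · rw [h]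
            have h2 : b' (j0.succAbove k) =
                b'' k + (f (b' (j0.succAbove k)) / f (b' j0)) • b' j0 := by
              change _ = b' (j0.succAbove k) - _ + _
              rw [sub_add_cancel]
            rw [h2]
            exact Submodule.add_mem _
              (Submodule.subset_span (Set.mem_insert_of_mem _ ⟨k, rfl⟩))
              (Submodule.smul_mem _ _ (Submodule.subset_span (Set.mem_insert _ _)))
        have h3 := Submodule.span_le.mpr h1 hx1
        rw [Submodule.mem_span_insert] at h3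
        obtain ⟨a, z, hz, rfl⟩ := h3
        have h4 : f z = 0 := by
          have h5 : Submodule.span F (Set.range b'') ≤ LinearMap.ker f := by
            refine Submodule.span_le.mpr ?_
            rintro _ ⟨k, rfl⟩
            exact hfb'' k
          exact h5 hz
        have h6 := hfp _ hx
        rw [map_add, map_smul, h4, add_zero, smul_eq_mul, mul_eq_zero] at h6
        rcases h6 with h | h
        · rw [h, zero_smul, zero_add]; exact hz
        · exact absurd h hfj0
      · refine Submodule.span_le.mpr ?_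
        rintro _ ⟨k, rfl⟩
        refine hW _ ?_ (hfb'' k)
        rw [hspan]
        exact Submodule.sub_mem _ (Submodule.subset_span ⟨_, rfl⟩)
          (Submodule.smul_mem _ _ (Submodule.subset_span ⟨_, rfl⟩))
    obtain ⟨c, σ, τ, hc, hcc⟩ := ih (b ∘ i0.succAbove) b'' (w ∘ i0.succAbove)
      (w' ∘ j0.succAbove) (hb.comp _ Fin.succAbove_right_injective) hspan'
    let e : ∀ (i : Fin (n + 1)) (ρ : Equiv.Perm (Fin n)), Equiv.Perm (Fin (n + 1)) := fun i ρ =>
      (finSuccEquiv n).trans ((Equiv.optionCongr ρ).trans (finSuccEquiv' i).symm)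
    have he0 : ∀ i ρ, e i ρ 0 = i := by
      intro i ρ
      simp [e]
    have hes : ∀ i ρ k, e i ρ k.succ = i.succAbove (ρ k) := by
      intro i ρ k
      simp [e]
    refine ⟨Fin.cons (b' j0) c, e i0 σ, e j0 τ, ?_, ?_⟩
    · rw [linearIndependent_finCons]
      refine ⟨hc, fun h => hfj0 ?_⟩
      have h1 : Submodule.span F (Set.range c) ≤ LinearMap.ker f := by
        refine Submodule.span_le.mpr ?_
        rintro _ ⟨k, rfl⟩
        refine hf ?_
        have h2 := (hcc k).1
        exact Submodule.span_mono (Set.image_subset_range _ _) h2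
      exact h1 h
    · intro i
      refine Fin.cases ?_ (fun k => ?_) i
      · rw [he0, he0, Fin.cons_zero]
        refine ⟨?_, mem_fl _ _ _⟩
        have h1 : b' j0 ∈ Submodule.span F (Set.range b) := by
          rw [hspan]
          exact Submodule.subset_span ⟨_, rfl⟩
        refine Submodule.span_mono ?_ h1
        rintro _ ⟨i, rfl⟩
        exact ⟨i, hi0 i (Finset.mem_univ _), rfl⟩
      · rw [hes, hes, Fin.cons_succ]
        constructor
        · refine Submodule.span_mono ?_ (hcc k).1
          rintro _ ⟨l, hl, rfl⟩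
          exact ⟨_, hl, rfl⟩
        · refine Submodule.span_le.mpr ?_ (hcc k).2
          rintro _ ⟨l, hl, rfl⟩
          have hl' : w' (j0.succAbove l) ≤ w' (j0.succAbove (τ k)) := hl
          refine Submodule.sub_mem _ (Submodule.subset_span ⟨_, hl', rfl⟩) ?_
          by_cases h0 : f (b' (j0.succAbove l)) = 0
          · rw [h0, zero_div, zero_smul]
            exact Submodule.zero_mem _
          · refine Submodule.smul_mem _ _ (Submodule.subset_span ⟨j0, ?_, rfl⟩)
            exact le_trans (hj0 _ (Finset.mem_filter.mpr ⟨Finset.mem_univ _, h0⟩)) hl'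

end

section

variable {F : Type*} [Field F] {V : Type*} [AddCommGroup V] [Module F V] {W : Type*}
  [AddCommGroup W] [Module F W] {n m : ℕ}

theorem finrank_fl [Module.Finite F V] {b : Fin n → V} (hb : LinearIndependent F b)
    (w : Fin n → ℝ) (t : ℝ) [DecidablePred fun i => w i ≤ t] :
    Module.finrank F (fl F b w t) = (Finset.univ.filter fun i => w i ≤ t).card := by
  classical
  have h1 : b '' {i | w i ≤ t} = Set.range fun i : {i // w i ≤ t} => b i := by
    ext x
    constructor
    · rintro ⟨i, hi, rfl⟩; exact ⟨⟨i, hi⟩, rfl⟩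
    · rintro ⟨i, rfl⟩; exact ⟨i, i.2, rfl⟩
  have h2 : Module.finrank F (Submodule.span F (Set.range fun i : {i // w i ≤ t} => b i)) =
      Fintype.card {i // w i ≤ t} :=
    finrank_span_eq_card (b := fun i : {i // w i ≤ t} => b i) (hb.comp _ Subtype.val_injective)
  unfold fl
  rw [h1, h2, Fintype.card_subtype]

theorem fl_eq [Module.Finite F V] {b c : Fin n → V} {w α : Fin n → ℝ}
    (hb : LinearIndependent F b) (hc : LinearIndependent F c) (σ : Equiv.Perm (Fin n))
    (hα : ∀ i, α i = w (σ i)) (h : ∀ i, c i ∈ fl F b w (α i)) (t : ℝ) :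
    fl F c α t = fl F b w t := by
  classical
  apply Submodule.eq_of_le_of_finrank_eq
  · refine Submodule.span_le.mpr ?_
    rintro _ ⟨i, hi, rfl⟩
    exact fl_mono b w hi (h i)
  · rw [finrank_fl hc, finrank_fl hb]
    have h1 : (Finset.univ.filter fun i => w i ≤ t) =
        (Finset.univ.filter fun i => α i ≤ t).map σ.toEmbedding := by
      ext i
      simp only [Finset.mem_filter, Finset.mem_univ, true_and, Finset.mem_map_equiv, hα,
        Equiv.apply_symm_apply]
    rw [h1, Finset.card_map]

/-- the square of the length of a weight -/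
def sq (w : Fin n → ℝ) : ℝ := ∑ i, w i ^ 2

/-- Optimal weights. -/
def Opt (P : Set (MultilinearMap F (fun _ : Fin m => V) W)) (b : Fin n → V)
    (w : Fin n → ℝ) : Prop :=
  LinearIndependent F b ∧ Good P b w ∧
    ∀ (b' : Fin n → V) (w' : Fin n → ℝ), LinearIndependent F b' → Good P b' w' → sq w ≤ sq w'

/-- The optimal weighted flag is unique. -/
theorem Opt.unique [Module.Finite F V] (hn : Module.finrank F V = n)
    {P : Set (MultilinearMap F (fun _ : Fin m => V) W)}
    {b b' : Fin n → V} {w w' : Fin n → ℝ} (h : Opt P b w) (h' : Opt P b' w') (t : ℝ) :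
    fl F b w t = fl F b' w' t := by
  classical
  have hspan : ∀ c : Fin n → V, LinearIndependent F c → Submodule.span F (Set.range c) = ⊤ :=
    fun c hc => hc.span_eq_top_of_card_eq_finrank' (by rw [Fintype.card_fin, hn])
  obtain ⟨c, σ, τ, hc, hcc⟩ := common_basis n b b' w w' h.1 (by rw [hspan b h.1, hspan b' h'.1])
  set α : Fin n → ℝ := fun i => w (σ i) with hα
  set β : Fin n → ℝ := fun i => w' (τ i) with hβ
  have hsα : sq α = sq w := Equiv.sum_comp σ fun i => w i ^ 2
  have hsβ : sq β = sq w' := Equiv.sum_comp τ fun i => w' i ^ 2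
  have hgα : Good P c α := h.2.1.transfer fun i => (hcc i).1
  have hgβ : Good P c β := h'.2.1.transfer fun i => (hcc i).2
  have hww : sq w = sq w' := le_antisymm (h.2.2 b' w' h'.1 h'.2.1) (h'.2.2 b w h.1 h.2.1)
  have hgγ : Good P c fun i => (α i + β i) / 2 := by
    intro I hI
    have h1 := hgα I hI
    have h2 := hgβ I hI
    rw [← Finset.sum_div, Finset.sum_add_distrib]
    linarith
  have h1 := h.2.2 c _ hc hgγ
  have h2 : sq (fun i => (α i + β i) / 2) =
      (sq α + sq β) / 2 - (∑ i, (α i - β i) ^ 2) / 4 := by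
    unfold sq
    rw [← Finset.sum_add_distrib, Finset.sum_div, Finset.sum_div, ← Finset.sum_sub_distrib]
    exact Finset.sum_congr rfl fun i _ => by ring
  have h3 : ∑ i, (α i - β i) ^ 2 = 0 := by
    apply le_antisymm
    · rw [h2, hsα, hsβ, ← hww] at h1
      linarith
    · exact Finset.sum_nonneg fun i _ => sq_nonneg _
  have h4 : α = β := by
    funext i
    have h5 := (Finset.sum_eq_zero_iff_of_nonneg fun i _ => sq_nonneg (α i - β i)).mp h3 i
      (Finset.mem_univ i)
    exact sub_eq_zero.mp (pow_eq_zero_iff (two_ne_zero)|>.mp h5)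
  rw [← fl_eq h.1 hc σ (fun _ => rfl) (fun i => (hcc i).1) t,
    ← fl_eq h'.1 hc τ (fun _ => rfl) (fun i => (hcc i).2) t]
  change fl F c α t = fl F c β t
  rw [h4]

/-- The optimal weighted flag is invariant under the symmetries of the set of forms. -/
theorem Opt.invariant [Module.Finite F V] (hn : Module.finrank F V = n)
    {P : Set (MultilinearMap F (fun _ : Fin m => V) W)}
    {b : Fin n → V} {w : Fin n → ℝ} (h : Opt P b w) (σ : F ≃+* F) (T : V → V)
    (hadd : ∀ x y, T (x + y) = T x + T y) (hsmul : ∀ (a : F) x, T (a • x) = σ a • T x)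
    (hinj : ∀ x, T x = 0 → x = 0)
    (hT : ∀ s ∈ P, ∀ u : Fin m → V, s (fun a => T (u a)) ≠ 0 → ∃ s' ∈ P, s' u ≠ 0)
    (t : ℝ) {x : V} (hx : x ∈ fl F b w t) : T x ∈ fl F b w t := by
  classical
  have hT0 : T 0 = 0 := by
    have := hsmul 0 0
    rwa [zero_smul, map_zero, zero_smul] at this
  have hsum : ∀ (c : Fin n → F) (u : Fin n → V) (A : Finset (Fin n)),
      T (∑ i ∈ A, c i • u i) = ∑ i ∈ A, σ (c i) • T (u i) := by
    intro c u A
    induction A using Finset.induction_on with
    | empty => simpa using hT0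
    | insert i A hi ih => rw [Finset.sum_insert hi, Finset.sum_insert hi, hadd, hsmul, ih]
  have hb' : LinearIndependent F fun i => T (b i) := by
    rw [Fintype.linearIndependent_iff]
    intro g hg i
    have h1 : T (∑ i, σ.symm (g i) • b i) = 0 := by
      rw [hsum]
      simpa using hg
    have h2 := (Fintype.linearIndependent_iff.mp h.1) _ (hinj _ h1) i
    simpa using h2
  have hg : Good P (fun i => T (b i)) w := by
    rintro I ⟨s, hs, hI⟩
    obtain ⟨s', hs', h1⟩ := hT s hs (fun a => b (I a)) hI
    exact h.2.1 I ⟨s', hs', h1⟩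
  have h' : Opt P (fun i => T (b i)) w := ⟨hb', hg, h.2.2⟩
  rw [h.unique hn h' t]
  obtain ⟨c, hc, rfl⟩ := exists_coeff hx
  rw [hsum]
  refine Submodule.sum_mem _ fun i _ => ?_
  by_cases h0 : c i = 0
  · rw [h0, map_zero, zero_smul]
    exact Submodule.zero_mem _
  · exact Submodule.smul_mem _ _ (Submodule.subset_span ⟨i, hc i h0, rfl⟩)

/-- Optimal weights exist. -/
theorem exists_opt (hm : 1 ≤ m) (P : Set (MultilinearMap F (fun _ : Fin m => V) W))
    {b0 : Fin n → V} (hb0 : LinearIndependent F b0) :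
    ∃ (b : Fin n → V) (w : Fin n → ℝ), Opt P b w := by
  classical
  -- the optimal weight for one pattern
  have hpat : ∀ A : Set (Fin m → Fin n), ∃ w : Fin n → ℝ, (∀ I ∈ A, 1 ≤ ∑ a, w (I a)) ∧
      ∀ w' : Fin n → ℝ, (∀ I ∈ A, 1 ≤ ∑ a, w' (I a)) → sq w ≤ sq w' := by
    intro A
    let w0 : Fin n → ℝ := fun _ => 1
    have hw0 : ∀ I ∈ A, 1 ≤ ∑ a, w0 (I a) := by
      intro I _
      simp only [w0, Finset.sum_const, Finset.card_univ, Fintype.card_fin, nsmul_eq_mul, mul_one]
      exact_mod_cast hm
    have hcont : Continuous fun w : Fin n → ℝ => sq w := by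
      unfold sq
      fun_prop
    let C : Set (Fin n → ℝ) := {w | (∀ I ∈ A, 1 ≤ ∑ a, w (I a)) ∧ sq w ≤ sq w0}
    have hclosed : IsClosed C := by
      apply IsClosed.inter
      · have h1 : {w : Fin n → ℝ | ∀ I ∈ A, 1 ≤ ∑ a, w (I a)} =
            ⋂ I ∈ A, {w : Fin n → ℝ | 1 ≤ ∑ a, w (I a)} := by
          ext w; simp
        change IsClosed {w : Fin n → ℝ | ∀ I ∈ A, 1 ≤ ∑ a, w (I a)}
        rw [h1]
        refine isClosed_biInter fun I _ => isClosed_le continuous_const ?_
        fun_prop
      · exact isClosed_le hcont continuous_const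
    have hbdd : Bornology.IsBounded C := by
      rw [isBounded_iff_forall_norm_le]
      refine ⟨Real.sqrt (sq w0), fun w hw => ?_⟩
      rw [pi_norm_le_iff_of_nonneg (Real.sqrt_nonneg _)]
      intro i
      rw [Real.norm_eq_abs]
      apply Real.abs_le_sqrt
      refine le_trans ?_ hw.2
      exact Finset.single_le_sum (f := fun i => w i ^ 2) (fun i _ => sq_nonneg _)
        (Finset.mem_univ i)
    obtain ⟨w, hw, hmin⟩ := (Metric.isCompact_of_isClosed_isBounded hclosed hbdd).exists_isMinOn
      ⟨w0, hw0, le_rfl⟩ hcont.continuousOn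
    refine ⟨w, hw.1, fun w' hw' => ?_⟩
    by_cases h : sq w' ≤ sq w0
    · exact hmin ⟨hw', h⟩
    · exact le_trans hw.2 (not_le.mp h).le
  choose ws hws hws' using hpat
  have : Nonempty {b : Fin n → V // LinearIndependent F b} := ⟨⟨b0, hb0⟩⟩
  -- finitely many patterns
  let Q : Type := {A : Set (Fin m → Fin n) // ∃ b : Fin n → V, LinearIndependent F b ∧ supp P b = A}
  have : Nonempty Q := ⟨⟨supp P b0, b0, hb0, rfl⟩⟩
  have : Finite Q := Subtype.finite
  obtain ⟨A, hA⟩ := Finite.exists_min fun A : Q => sq (ws A.1)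
  obtain ⟨b, hb, hbA⟩ := A.2
  refine ⟨b, ws A.1, hb, fun I hI => hws A.1 I (hbA ▸ hI), fun b' w' hb' hg' => ?_⟩
  refine le_trans (hA ⟨supp P b', b', hb', rfl⟩) ?_
  exact hws' _ w' hg'

/-- A destabilizing weight gives a short weight. -/
theorem exists_short (hm : 1 ≤ m) {P : Set (MultilinearMap F (fun _ : Fin m => V) W)}
    {b : Fin n → V} {y : Fin n → ℝ} (hy : 0 < ∑ i, y i)
    (h : ∀ I ∈ supp P b, ∑ a, y (I a) ≤ 0) :
    ∃ w : Fin n → ℝ, Good P b w ∧ sq w * m ^ 2 < n := by
  have hm' : (0 : ℝ) < m := by exact_mod_cast hm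
  -- w = (1 - ε y) / m
  obtain ⟨ε, hε, hε'⟩ : ∃ ε : ℝ, 0 < ε ∧ ε * sq y < 2 * ∑ i, y i := by
    have h1 : 0 ≤ sq y := Finset.sum_nonneg fun i _ => sq_nonneg _
    refine ⟨(∑ i, y i) / (sq y + 1), by positivity, ?_⟩
    rw [div_mul_eq_mul_div, div_lt_iff₀ (by positivity)]
    nlinarith
  refine ⟨fun i => (1 - ε * y i) / m, fun I hI => ?_, ?_⟩
  · rw [← Finset.sum_div, Finset.sum_sub_distrib, ← Finset.mul_sum]
    simp only [Finset.sum_const, Finset.card_univ, Fintype.card_fin, nsmul_eq_mul, mul_one]
    rw [le_div_iff₀ hm', one_mul]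
    nlinarith [h I hI, mul_nonneg hε.le (neg_nonneg.mpr (h I hI))]
  · have h1 : sq (fun i => (1 - ε * y i) / (m : ℝ)) * m ^ 2 =
        n - ε * (2 * ∑ i, y i) + ε * (ε * sq y) := by
      unfold sq
      rw [Finset.sum_mul]
      have h2 : ∀ i, ((1 - ε * y i) / (m : ℝ)) ^ 2 * m ^ 2 =
          1 - ε * (2 * y i) + ε * (ε * y i ^ 2) := by
        intro i
        rw [div_pow, div_mul_cancel₀ _ (by positivity)]
        ring
      rw [Finset.sum_congr rfl fun i _ => h2 i, Finset.sum_add_distrib, Finset.sum_sub_distrib,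
        ← Finset.mul_sum, ← Finset.mul_sum, ← Finset.mul_sum, ← Finset.mul_sum]
      simp
    rw [h1]
    nlinarith

/-- A short weight gives a destabilizing weight with sum zero. -/
theorem short_destab {P : Set (MultilinearMap F (fun _ : Fin m => V) W)}
    {b : Fin n → V} {w : Fin n → ℝ} (hn : 1 ≤ n) (hg : Good P b w) (hw : sq w * m ^ 2 < n) :
    ∀ I ∈ supp P b, 0 < ∑ a, (w (I a) - (∑ i, w i) / n) := by
  intro I hI
  have hn' : (0 : ℝ) < n := by exact_mod_cast hn
  rw [Finset.sum_sub_distrib]
  simp only [Finset.sum_const, Finset.card_univ, Fintype.card_fin, nsmul_eq_mul]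
  have h1 := hg I hI
  have h2 : (∑ i, w i) ^ 2 ≤ n * sq w := by
    have := sq_sum_le_card_mul_sum_sq (s := Finset.univ) (f := w)
    simpa [sq] using this
  have h3 : (m * ((∑ i, w i) / n)) ^ 2 < 1 := by
    rw [mul_pow, div_pow, mul_div_assoc', div_lt_one (by positivity)]
    nlinarith [sq_nonneg (m : ℝ)]
  have h4 : m * ((∑ i, w i) / n) < 1 := by
    by_contra hge
    push Not at hge
    nlinarith
  linarith

end

end Pool.Agent.Zk28.TS
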