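import Pool.Agent.Zk28.TS.Clos
import Pool.Agent.Zk28.TS.Kempf

/-!
Rationality of the optimal weighted flag: if all relative invariants of positive weight vanish at a
set of tensors over `K`, then there is a destabilizing weighted flag over `K`.
-/

set_option autoImplicit false
set_option linter.unusedSectionVars false

namespace Pool.Agent.Zk28.TS

section

variable {R : Type*} [CommRing R] {n m : ℕ}

/-- The multilinear form with the given coordinates. -/
noncomputable def tm (T : (Fin m → Fin n) → R) : MultilinearMap R (fun _ : Fin m => Fin n → R) R :=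
  ∑ J : Fin m → Fin n, T J • (MultilinearMap.mkPiAlgebra R (Fin m) R).compLinearMap
    (fun a => LinearMap.proj (J a))

theorem tm_apply (T : (Fin m → Fin n) → R) (u : Fin m → Fin n → R) :
    tm T u = ∑ J : Fin m → Fin n, (∏ a, u a (J a)) * T J := by
  unfold tm
  rw [_root_.sum_apply]
  refine Finset.sum_congr rfl fun J _ => ?_
  rw [_root_.smul_apply, MultilinearMap.compLinearMap_apply,
    MultilinearMap.mkPiAlgebra_apply, smul_eq_mul, mul_comm]
  rfl

theorem tm_frame (T : (Fin m → Fin n) → R) (b : Fin n → Fin n → R) (I : Fin m → Fin n) :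
    tm T (fun a => b (I a)) = ta (Matrix.of fun j i => b i j) T I := by
  rw [tm_apply]
  rfl

end

section

variable {K F : Type*} [Field K] [Field F] [Algebra K F] [IsGalois K F] {n : ℕ}

/-- Galois descent for subspaces. -/
theorem descent (W : Submodule F (Fin n → F))
    (hW : ∀ σ : F ≃ₐ[K] F, ∀ x ∈ W, (fun i => σ (x i)) ∈ W) :
    ∀ x ∈ W, x ∈ Submodule.span F
      {y : Fin n → F | y ∈ W ∧ ∃ u : Fin n → K, y = fun i => algebraMap K F (u i)} := by
  classical
  let N : (Fin n → F) → ℕ := fun x => (Finset.univ.filter fun i => x i ≠ 0).card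
  suffices H : ∀ (k : ℕ) (x : Fin n → F), N x = k → x ∈ W → x ∈ Submodule.span F
      {y : Fin n → F | y ∈ W ∧ ∃ u : Fin n → K, y = fun i => algebraMap K F (u i)} from
    fun x hx => H _ x rfl hx
  intro k
  induction k using Nat.strong_induction_on with
  | _ k ih =>
    intro x hxk hx
    by_cases hx0 : x = 0
    · rw [hx0]; exact Submodule.zero_mem _
    -- a vector of minimal support
    let Q : ℕ → Prop := fun r => ∃ z ∈ W, z ≠ 0 ∧ (∀ i, z i ≠ 0 → x i ≠ 0) ∧ N z = r
    have hQ : ∃ r, Q r := ⟨N x, x, hx, hx0, fun i hi => hi, rfl⟩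
    obtain ⟨z, hz, hz0, hzx, hzr⟩ := Nat.find_spec hQ
    have hmin : ∀ z' ∈ W, (∀ i, z' i ≠ 0 → x i ≠ 0) → N z' < N z → z' = 0 := by
      intro z' hz' h1 h2
      by_contra h3
      rw [hzr] at h2
      exact Nat.find_min hQ h2 ⟨z', hz', h3, h1, rfl⟩
    obtain ⟨i0, hi0⟩ := Function.ne_iff.mp hz0
    have hi0' : z i0 ≠ 0 := hi0
    let z1 : Fin n → F := (z i0)⁻¹ • z
    have hz1 : z1 ∈ W := Submodule.smul_mem _ _ hz
    have hz1i : z1 i0 = 1 := inv_mul_cancel₀ hi0'
    have hz1s : ∀ i, z1 i ≠ 0 ↔ z i ≠ 0 := by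
      intro i
      change (z i0)⁻¹ * z i ≠ 0 ↔ _
      simp [hi0']
    have hfix : ∀ (σ : F ≃ₐ[K] F) i, σ (z1 i) = z1 i := by
      intro σ i
      have h1 : (fun i => σ (z1 i)) - z1 = 0 := by
        refine hmin _ (Submodule.sub_mem _ (hW σ z1 hz1) hz1) (fun i hi => ?_) ?_
        · refine hzx i ((hz1s i).mp fun h0 => hi ?_)
          change σ (z1 i) - z1 i = 0
          rw [h0, map_zero, sub_zero]
        · refine Finset.card_lt_card ⟨fun i hi => ?_, fun hle => ?_⟩
          · refine Finset.mem_filter.mpr ⟨Finset.mem_univ _, ?_⟩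
            refine (hz1s i).mp fun h0 => (Finset.mem_filter.mp hi).2 ?_
            change σ (z1 i) - z1 i = 0
            rw [h0, map_zero, sub_zero]
          · have h2 : i0 ∈ (Finset.univ.filter fun i => ((fun i => σ (z1 i)) - z1) i ≠ 0) :=
              hle (Finset.mem_filter.mpr ⟨Finset.mem_univ _, hi0'⟩)
            refine (Finset.mem_filter.mp h2).2 ?_
            change σ (z1 i0) - z1 i0 = 0
            rw [hz1i, map_one, sub_self]
      have h2 := congrFun h1 i
      exact sub_eq_zero.mp h2
    have hrat : ∃ u : Fin n → K, z1 = fun i => algebraMap K F (u i) := by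
      choose u hu using fun i =>
        (InfiniteGalois.mem_range_algebraMap_iff_fixed (z1 i)).mpr fun σ => hfix σ i
      exact ⟨u, funext fun i => (hu i).symm⟩
    have h1 : x = (x - x i0 • z1) + x i0 • z1 := by rw [sub_add_cancel]
    rw [h1]
    refine Submodule.add_mem _ (ih _ ?_ (x - x i0 • z1) rfl
      (Submodule.sub_mem _ hx (Submodule.smul_mem _ _ hz1)))
      (Submodule.smul_mem _ _ (Submodule.subset_span ⟨hz1, hrat⟩))
    rw [← hxk]
    refine Finset.card_lt_card ⟨fun i hi => ?_, fun hle => ?_⟩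
    · refine Finset.mem_filter.mpr ⟨Finset.mem_univ _, fun h0 => (Finset.mem_filter.mp hi).2 ?_⟩
      have h2 : z1 i = 0 := by
        by_contra h3
        exact hzx i ((hz1s i).mp h3) h0
      change x i - x i0 * z1 i = 0
      rw [h0, h2, mul_zero, sub_zero]
    · have h2 : i0 ∈ (Finset.univ.filter fun i => (x - x i0 • z1) i ≠ 0) :=
        hle (Finset.mem_filter.mpr ⟨Finset.mem_univ _, hzx i0 hi0'⟩)
      refine (Finset.mem_filter.mp h2).2 ?_
      change x i0 - x i0 * z1 i0 = 0
      rw [hz1i, mul_one, sub_self]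

end

section

variable {K : Type} [Field K] [CharZero K] {n m : ℕ} {S : Type}

/-- A frame over `K` in the subspaces of an optimal flag. -/
theorem exists_rat {F : Type} [Field F] [Algebra K F] [IsGalois K F] {b : Fin n → Fin n → F}
    {w : Fin n → ℝ} (hb : LinearIndependent F b)
    (hfl : ∀ (σ : F ≃ₐ[K] F) (t : ℝ), ∀ x ∈ fl F b w t, (fun i => σ (x i)) ∈ fl F b w t) :
    ∃ c : Fin n → Fin n → K, LinearIndependent K c ∧
      (∀ i, (fun j => algebraMap K F (c i j)) ∈ fl F b w (w i)) ∧
      LinearIndependent F (fun i => fun j => algebraMap K F (c i j)) := by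
  classical
  have h1 : ∀ i, ∃ (A : Finset (Fin n → K)) (x : (Fin n → K) → F),
      (∀ u ∈ A, (fun j => algebraMap K F (u j)) ∈ fl F b w (w i)) ∧
        b i = ∑ u ∈ A, x u • (fun j => algebraMap K F (u j)) := by
    intro i
    have h2 := descent (K := K) (fl F b w (w i)) (fun σ x hx => hfl σ _ x hx) (b i) (mem_fl b w i)
    generalize b i = y0 at h2
    induction h2 using Submodule.span_induction with
    | mem y hy =>
      obtain ⟨hy1, u, rfl⟩ := hy
      exact ⟨{u}, fun _ => 1, by simpa using hy1, by simp⟩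
    | zero => exact ⟨∅, fun _ => 0, by simp, by simp⟩
    | add y y' _ _ hy hy' =>
      obtain ⟨A, x, hA, hx⟩ := hy
      obtain ⟨A', x', hA', hx'⟩ := hy'
      refine ⟨A ∪ A', fun u => (if u ∈ A then x u else 0) + (if u ∈ A' then x' u else 0),
        fun u hu => ?_, ?_⟩
      · rcases Finset.mem_union.mp hu with h | h
        · exact hA u h
        · exact hA' u h
      · rw [hx, hx']
        simp_rw [add_smul]
        rw [Finset.sum_add_distrib]
        congr 1
        · rw [← Finset.sum_subset Finset.subset_union_left]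
          · exact Finset.sum_congr rfl fun u hu => by rw [if_pos hu]
          · intro u _ hu
            rw [if_neg hu, zero_smul]
        · rw [← Finset.sum_subset Finset.subset_union_right]
          · exact Finset.sum_congr rfl fun u hu => by rw [if_pos hu]
          · intro u _ hu
            rw [if_neg hu, zero_smul]
    | smul a y _ hy =>
      obtain ⟨A, x, hA, hx⟩ := hy
      refine ⟨A, fun u => a * x u, hA, ?_⟩
      rw [hx, Finset.smul_sum]
      exact Finset.sum_congr rfl fun u _ => by rw [mul_smul]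
  choose A x hA hx using h1
  -- the polynomial
  let M : Matrix (Fin n) (Fin n) (MvPolynomial (Fin n × (Fin n → K)) K) :=
    Matrix.of fun i j => ∑ u ∈ A i, MvPolynomial.X (i, u) * MvPolynomial.C (u j)
  have hM : M.det ≠ 0 := by
    intro h0
    have h2 := congrArg (MvPolynomial.aeval (fun p : Fin n × (Fin n → K) => x p.1 p.2)) h0
    rw [map_zero, AlgHom.map_det] at h2
    have h3 : (MvPolynomial.aeval (fun p : Fin n × (Fin n → K) => x p.1 p.2) :
        MvPolynomial (Fin n × (Fin n → K)) K →ₐ[K] F).mapMatrix M = Matrix.of b := by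
      ext i j
      change (MvPolynomial.aeval fun p : Fin n × (Fin n → K) => x p.1 p.2)
        (∑ u ∈ A i, MvPolynomial.X (i, u) * MvPolynomial.C (u j)) = b i j
      rw [map_sum, hx i, Finset.sum_apply]
      refine Finset.sum_congr rfl fun u _ => ?_
      rw [map_mul, MvPolynomial.aeval_X, MvPolynomial.aeval_C]
      rfl
    rw [h3] at h2
    have h4 : IsUnit (Matrix.of b) := Matrix.linearIndependent_rows_iff_isUnit.mp hb
    exact ((Matrix.isUnit_iff_isUnit_det _).mp h4).ne_zero h2
  obtain ⟨z, hz⟩ : ∃ z : Fin n × (Fin n → K) → K, MvPolynomial.eval z M.det ≠ 0 := by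
    by_contra hno
    push Not at hno
    exact hM (MvPolynomial.funext fun z => by rw [hno z, map_zero])
  let c : Fin n → Fin n → K := fun i j => ∑ u ∈ A i, z (i, u) * u j
  have hc : (Matrix.of c).det ≠ 0 := by
    rw [RingHom.map_det] at hz
    have h3 : (MvPolynomial.eval z).mapMatrix M = Matrix.of c := by
      ext i j
      change MvPolynomial.eval z
        (∑ u ∈ A i, MvPolynomial.X (i, u) * MvPolynomial.C (u j)) = c i j
      rw [map_sum]
      refine Finset.sum_congr rfl fun u _ => ?_
      rw [map_mul, MvPolynomial.eval_X, MvPolynomial.eval_C]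
    rwa [h3] at hz
  have hcF : (Matrix.of fun i j => algebraMap K F (c i j)).det ≠ 0 := by
    have h3 : (Matrix.of fun i j => algebraMap K F (c i j)) = (Matrix.of c).map (algebraMap K F) :=
      rfl
    rw [h3, ← RingHom.mapMatrix_apply, ← RingHom.map_det]
    exact (map_ne_zero _).mpr hc
  refine ⟨c, ?_, fun i => ?_, ?_⟩
  · exact Matrix.linearIndependent_rows_of_det_ne_zero (A := Matrix.of c) hc
  · have h3 : (fun j => algebraMap K F (c i j)) =
        ∑ u ∈ A i, algebraMap K F (z (i, u)) • (fun j => algebraMap K F (u j)) := by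
      funext j
      rw [Finset.sum_apply]
      change algebraMap K F (∑ u ∈ A i, z (i, u) * u j) = _
      rw [map_sum]
      exact Finset.sum_congr rfl fun u _ => by rw [map_mul]; rfl
    rw [h3]
    exact Submodule.sum_mem _ fun u hu => Submodule.smul_mem _ _ (hA i u hu)
  · exact Matrix.linearIndependent_rows_of_det_ne_zero
      (A := Matrix.of fun i j => algebraMap K F (c i j)) hcF

/-- If all relative invariants of positive weight vanish, there is a short weight over `K`. -/
theorem exists_short_rat (hm : 1 ≤ m) (v : S → (Fin m → Fin n) → K)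
    (h : ∀ N, 1 ≤ N → ∀ (q : ℕ) (l : Fin q → S × (Fin m → Fin n)), Qv v N q l = 0) :
    ∃ (c : Fin n → Fin n → K) (w : Fin n → ℝ), LinearIndependent K c ∧
      Good (Set.range fun s => tm (v s)) c w ∧ sq w * m ^ 2 < n := by
  classical
  obtain ⟨κ, _, ψ, g, y, hg, hy0, hy⟩ := unstable_res v h
  let F := AlgebraicClosure K
  obtain ⟨g', hg', hsupp⟩ := exists_closed F v ψ g hg
  let P : Set (MultilinearMap F (fun _ : Fin m => Fin n → F) F) :=
    Set.range fun s => tm fun J => algebraMap K F (v s J)
  let b : Fin n → Fin n → F := fun i j => g' j i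
  have hb : LinearIndependent F b := by
    have h1 : (Matrix.of b).det ≠ 0 := by
      have : Matrix.of b = g'.transpose := rfl
      rw [this, Matrix.det_transpose]
      exact hg'
    exact Matrix.linearIndependent_rows_of_det_ne_zero (A := Matrix.of b) h1
  have hbs : ∀ I ∈ supp P b, ∑ a, ((y (I a) : ℚ) : ℝ) ≤ 0 := by
    rintro I ⟨_, ⟨s, rfl⟩, hI⟩
    have h1 : ta g' (fun J => algebraMap K F (v s J)) I ≠ 0 := by
      have h2 := tm_frame (fun J => algebraMap K F (v s J)) b I
      intro h0
      apply hI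
      change tm (fun J => algebraMap K F (v s J)) (fun a => b (I a)) = 0
      rw [h2]
      exact h0
    obtain ⟨s', hs'⟩ := hsupp s I h1
    have h2 := hy s' I hs'
    exact_mod_cast h2
  obtain ⟨w1, hw1, hw1'⟩ := exists_short (P := P) (b := b) hm (y := fun i => ((y i : ℚ) : ℝ))
    (by exact_mod_cast hy0) hbs
  obtain ⟨b2, w, hopt⟩ := exists_opt hm P hb
  have hw : sq w * m ^ 2 < n :=
    lt_of_le_of_lt (mul_le_mul_of_nonneg_right (hopt.2.2 b w1 hb hw1) (sq_nonneg _)) hw1'
  have hfl : ∀ (σ : F ≃ₐ[K] F) (t : ℝ), ∀ x ∈ fl F b2 w t, (fun i => σ (x i)) ∈ fl F b2 w t := by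
    intro σ t x hx
    refine hopt.invariant (by simp) σ.toRingEquiv (fun x i => σ (x i)) (fun x y => ?_)
      (fun a x => ?_) (fun x hx => ?_) ?_ t hx
    · funext i; exact map_add σ _ _
    · funext i; exact map_mul σ _ _
    · funext i
      have := congrFun hx i
      exact (map_eq_zero σ).mp this
    · rintro _ ⟨s, rfl⟩ u hu
      refine ⟨_, ⟨s, rfl⟩, fun h0 => hu ?_⟩
      have h1 : tm (fun J => algebraMap K F (v s J)) (fun a i => σ (u a i)) =
          σ (tm (fun J => algebraMap K F (v s J)) u) := by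
        rw [tm_apply, tm_apply, map_sum]
        refine Finset.sum_congr rfl fun J _ => ?_
        rw [map_mul, map_prod, AlgEquiv.commutes]
      change tm (fun J => algebraMap K F (v s J)) (fun a i => σ (u a i)) = 0
      rw [h1]
      change σ ((fun s => tm fun J => algebraMap K F (v s J)) s u) = 0
      rw [h0, map_zero]
  obtain ⟨c, hc, hcfl, hcF⟩ := exists_rat (K := K) hopt.1 hfl
  refine ⟨c, w, hc, ?_, hw⟩
  have h3 : Good P (fun i j => algebraMap K F (c i j)) w := hopt.2.1.transfer hcfl
  rintro I ⟨_, ⟨s, rfl⟩, hI⟩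
  refine h3 I ⟨_, ⟨s, rfl⟩, fun h0 => hI ?_⟩
  have h4 : algebraMap K F (tm (v s) fun a => c (I a)) =
      tm (fun J => algebraMap K F (v s J)) fun a i => algebraMap K F (c (I a) i) := by
    rw [tm_apply, tm_apply, map_sum]
    refine Finset.sum_congr rfl fun J _ => ?_
    rw [map_mul, map_prod]
  have h5 : algebraMap K F (tm (v s) fun a => c (I a)) = 0 := by
    rw [h4]
    exact h0
  exact (map_eq_zero _).mp h5

end

end Pool.Agent.Zk28.TS
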