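import Pool.Agent.Zk28.TS.Frame
import Pool.Agent.Zk28.TS.Rat

/-!
Nonvanishing and semistable adapted tensors.
-/

set_option autoImplicit false
set_option linter.unusedSectionVars false

open FF Pool.Agent.W602.GT

namespace Pool.Agent.Zk28.TS

variable {K : Type} [Field K] [Algebra ℂ K]

/-- The conjugate of a vector field. -/
noncomputable def conj (σ : K ≃ₐ[ℂ] K) (D : Derivation ℂ K K) : Derivation ℂ K K :=
  Derivation.mk' ((σ.toLinearMap.comp (D : K →ₗ[ℂ] K)).comp σ.symm.toLinearMap) fun a b => by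
    change σ (D (σ.symm (a * b))) = a * σ (D (σ.symm b)) + b * σ (D (σ.symm a))
    rw [map_mul, Derivation.leibniz, map_add, smul_eq_mul, smul_eq_mul, map_mul, map_mul,
      AlgEquiv.apply_symm_apply, AlgEquiv.apply_symm_apply]

theorem conj_apply (σ : K ≃ₐ[ℂ] K) (D : Derivation ℂ K K) (f : K) :
    conj σ D f = σ (D (σ.symm f)) := rfl

theorem conj_add (σ : K ≃ₐ[ℂ] K) (D D' : Derivation ℂ K K) :
    conj σ (D + D') = conj σ D + conj σ D' := by
  ext f
  simp [conj_apply]

theorem conj_smul (σ : K ≃ₐ[ℂ] K) (a : K) (D : Derivation ℂ K K) :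
    conj σ (a • D) = σ a • conj σ D := by
  ext f
  simp [conj_apply]

theorem conj_image (σ : K ≃ₐ[ℂ] K) (D : Derivation ℂ K K) : Image σ D (conj σ D) := by
  intro f
  rw [conj_apply, AlgEquiv.symm_apply_apply]

theorem image_eq {σ : K ≃ₐ[ℂ] K} {D E : Derivation ℂ K K} (h : Image σ D E) :
    E = conj σ D := by
  ext f
  rw [conj_apply, ← h, AlgEquiv.apply_symm_apply]

theorem conj_inj {σ : K ≃ₐ[ℂ] K} {D : Derivation ℂ K K} (h : conj σ D = 0) : D = 0 := by
  ext f
  have h1 : conj σ D (σ f) = 0 := by rw [h]; rfl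
  rw [conj_apply, AlgEquiv.symm_apply_apply] at h1
  exact (map_eq_zero σ).mp h1

/-- The conjugate of a tensor. -/
noncomputable def pull (σ : K ≃ₐ[ℂ] K) {m : ℕ} (s : Tensor K m) : Tensor K m where
  toFun D := σ.symm (s fun a => conj σ (D a))
  map_update_add' D i x y := by
    have h : ∀ z, (fun a => conj σ (Function.update D i z a)) =
        Function.update (fun a => conj σ (D a)) i (conj σ z) := by
      intro z
      funext a
      by_cases ha : a = i
      · subst ha; simp
      · simp [Function.update_of_ne ha]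
    rw [h, h, h, conj_add, MultilinearMap.map_update_add, map_add]
  map_update_smul' D i c x := by
    have h : ∀ z, (fun a => conj σ (Function.update D i z a)) =
        Function.update (fun a => conj σ (D a)) i (conj σ z) := by
      intro z
      funext a
      by_cases ha : a = i
      · subst ha; simp
      · simp [Function.update_of_ne ha]
    rw [h, h, conj_smul, MultilinearMap.map_update_smul, smul_eq_mul, map_mul,
      AlgEquiv.symm_apply_apply, smul_eq_mul]

theorem pull_apply (σ : K ≃ₐ[ℂ] K) {m : ℕ} (s : Tensor K m) (D : Fin m → Derivation ℂ K K) :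
    pull σ s D = σ.symm (s fun a => conj σ (D a)) := rfl

/-- Automorphisms act on adapted tensors. -/
theorem pull_adapted {n : ℕ} {X : Set (Place ℂ K)} {δ : Place ℂ K → ℝ} {σ : K ≃ₐ[ℂ] K}
    (hσ : Preserves X δ σ) {m : ℕ} {s : Tensor K m} (hs : Adapted n X δ s) :
    Adapted n X δ (pull σ s) := by
  intro P hPX hP D hD
  obtain ⟨Q, hQX, hδ, hQ⟩ := hσ P hPX
  have hreg : ∀ f, Q.Reg (σ f) ↔ P.Reg f := by
    intro f
    unfold Place.Reg
    rw [hQ f]
    constructor
    · rintro (h | h)
      · exact Or.inl ((map_eq_zero σ).mp h)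
      · exact Or.inr h
    · rintro (h | h)
      · exact Or.inl (by rw [h, map_zero])
      · exact Or.inr h
  have hQd : Divisorial n Q := by
    obtain ⟨u, hu⟩ := hP
    refine ⟨fun i => σ (u i), fun F hF => ?_⟩
    have h1 : MvPolynomial.aeval (fun i => σ (u i)) F = σ (MvPolynomial.aeval u F) := by
      have h2 := MvPolynomial.comp_aeval_apply u σ.toAlgHom F
      exact h2.symm
    rw [h1, hQ]
    exact ⟨(map_ne_zero σ).mpr (hu F hF).1, (hu F hF).2⟩
  have hD' : ∀ a, DerReg Q (conj σ (D a)) := by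
    intro a f hf
    rw [conj_apply, hreg]
    apply hD a
    rw [← hreg, AlgEquiv.apply_symm_apply]
    exact hf
  have hlog : ∀ a, DerLog Q (conj σ (D a)) ↔ DerLog P (D a) := by
    intro a
    constructor
    · intro h f
      rw [← hreg]
      have h1 := h (σ f)
      rw [conj_apply, AlgEquiv.symm_apply_apply, ← map_div₀] at h1
      exact h1
    · intro h f
      have h1 := h (σ.symm f)
      rw [← hreg, map_div₀, AlgEquiv.apply_symm_apply] at h1
      exact h1
  have h1 := hs Q hQX hQd (fun a => conj σ (D a)) hD'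
  rcases h1 with h1 | h1
  · left
    rw [pull_apply, h1, map_zero]
  · right
    rw [pull_apply, ← hQ, AlgEquiv.apply_symm_apply]
    simp only [hlog, hδ] at h1
    exact h1

theorem tensor_frame {n m : ℕ} (s : Tensor K m) (c : Fin n → Fin n → K)
    (E : Fin n → Derivation ℂ K K) (I : Fin m → Fin n) :
    s (fun a => ∑ j, c (I a) j • E j) = tm (fun J => s fun a => E (J a)) fun a => c (I a) := by
  have h1 := tensor_expand s (Matrix.of c) E I
  rw [tm_apply]
  exact h1

/-- Semistable adapted tensors give sections. -/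
theorem nonvanishing {n m : ℕ} (hn : 1 ≤ n) (hm : 1 ≤ m) [Algebra.EssFiniteType ℂ K]
    (htr : Algebra.trdeg ℂ K = n) {X : Set (Place ℂ K)} {δ : Place ℂ K → ℝ}
    (hδ : ∀ P ∈ X, 0 ≤ δ P) {G : Set (K ≃ₐ[ℂ] K)} (hG : ∀ σ ∈ G, Preserves X δ σ)
    (h : ∀ b : Fin n → Derivation ℂ K K, LinearIndependent K b → ∀ w : Fin n → ℝ,
      ∑ i, w i = 0 → InvariantFlag G b w → ∃ s : Tensor K m, Adapted n X δ s ∧
        ∃ I : Fin m → Fin n, s (fun a => b (I a)) ≠ 0 ∧ ∑ a, w (I a) ≤ 0) :
    ∃ N : ℕ, 0 < N ∧ ∃ ω : (Fin n → Derivation ℂ K K) → K, IsSection n X δ N ω ∧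
      ∃ D, ω D ≠ 0 := by
  classical
  have : CharZero K := charZero_of_injective_algebraMap (algebraMap ℂ K).injective
  by_contra hno
  push Not at hno
  obtain ⟨y, E, hF⟩ := exists_fr htr
  have := hF.finite
  let S : Type := {s : Tensor K m // Adapted n X δ s}
  let v : S → (Fin m → Fin n) → K := fun s J => s.1 fun a => E (J a)
  have hvan : ∀ N, 1 ≤ N → ∀ (q : ℕ) (l : Fin q → S × (Fin m → Fin n)), Qv v N q l = 0 := by
    intro N hN q l
    exact hno N hN _ (section_Qv htr hδ (fun s : S => s.1) (fun s => s.2) N q l) E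
  obtain ⟨c, w, hc, hg, hw⟩ := exists_short_rat hm v hvan
  let P : Set (Tensor K m) := {s | Adapted n X δ s}
  let b : Fin n → Derivation ℂ K K := fun i => ∑ j, c i j • E j
  have hb : LinearIndependent K b := by
    rw [Fintype.linearIndependent_iff] at hc ⊢
    intro g hg0 i
    refine hc g ?_ i
    funext j
    have h1 : (∑ i, g i • b i) (y j) = 0 := by rw [hg0]; rfl
    rw [der_sum] at h1
    rw [Finset.sum_apply, Pi.zero_apply, ← h1]
    refine Finset.sum_congr rfl fun i _ => ?_
    change g i * c i j = g i * (∑ j, c i j • E j) (y j)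
    rw [der_sum]
    simp [hF.1]
  have hgP : Good P b w := by
    rintro I ⟨s, hs, hI⟩
    refine hg I ⟨_, ⟨⟨s, hs⟩, rfl⟩, fun h0 => hI ?_⟩
    have h1 := tensor_frame s c E I
    exact h1.trans h0
  obtain ⟨b', w', hopt⟩ := exists_opt hm P hb
  have hw' : sq w' * m ^ 2 < n :=
    lt_of_le_of_lt (mul_le_mul_of_nonneg_right (hopt.2.2 b w hb hgP) (sq_nonneg _)) hw
  have hn' : (n : ℝ) ≠ 0 := by
    have : (0 : ℝ) < n := by exact_mod_cast hn
    exact this.ne'
  set μ : ℝ := (∑ i, w' i) / n with hμ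
  obtain ⟨s, hs, I, hI, hI'⟩ := h b' hopt.1 (fun i => w' i - μ) (by
      rw [Finset.sum_sub_distrib, Finset.sum_const, Finset.card_univ, Fintype.card_fin,
        nsmul_eq_mul, hμ, mul_div_cancel₀ _ hn', sub_self]) (by
      intro σ hσ t D D' hDD' hD
      have hset : {i | w' i - μ ≤ t} = {i | w' i ≤ t + μ} := by
        ext i
        simp only [Set.mem_setOf_eq, sub_le_iff_le_add]
      rw [hset] at hD ⊢
      rw [image_eq hDD']
      refine hopt.invariant hF.finrank σ.toRingEquiv (conj σ) (conj_add σ)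
        (fun a x => conj_smul σ a x) (fun x hx => conj_inj hx) ?_ (t + μ) hD
      intro s hs u hu
      refine ⟨pull σ s, pull_adapted (hG σ hσ) hs, ?_⟩
      rw [pull_apply]
      exact (map_ne_zero _).mpr hu)
  have h1 := short_destab hn hopt.2.1 hw' I ⟨s, hs, hI⟩
  exact absurd h1 (not_lt.mpr hI')

end Pool.Agent.Zk28.TS
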