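import Pool.Agent.Zk28.TS.Change
import Pool.Agent.Zk28.TS.Main
import Pool.Agent.Zk28.TS.MDefs

/-!
Bounded weights of relative invariants.
-/

set_option autoImplicit false
set_option linter.unusedSectionVars false

open MvPolynomial Pool.Agent.Helper819.Apolar FF Pool.Agent.W602.GT

namespace Pool.Agent.Zk28.TS

section

variable {n m : ℕ} {S : Type}

/-- The polynomial of a relative invariant. -/
noncomputable def QP (N q : ℕ) (l : Fin q → S × (Fin m → Fin n)) :
    MvPolynomial (S × (Fin m → Fin n)) ℚ :=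
  ∑ L : Fin q → (Fin m → Fin n), C (rho N (∏ p : Fin q × Fin m,
    (X (L p.1 p.2, (l p.1).2 p.2) : MvPolynomial (Fin n × Fin n) ℚ))) *
      ∏ i, X ((l i).1, L i)

theorem Qv_eq {K : Type} [Field K] [CharZero K] (v : S → (Fin m → Fin n) → K) (N q : ℕ)
    (l : Fin q → S × (Fin m → Fin n)) :
    Qv v N q l = eval₂ (algebraMap ℚ K) (fun c => v c.1 c.2) (QP N q l) := by
  classical
  unfold Qv QP
  have h1 : ∏ i, PP v (l i) = ∑ L : Fin q → (Fin m → Fin n),
      C (∏ i, v (l i).1 (L i)) * ∏ p : Fin q × Fin m, X (L p.1 p.2, (l p.1).2 p.2) := by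
    unfold PP ta
    rw [Finset.prod_univ_sum, Fintype.piFinset_univ]
    refine Finset.sum_congr rfl fun L _ => ?_
    rw [Finset.prod_mul_distrib, map_prod, mul_comm, Fintype.prod_prod_type]
    rfl
  rw [h1, rho_sum, ← coe_eval₂Hom, map_sum]
  refine Finset.sum_congr rfl fun L _ => ?_
  rw [rho_smul, map_mul, map_prod]
  have h4 : (∏ p : Fin q × Fin m,
      (X (L p.1 p.2, (l p.1).2 p.2) : MvPolynomial (Fin n × Fin n) K)) =
      map (algebraMap ℚ K) (∏ p : Fin q × Fin m, X (L p.1 p.2, (l p.1).2 p.2)) := by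
    rw [map_prod]
    exact Finset.prod_congr rfl fun p _ => (map_X _ _).symm
  rw [h4, rho_map, mul_comm]
  simp only [coe_eval₂Hom, eval₂_C, eval₂_X]

/-- If the relative invariants of small weights vanish, then all of positive weight vanish. -/
theorem uniform_null (n m : ℕ) (S : Type) [Finite S] : ∃ N0 : ℕ, ∀ (K : Type) [Field K]
    [CharZero K] (v : S → (Fin m → Fin n) → K),
    (∀ N, 1 ≤ N → N ≤ N0 → ∀ (q : ℕ) (l : Fin q → S × (Fin m → Fin n)), Qv v N q l = 0) →
      ∀ N, 1 ≤ N → ∀ (q : ℕ) (l : Fin q → S × (Fin m → Fin n)), Qv v N q l = 0 := by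
  classical
  let A : Set (MvPolynomial (S × (Fin m → Fin n)) ℚ) :=
    {p | ∃ (N q : ℕ) (l : Fin q → S × (Fin m → Fin n)), 1 ≤ N ∧ p = QP N q l}
  have hfg : (Submodule.span (MvPolynomial (S × (Fin m → Fin n)) ℚ) A).FG :=
    IsNoetherian.noetherian _
  obtain ⟨s, hs, hspan⟩ := (Submodule.fg_span_iff_fg_span_finset_subset A).mp hfg
  have hs' : ∀ p : s, ∃ (N q : ℕ) (l : Fin q → S × (Fin m → Fin n)),
      1 ≤ N ∧ (p : MvPolynomial (S × (Fin m → Fin n)) ℚ) = QP N q l := fun p => hs p.2
  choose wt q l hwt hp using hs'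
  refine ⟨(Finset.univ : Finset s).sup wt, fun K _ _ v h N hN q' l' => ?_⟩
  let φ : MvPolynomial (S × (Fin m → Fin n)) ℚ →+* K :=
    eval₂Hom (algebraMap ℚ K) (fun c => v c.1 c.2)
  have hφ : ∀ (N q : ℕ) (l : Fin q → S × (Fin m → Fin n)), φ (QP N q l) = Qv v N q l := by
    intro N q l
    rw [Qv_eq]
    rfl
  have h1 : Ideal.span (s : Set (MvPolynomial (S × (Fin m → Fin n)) ℚ)) ≤ RingHom.ker φ := by
    refine Ideal.span_le.mpr fun p hps => ?_
    have h2 := hp ⟨p, hps⟩
    rw [SetLike.mem_coe, RingHom.mem_ker]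
    change p = _ at h2
    rw [h2, hφ]
    exact h _ (hwt _) (Finset.le_sup (Finset.mem_univ _)) _ _
  have h2 : QP N q' l' ∈ Ideal.span (s : Set (MvPolynomial (S × (Fin m → Fin n)) ℚ)) := by
    have h3 : QP N q' l' ∈ Submodule.span (MvPolynomial (S × (Fin m → Fin n)) ℚ) A :=
      Submodule.subset_span ⟨N, q', l', hN, rfl⟩
    rw [hspan] at h3
    exact h3
  have h3 := h1 h2
  rw [RingHom.mem_ker, hφ] at h3
  exact h3

end

section

variable {K : Type} [Field K] [Algebra ℂ K] {n m : ℕ}

/-- The sections given by relative invariants of tensors with values in a divisor. -/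
theorem section_Qv' (hn : 1 ≤ n) [Algebra.EssFiniteType ℂ K] (htr : Algebra.trdeg ℂ K = n)
    {X : Set (Place ℂ K)} {δ β : Place ℂ K → ℝ} (hδ : ∀ P ∈ X, 0 ≤ δ P) {S : Type}
    (s : S → STensor K (Fin m)) (hs : ∀ i, SAdapted n X δ (fun P => (m : ℝ) / n * β P) (s i))
    [CharZero K] (N q : ℕ) (l : Fin q → S × (Fin m → Fin n)) :
    IsSection n X (fun P => δ P + β P) N fun D => Qv (fun i J => s i fun a => D (J a)) N q l := by
  classical
  have hplu : IsPluri N fun D : Fin n → Derivation ℂ K K =>
      Qv (fun i J => s i fun a => D (J a)) N q l := by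
    intro A D
    have h1 : (fun (i : S) (J : Fin m → Fin n) => s i fun a => ∑ j, A (J a) j • D j) =
        fun i => ta A.transpose (fun J => s i fun a => D (J a)) := by
      funext i J
      exact tensor_expand (s i) A D J
    change Qv (fun i J => s i fun a => ∑ j, A (J a) j • D j) N q l = _
    rw [h1, Qv_act, Matrix.det_transpose]
  refine ⟨hplu, fun P hPX hP D hD => ?_⟩
  obtain ⟨y, E, i0, hF, hyr, hi0, hreg, hlog⟩ := frame_at htr hP
  have h1 := hplu (Matrix.of fun i j => D i (y j)) E
  have h2 : (fun i => ∑ j, (Matrix.of fun i j => D i (y j)) i j • E j) = D := by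
    funext i
    exact hF.2 (D i)
  rw [h2] at h1
  by_cases h0 : Qv (fun i J => s i fun a => E (J a)) N q l = 0
  · left
    beta_reduce at h1 ⊢
    rw [h1, h0, mul_zero]
  have hdeg := Qv_deg h0
  have h3 : GR P 0 (Matrix.of fun i j => D i (y j)).det :=
    GR.det fun i j => GR_of_reg (hD i _ (hyr j))
  have h4 : GR P (-(δ P * N) + q * (-((m : ℝ) / n * β P)))
      (Qv (fun i J => s i fun a => E (J a)) N q l) := by
    refine Qv_ord' P i0 _ (fun i J => ?_) N q l
    refine GR.mono (hs i P hPX hP (fun a => E (J a)) fun a => hreg _) ?_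
    rw [ncard_eq, neg_add, mul_comm (δ P)]
    refine add_le_add (neg_le_neg ?_) le_rfl
    refine mul_le_mul_of_nonneg_right ?_ (hδ P hPX)
    rw [← Finset.sum_boole]
    refine Finset.sum_le_sum fun a _ => ?_
    by_cases h : J a = i0
    · rw [if_pos h]
      split_ifs <;> norm_num
    · rw [if_neg h, if_neg]
      exact fun h' => h' (hlog _ h)
  have h5 := (h3.pow N).mul h4
  have hn' : (n : ℝ) ≠ 0 := by
    have : (0 : ℝ) < n := by exact_mod_cast hn
    exact this.ne'
  have h7 : (n : ℝ) * N = q * m := by exact_mod_cast hdeg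
  have h8 : (N : ℝ) * 0 + (-(δ P * N) + q * (-((m : ℝ) / n * β P))) = -(N * (δ P + β P)) := by
    have h9 : (q : ℝ) * ((m : ℝ) / n * β P) = (q * m) / n * β P := by ring
    rw [mul_neg, h9, ← h7, mul_div_cancel_left₀ _ hn']
    ring
  rw [h8] at h5
  have h6 : GR P (-(N * (δ P + β P))) (Qv (fun i J => s i fun a => D (J a)) N q l) := by
    beta_reduce at h1
    rw [h1]
    exact h5
  exact h6

/-- Powers of sections. -/
theorem section_pow {X : Set (Place ℂ K)} {δ : Place ℂ K → ℝ} {N : ℕ}
    {ω : (Fin n → Derivation ℂ K K) → K} (h : IsSection n X δ N ω) (k : ℕ) :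
    IsSection n X δ (k * N) fun D => ω D ^ k := by
  refine ⟨fun A D => ?_, fun P hPX hP D hD => ?_⟩
  · have h1 := h.1 A D
    beta_reduce
    rw [h1, mul_pow, ← pow_mul, mul_comm N k]
  · have h1 : GR P (-(N * δ P)) (ω D) := h.2 P hPX hP D hD
    have h2 := h1.pow k
    refine GR.mono h2 (le_of_eq ?_)
    push_cast
    ring

/-- A finite family of adapted tensors with the same supports. -/
theorem exists_family {y : Fin n → K} {E : Fin n → Derivation ℂ K K} (hF : Fr y E)
    (A : Set (STensor K (Fin m))) (h0 : (0 : STensor K (Fin m)) ∈ A) :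
    ∃ s : (Fin m → Fin n) → STensor K (Fin m), (∀ i, s i ∈ A) ∧
      ∀ t ∈ A, ∃ c : (Fin m → Fin n) → K, ∀ D : Fin m → Derivation ℂ K K,
        t D = ∑ i, c i * s i D := by
  classical
  let ev : STensor K (Fin m) →ₗ[K] ((Fin m → Fin n) → K) :=
    { toFun := fun s J => s fun a => E (J a)
      map_add' := fun s t => rfl
      map_smul' := fun c s => rfl }
  have hev : ∀ t : STensor K (Fin m), ev t = 0 → t = 0 := by
    intro t ht
    ext D
    have h1 : D = fun a => ∑ j, D a (y j) • E j := by
      funext a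
      exact (hF.2 (D a)).symm
    rw [h1, MultilinearMap.map_sum]
    refine Finset.sum_eq_zero fun J _ => ?_
    rw [MultilinearMap.map_smul_univ t (fun a => D a (y (J a))) (fun a => E (J a))]
    have h2 : t (fun a => E (J a)) = 0 := congrFun ht J
    rw [h2, smul_zero]
  obtain ⟨b, hbA, hspan, hli⟩ := exists_linearIndependent K (ev '' A)
  have hfin : b.Finite := hli.setFinite
  have hcard : hfin.toFinset.card ≤ Fintype.card (Fin m → Fin n) := by
    have h1 := hli.cardinalMk_le_finrank
    have := hfin.fintype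
    have h2 : Fintype.card b ≤ Module.finrank K ((Fin m → Fin n) → K) :=
      LinearIndependent.fintype_card_le_finrank hli
    rw [Module.finrank_fintype_fun_eq_card] at h2
    rwa [Set.Finite.card_toFinset]
  -- an injection of `b` into the index set
  obtain ⟨f, hf⟩ : ∃ f : b → (Fin m → Fin n), Function.Injective f := by
    have := hfin.fintype
    rw [Set.Finite.card_toFinset] at hcard
    exact ⟨_, (Function.Embedding.nonempty_of_card_le hcard).some.injective⟩
  choose g hgA hg using fun x : b => hbA x.2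
  let s : (Fin m → Fin n) → STensor K (Fin m) := fun i =>
    if h : ∃ x, f x = i then g h.choose else 0
  have hs : ∀ x, s (f x) = g x := by
    intro x
    have h : ∃ x', f x' = f x := ⟨x, rfl⟩
    simp only [s]
    rw [dif_pos h, hf h.choose_spec]
  refine ⟨s, fun i => ?_, fun t ht => ?_⟩
  · simp only [s]
    split_ifs with h
    · exact hgA _
    · exact h0
  · have h1 : ev t ∈ Submodule.span K b := by
      rw [hspan]
      exact Submodule.subset_span ⟨t, ht, rfl⟩
    have h2 : Submodule.span K b ≤ Submodule.span K (Set.range fun i => ev (s i)) := by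
      refine Submodule.span_mono fun x hx => ?_
      refine ⟨f ⟨x, hx⟩, ?_⟩
      beta_reduce
      rw [hs, hg]
    obtain ⟨c, hc⟩ := (Submodule.mem_span_range_iff_exists_fun K).mp (h2 h1)
    refine ⟨c, fun D => ?_⟩
    have h3 : t - ∑ i, c i • s i = 0 := by
      apply hev
      rw [map_sub, map_sum, ← hc, sub_eq_zero]
      exact Finset.sum_congr rfl fun i _ => by rw [map_smul]
    have h4 : t = ∑ i, c i • s i := sub_eq_zero.mp h3
    rw [h4, sum_apply]
    rfl

end

end Pool.Agent.Zk28.TS
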