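import Pool.Agent.Zk28.TS.Eff

/-!
Effective nonvanishing.
-/

set_option autoImplicit false
set_option linter.unusedSectionVars false

open FF Pool.Agent.W602.GT

namespace Pool.Agent.Zk28.TS

section

variable {K : Type} [Field K] [Algebra ℂ K]

theorem sadapted_zero {n : ℕ} {X : Set (Place ℂ K)} {δ β : Place ℂ K → ℝ} {κ : Type} :
    SAdapted n X δ β (0 : STensor K κ) := fun _ _ _ _ _ => Or.inl rfl

/-- Automorphisms act on adapted tensors with values in a divisor. -/
theorem pull_sadapted {n : ℕ} {X : Set (Place ℂ K)} {δ β : Place ℂ K → ℝ} {σ : K ≃ₐ[ℂ] K}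
    (hσ : MPreserves X δ β σ) {m : ℕ} {s : STensor K (Fin m)} {r : ℝ}
    (hs : SAdapted n X δ (fun P => r * β P) s) :
    SAdapted n X δ (fun P => r * β P) (pull σ s) := by
  intro P hPX hP D hD
  obtain ⟨Q, hQX, hδ, hβ, hQ⟩ := hσ P hPX
  have hreg : ∀ f, Q.Reg (σ f) ↔ P.Reg f := by
    intro f
    unfold Place.Reg
    rw [hQ f]
    constructor
    · rintro (h | h)
      · exact Or.inl ((map_eq_zero σ).mp h)
      · exact Or.inr h
    · rintro (h | h)
      · exact Or.inl (by rw [h, map_zero])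
      · exact Or.inr h
  have hQd : Divisorial n Q := by
    obtain ⟨u, hu⟩ := hP
    refine ⟨fun i => σ (u i), fun F hF => ?_⟩
    have h1 : MvPolynomial.aeval (fun i => σ (u i)) F = σ (MvPolynomial.aeval u F) := by
      have h2 := MvPolynomial.comp_aeval_apply u σ.toAlgHom F
      exact h2.symm
    rw [h1, hQ]
    exact ⟨(map_ne_zero σ).mpr (hu F hF).1, (hu F hF).2⟩
  have hD' : ∀ a, DerReg Q (conj σ (D a)) := by
    intro a f hf
    rw [conj_apply, hreg]
    apply hD a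
    rw [← hreg, AlgEquiv.apply_symm_apply]
    exact hf
  have hlog : ∀ a, DerLog Q (conj σ (D a)) ↔ DerLog P (D a) := by
    intro a
    constructor
    · intro h f
      rw [← hreg]
      have h1 := h (σ f)
      rw [conj_apply, AlgEquiv.symm_apply_apply, ← map_div₀] at h1
      exact h1
    · intro h f
      have h1 := h (σ.symm f)
      rw [← hreg, map_div₀, AlgEquiv.apply_symm_apply] at h1
      exact h1
  have h1 := hs Q hQX hQd (fun a => conj σ (D a)) hD'
  rcases h1 with h1 | h1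
  · left
    rw [pull_apply, h1, map_zero]
  · right
    rw [pull_apply, ← hQ, AlgEquiv.apply_symm_apply]
    simp only [hlog, hδ, hβ] at h1
    exact h1

end

/-- `w` is the shortest weight for the pattern `A`. -/
def Shortest {n m : ℕ} (A : Set (Fin m → Fin n)) (w : Fin n → ℝ) : Prop :=
  (∀ I ∈ A, 1 ≤ ∑ a, w (I a)) ∧
    ∀ w' : Fin n → ℝ, (∀ I ∈ A, 1 ≤ ∑ a, w' (I a)) → sq w ≤ sq w'

theorem Shortest.unique {n m : ℕ} {A : Set (Fin m → Fin n)} {w w' : Fin n → ℝ}
    (h : Shortest A w) (h' : Shortest A w') : w = w' := by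
  have h1 := h.2 (fun i => (w i + w' i) / 2) (by
    intro I hI
    have h3 := h.1 I hI
    have h4 := h'.1 I hI
    rw [← Finset.sum_div, Finset.sum_add_distrib]
    linarith)
  have h2 := h.2 w' h'.1
  have h3 := h'.2 w h.1
  have h4 : sq (fun i => (w i + w' i) / 2) = (sq w + sq w') / 2 - (∑ i, (w i - w' i) ^ 2) / 4 := by
    unfold sq
    rw [← Finset.sum_add_distrib, Finset.sum_div, Finset.sum_div, ← Finset.sum_sub_distrib]
    exact Finset.sum_congr rfl fun i _ => by ring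
  have h5 : ∑ i, (w i - w' i) ^ 2 ≤ 0 := by
    rw [h4] at h1
    linarith
  have h6 := (Finset.sum_eq_zero_iff_of_nonneg fun i _ => sq_nonneg (w i - w' i)).mp
    (le_antisymm h5 (Finset.sum_nonneg fun i _ => sq_nonneg _))
  funext i
  have h7 := pow_eq_zero_iff (two_ne_zero) |>.mp (h6 i (Finset.mem_univ i))
  linarith

theorem Opt.shortest {F : Type*} [Field F] {V : Type*} [AddCommGroup V] [Module F V] {W : Type*}
    [AddCommGroup W] [Module F W] {n m : ℕ} {P : Set (MultilinearMap F (fun _ : Fin m => V) W)}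
    {b : Fin n → V} {w : Fin n → ℝ} (h : Opt P b w) : Shortest (supp P b) w :=
  ⟨h.2.1, fun w' hw' => h.2.2 b w' h.1 hw'⟩

/-- Integral multiples of rational weights. -/
theorem exists_integral {n : ℕ} {w : Fin n → ℝ} (h : ∀ i, ∃ r : ℚ, w i = r) :
    ∃ (d : ℕ) (z : Fin n → ℤ), 0 < d ∧ ∀ i, (z i : ℝ) = d * w i := by
  classical
  choose r hr using h
  let d : ℕ := ∏ i, (r i).den
  have hd : 0 < d := Finset.prod_pos fun i _ => (r i).den_pos
  have hz : ∀ i, ∃ z : ℤ, (z : ℝ) = d * w i := by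
    intro i
    refine ⟨(∏ j ∈ Finset.univ.erase i, ((r j).den : ℤ)) * (r i).num, ?_⟩
    have h1 : (d : ℚ) = (r i).den * ∏ j ∈ Finset.univ.erase i, ((r j).den : ℚ) := by
      rw [Finset.mul_prod_erase _ (fun j => ((r j).den : ℚ)) (Finset.mem_univ i)]
      simp only [d]
      push_cast
      rfl
    have h3 : ((r i).den : ℚ) * r i = (r i).num := by
      rw [mul_comm]
      exact Rat.mul_den_eq_num (r i)
    have h4 : (d : ℚ) * r i = (∏ j ∈ Finset.univ.erase i, ((r j).den : ℚ)) * (r i).num := by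
      rw [← h3, h1]
      ring
    rw [hr i]
    have h5 : (((d : ℚ) * r i : ℚ) : ℝ) =
        (((∏ j ∈ Finset.univ.erase i, ((r j).den : ℚ)) * (r i).num : ℚ) : ℝ) := by rw [h4]
    push_cast at h5 ⊢
    exact h5.symm
  choose z hz using hz
  exact ⟨d, z, hd, hz⟩

/-- The integral multiples can be chosen to depend only on the pattern. -/
theorem exists_uniform (n m : ℕ) : ∃ W : ℤ, ∀ (A : Set (Fin m → Fin n)) (w : Fin n → ℝ),
    Shortest A w → (∀ i, ∃ r : ℚ, w i = r) → ∃ (d : ℕ) (z : Fin n → ℤ), 0 < d ∧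
      (∀ i, (z i : ℝ) = d * w i) ∧ ∀ i, |(n : ℤ) * z i - ∑ j, z j| ≤ W := by
  classical
  have h1 : ∀ A : Set (Fin m → Fin n), ∃ W : ℤ, ∀ w : Fin n → ℝ,
      Shortest A w → (∀ i, ∃ r : ℚ, w i = r) → ∃ (d : ℕ) (z : Fin n → ℤ), 0 < d ∧
      (∀ i, (z i : ℝ) = d * w i) ∧ ∀ i, |(n : ℤ) * z i - ∑ j, z j| ≤ W := by
    intro A
    by_cases hA : ∃ w : Fin n → ℝ, Shortest A w ∧ ∀ i, ∃ r : ℚ, w i = r
    · obtain ⟨w, hw, hr⟩ := hA
      obtain ⟨d, z, hd, hz⟩ := exists_integral hr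
      refine ⟨∑ i, |(n : ℤ) * z i - ∑ j, z j|, fun w' hw' _ => ⟨d, z, hd, ?_, fun i => ?_⟩⟩
      · rw [← hw.unique hw']
        exact hz
      · exact Finset.single_le_sum (f := fun i => |(n : ℤ) * z i - ∑ j, z j|)
          (fun j _ => abs_nonneg _) (Finset.mem_univ i)
    · push Not at hA
      refine ⟨0, fun w hw hr => ?_⟩
      obtain ⟨i, hi⟩ := hA w hw
      obtain ⟨r, hr⟩ := hr i
      exact absurd hr (hi r)
  choose W hW using h1
  refine ⟨∑ A, |W A|, fun A w hw hr => ?_⟩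
  obtain ⟨d, z, hd, hz, hb⟩ := hW A w hw hr
  refine ⟨d, z, hd, hz, fun i => (hb i).trans ((le_abs_self _).trans ?_)⟩
  exact Finset.single_le_sum (f := fun A => |W A|) (fun j _ => abs_nonneg _) (Finset.mem_univ A)

/-- **Effective nonvanishing.** -/
theorem effective (n m : ℕ) (hn : 1 ≤ n) (hm : 0 < m) : ∃ (N : ℕ) (W : ℤ), 0 < N ∧
    ∀ (K : Type) [Field K] [Algebra ℂ K] [Algebra.EssFiniteType ℂ K], Algebra.trdeg ℂ K = n →
    ∀ (X : Set (Place ℂ K)) (δ β : Place ℂ K → ℝ), (∀ P ∈ X, 0 ≤ δ P) →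
    ∀ G : Set (K ≃ₐ[ℂ] K), (∀ σ ∈ G, MPreserves X δ β σ) →
    (∀ b : Fin n → Derivation ℂ K K, LinearIndependent K b → ∀ w : Fin n → ℤ,
      (∀ i, |w i| ≤ W) →
      ∑ i, w i = 0 → InvariantFlag G b (fun i => (w i : ℝ)) → ∃ s : STensor K (Fin m),
        SAdapted n X δ (fun P => (m : ℝ) / n * β P) s ∧
        ∃ I : Fin m → Fin n, s (fun a => b (I a)) ≠ 0 ∧ ∑ a, w (I a) ≤ 0) →
    ∃ ω : (Fin n → Derivation ℂ K K) → K, IsSection n X (fun P => δ P + β P) N ω ∧
      ∃ D, ω D ≠ 0 := by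
  classical
  obtain ⟨N0, hN0⟩ := uniform_null n m (Fin m → Fin n)
  obtain ⟨W, hW⟩ := exists_uniform n m
  refine ⟨N0.factorial, W, Nat.factorial_pos _, ?_⟩
  intro K _ _ _ htr X δ β hδ G hG h
  have : CharZero K := charZero_of_injective_algebraMap (algebraMap ℂ K).injective
  by_contra hno
  push Not at hno
  obtain ⟨y, E, hF⟩ := exists_fr htr
  have := hF.finite
  let P : Set (Tensor K m) := {s | SAdapted n X δ (fun P => (m : ℝ) / n * β P) s}
  obtain ⟨s, hs, hspan⟩ := exists_family (m := m) hF P sadapted_zero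
  let v : (Fin m → Fin n) → (Fin m → Fin n) → K := fun i J => s i fun a => E (J a)
  have hvan : ∀ N, 1 ≤ N → ∀ (q : ℕ) (l : Fin q → (Fin m → Fin n) × (Fin m → Fin n)),
      Qv v N q l = 0 := by
    refine hN0 K v fun N hN hNN0 q l => ?_
    have h1 := section_Qv' hn htr hδ s hs N q l
    obtain ⟨k, hk⟩ : N ∣ N0.factorial := Nat.dvd_factorial hN hNN0
    have h2 := section_pow h1 k
    rw [mul_comm k N, ← hk] at h2
    have h3 := hno _ h2 E
    rcases Nat.eq_zero_or_pos k with h4 | h4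
    · exfalso
      rw [h4, mul_zero] at hk
      exact (Nat.factorial_pos N0).ne' hk
    · exact (pow_eq_zero_iff h4.ne').mp h3
  obtain ⟨c, w, hc, hg, hw⟩ := exists_short_rat hm v hvan
  let b : Fin n → Derivation ℂ K K := fun i => ∑ j, c i j • E j
  have hb : LinearIndependent K b := by
    rw [Fintype.linearIndependent_iff] at hc ⊢
    intro g hg0 i
    refine hc g ?_ i
    funext j
    have h1 : (∑ i, g i • b i) (y j) = 0 := by rw [hg0]; rfl
    rw [der_sum] at h1
    rw [Finset.sum_apply, Pi.zero_apply, ← h1]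
    refine Finset.sum_congr rfl fun i _ => ?_
    change g i * c i j = g i * (∑ j, c i j • E j) (y j)
    rw [der_sum]
    simp [hF.1]
  have hgP : Good P b w := by
    rintro I ⟨t, ht, hI⟩
    obtain ⟨d, hd⟩ := hspan t ht
    rw [hd] at hI
    obtain ⟨i, _, hi⟩ := Finset.exists_ne_zero_of_sum_ne_zero hI
    refine hg I ⟨_, ⟨i, rfl⟩, fun h0 => right_ne_zero_of_mul hi ?_⟩
    have h1 := tensor_frame (s i) c E I
    exact h1.trans h0
  obtain ⟨b', w', hopt⟩ := exists_opt hm P hb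
  have hw' : sq w' * m ^ 2 < n :=
    lt_of_le_of_lt (mul_le_mul_of_nonneg_right (hopt.2.2 b w hb hgP) (sq_nonneg _)) hw
  have hn' : (0 : ℝ) < n := by exact_mod_cast hn
  -- integral weights
  obtain ⟨d, z, hd, hz, hb2⟩ := hW _ w' hopt.shortest hopt.rational
  have hd' : (0 : ℝ) < d := by exact_mod_cast hd
  obtain ⟨t, ht, I, hI, hI'⟩ := h b' hopt.1 (fun i => n * z i - ∑ j, z j) hb2 (by
      rw [Finset.sum_sub_distrib, Finset.sum_const, Finset.card_univ, Fintype.card_fin,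
        ← Finset.mul_sum, nsmul_eq_mul, sub_self]) (by
      intro σ hσ t D D' hDD' hD
      have hset : {i | (((n : ℤ) * z i - ∑ j, z j : ℤ) : ℝ) ≤ t} =
          {i | w' i ≤ (t + ∑ j, (z j : ℝ)) / (n * d)} := by
        ext i
        change (((n : ℤ) * z i - ∑ j, z j : ℤ) : ℝ) ≤ t ↔ w' i ≤ (t + ∑ j, (z j : ℝ)) / (n * d)
        push_cast
        rw [le_div_iff₀ (mul_pos hn' hd'), sub_le_iff_le_add, hz i]
        constructor
        · intro h
          linarith
        · intro h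
          linarith
      rw [hset] at hD ⊢
      rw [image_eq hDD']
      refine hopt.invariant hF.finrank σ.toRingEquiv (conj σ) (conj_add σ)
        (fun a x => conj_smul σ a x) (fun x hx => conj_inj hx) ?_ _ hD
      intro s hs u hu
      refine ⟨pull σ s, pull_sadapted (hG σ hσ) hs, ?_⟩
      rw [pull_apply]
      exact (map_ne_zero _).mpr hu)
  have h1 := short_destab hn hopt.2.1 hw' I ⟨t, ht, hI⟩
  have h2 : ((∑ a, ((n : ℤ) * z (I a) - ∑ j, z j) : ℤ) : ℝ) ≤ 0 := by exact_mod_cast hI'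
  push_cast at h2
  have h3 : ∀ a, (n : ℝ) * z (I a) - ∑ j, (z j : ℝ) =
      (n * d) * (w' (I a) - (∑ i, w' i) / n) := by
    intro a
    rw [hz, Finset.sum_congr rfl fun j _ => hz j, ← Finset.mul_sum]
    field_simp
  rw [Finset.sum_congr rfl fun a _ => h3 a, ← Finset.mul_sum] at h2
  exact absurd (mul_pos (mul_pos hn' hd') h1) (not_lt.mpr h2)

end Pool.Agent.Zk28.TS
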