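import Pool.Agent.Zk28.TS.Nrm

/-!
Flag tensors.
-/

set_option autoImplicit false
set_option linter.unusedSectionVars false

open FF Pool.Agent.W602.GT

namespace Pool.Agent.Zk28.TS

section

variable {K : Type} [Field K] [Algebra ℂ K] {n : ℕ}

/-- positions by levels -/
def lev (ν : Fin n → ℕ) : (Σ i : Fin n, Fin (ν i)) ≃
    (Σ t : Fin (∑ i, ν i), {i : Fin n // (t : ℕ) < ν i}) where
  toFun p := ⟨⟨p.2, lt_of_lt_of_le p.2.2
    (Finset.single_le_sum (f := ν) (fun _ _ => Nat.zero_le _) (Finset.mem_univ p.1))⟩,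
      ⟨p.1, p.2.2⟩⟩
  invFun p := ⟨p.2.1, ⟨p.1, p.2.2⟩⟩
  left_inv _ := rfl
  right_inv _ := rfl

theorem sum_lev {A : Type*} [AddCommMonoid A] (ν : Fin n → ℕ)
    (f : (Σ i : Fin n, Fin (ν i)) → A) : ∑ p, f p =
      ∑ t : Fin (∑ i, ν i), ∑ i : {i : Fin n // (t : ℕ) < ν i}, f ⟨i.1, ⟨t, i.2⟩⟩ := by
  rw [← (lev ν).symm.sum_comp f, Fintype.sum_sigma]
  rfl

theorem le_sum (ν : Fin n → ℕ) (i : Fin n) : ν i ≤ ∑ i, ν i :=
  Finset.single_le_sum (f := ν) (fun _ _ => Nat.zero_le _) (Finset.mem_univ i)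

/-- Flag tensors exist. -/
theorem exists_flagTensor {b : Fin n → Derivation ℂ K K} (B : Module.Basis (Fin n) K
    (Derivation ℂ K K)) (hB : ∀ i, B i = b i) (ν : Fin n → ℕ) (c : K) :
    ∃ s : STensor K (Σ i : Fin n, Fin (ν i)), IsFlagTensor b ν c s := by
  classical
  let f : MultilinearMap K (fun _ : (Σ t : Fin (∑ i, ν i), {i : Fin n // (t : ℕ) < ν i}) =>
      Fin n → K) K := prodForm fun t => detForm fun i => (t : ℕ) < ν i
  refine ⟨c • (f.domDomCongr (lev ν).symm).compLinearMap fun _ => B.equivFun.toLinearMap,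
    fun x => ?_⟩
  have h1 : ∀ p, B.equivFun (∑ j, x p j • b j) = x p := by
    intro p
    have h2 : ∑ j, x p j • b j = B.equivFun.symm (x p) := by
      rw [Module.Basis.equivFun_symm_apply]
      exact Finset.sum_congr rfl fun j _ => by rw [hB]
    rw [h2, LinearEquiv.apply_symm_apply]
  rw [Finset.prod_range]
  change c * f (fun p => B.equivFun (∑ j, x ((lev ν).symm p) j • b j)) = _
  simp only [h1]
  rfl

open scoped Classical in
theorem ncard_eq' {κ : Type} [Fintype κ] (p : κ → Prop) :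
    (({a | p a}.ncard : ℕ) : ℝ) = ∑ a, if p a then (1 : ℝ) else 0 := by
  rw [Set.ncard_eq_toFinset_card', Finset.sum_boole]
  congr 2
  ext a
  simp

/-- The order of a determinant. -/
theorem GR.det_column {P : Place ℂ K} {ι : Type*} [Fintype ι] [DecidableEq ι]
    {M : Matrix ι ι K} (h : ∀ i j, GR P 0 (M i j)) :
    GR P 0 M.det ∧ ∀ j, (∀ i, GR P 1 (M i j)) → GR P 1 M.det := by
  have hs : ∀ (σ : Equiv.Perm ι) (r : ℝ) (x : K), GR P r x → GR P r (Equiv.Perm.sign σ • x) := by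
    intro σ r x hx
    rcases Int.units_eq_one_or (Equiv.Perm.sign σ) with h2 | h2
    · rw [h2, one_smul]; exact hx
    · rw [h2, Units.neg_smul, one_smul]
      exact hx.neg
  constructor
  · rw [Matrix.det_apply]
    refine GR.sum _ fun σ _ => hs σ _ _ ?_
    simpa using GR.prod (P := P) Finset.univ (r := fun _ => 0) (f := fun i => M (σ i) i)
      fun i _ => h _ _
  · intro j hj
    rw [Matrix.det_apply]
    refine GR.sum _ fun σ _ => hs σ _ _ ?_
    rw [← Finset.mul_prod_erase _ _ (Finset.mem_univ j)]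
    have h6 : GR P 0 (∏ i ∈ Finset.univ.erase j, M (σ i) i) := by
      simpa using GR.prod (P := P) (Finset.univ.erase j) (r := fun _ => 0)
        (f := fun i => M (σ i) i) fun i _ => h _ _
    simpa using (hj (σ j)).mul h6

/-- Adaptedness of flag tensors. -/
theorem flag_adapted [Algebra.EssFiniteType ℂ K] (htr : Algebra.trdeg ℂ K = n)
    {X : Set (Place ℂ K)} {δ β : Place ℂ K → ℝ} (hδ : ∀ P ∈ X, 0 ≤ δ P ∧ δ P ≤ 1)
    {b : Fin n → Derivation ℂ K K} (hb : LinearIndependent K b) {ν : Fin n → ℕ}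
    (hν : Monotone ν) {c : K} {s : STensor K (Σ i : Fin n, Fin (ν i))}
    (hs : IsFlagTensor b ν c s)
    (h : ∀ P ∈ X, Divisorial n P → ∀ (A : Fin n → Fin n → K) (i0 : Fin n),
      (∀ i j, i < j → A i j = 0) → (Matrix.of A).det ≠ 0 →
      (∀ i, DerReg P (∑ j, A i j • b j)) → (∀ i, i ≠ i0 → DerLog P (∑ j, A i j • b j)) →
      GR P (-(ν i0 * δ P + β P)) (c * ∏ i, A i i ^ ν i)) :
    SAdapted n X δ β s := by
  classical
  intro P hPX hP D hD
  obtain ⟨y, E, hF⟩ := exists_fr htr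
  have hfin := hF.finite
  obtain ⟨A, i0, hA, hdet, hreg, hlog, hco⟩ := flag_frame htr hP hb
  have hc := h P hPX hP A i0 hA hdet hreg hlog
  have hbP : LinearIndependent K fun i => ∑ j, A i j • b j := by
    have hci : LinearIndependent K A := indep_iff_det.mpr hdet
    rw [Fintype.linearIndependent_iff] at hci ⊢
    intro g hg0 i
    refine hci g ?_ i
    have h1 : ∑ j, (∑ i, g i * A i j) • b j = 0 := by
      rw [← hg0]
      simp only [Finset.sum_smul, Finset.smul_sum, mul_smul]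
      exact Finset.sum_comm
    have h2 := Fintype.linearIndependent_iff.mp hb _ h1
    funext j
    rw [Finset.sum_apply]
    exact h2 j
  have hspan := hbP.span_eq_top_of_card_eq_finrank' (by rw [Fintype.card_fin, hF.finrank])
  have hex : ∀ p, ∃ z : Fin n → K, ∑ i, z i • (∑ j, A i j • b j) = D p := fun p =>
    (Submodule.mem_span_range_iff_exists_fun K).mp (by rw [hspan]; exact Submodule.mem_top)
  choose z hz using hex
  let x : (Σ i : Fin n, Fin (ν i)) → Fin n → K := fun p j => ∑ i, z p i * A i j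
  have hx : D = fun p => ∑ j, x p j • b j := by
    funext p
    rw [← hz p]
    simp only [x, Finset.sum_smul, Finset.smul_sum, mul_smul]
    exact Finset.sum_comm
  have hsD : s D = c * ∏ t : Fin (∑ i, ν i),
      (Matrix.of fun i i' : {i : Fin n // (t : ℕ) < ν i} => x ⟨i, ⟨t, i.2⟩⟩ i').det := by
    rw [hx, hs x, Finset.prod_range]
  let g : Fin (∑ i, ν i) → K := fun t =>
    (Matrix.of fun i i' : {i : Fin n // (t : ℕ) < ν i} => z ⟨i, ⟨t, i.2⟩⟩ i').det
  have hfac : ∀ t : Fin (∑ i, ν i),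
      (Matrix.of fun i i' : {i : Fin n // (t : ℕ) < ν i} => x ⟨i, ⟨t, i.2⟩⟩ i').det =
        g t * ∏ i : {i : Fin n // (t : ℕ) < ν i}, A i i := by
    intro t
    rw [← tri_det hA, ← Matrix.det_mul]
    congr 1
    ext i i'
    rw [Matrix.mul_apply]
    change ∑ j, z ⟨i, ⟨t, i.2⟩⟩ j * A j i' =
      ∑ j : {i : Fin n // (t : ℕ) < ν i}, z ⟨i, ⟨t, i.2⟩⟩ j * A j i'
    rw [← Finset.sum_subtype (Finset.univ.filter fun j => (t : ℕ) < ν j) (by simp)
      fun j => z ⟨i, ⟨t, i.2⟩⟩ j * A j i']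
    symm
    refine Finset.sum_subset (Finset.subset_univ _) fun j _ hj => ?_
    have h1 : ¬ (t : ℕ) < ν j := fun h => hj (Finset.mem_filter.mpr ⟨Finset.mem_univ _, h⟩)
    have h2 : j < i' := by
      by_contra hge
      exact h1 (lt_of_lt_of_le i'.2 (hν (not_lt.mp hge)))
    rw [hA j i' h2, mul_zero]
  have hsD2 : s D = (c * ∏ i, A i i ^ ν i) * ∏ t, g t := by
    rw [hsD, Finset.prod_congr rfl fun t _ => hfac t, Finset.prod_mul_distrib,
      prod_level (le_sum ν) fun i => A i i]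
    ring
  -- the orders of the factors
  have hzr : ∀ p i, GR P 0 (z p i) := fun p => (hco (D p) (hD p) (z p) (hz p).symm).1
  have hzl : ∀ p, DerLog P (D p) → GR P 1 (z p i0) := fun p =>
    (hco (D p) (hD p) (z p) (hz p).symm).2
  have hg : ∀ t : Fin (∑ i, ν i), GR P ((if (t : ℕ) < ν i0 then δ P else 0) -
      (∑ i : {i : Fin n // (t : ℕ) < ν i}, if ¬ DerLog P (D ⟨i, ⟨t, i.2⟩⟩) then (1 : ℝ)
        else 0) * δ P) (g t) := by
    intro t
    have h1 := GR.det_column (P := P)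
      (M := Matrix.of fun i i' : {i : Fin n // (t : ℕ) < ν i} => z ⟨i, ⟨t, i.2⟩⟩ i')
      fun i j => hzr _ _
    have hsum0 : (0 : ℝ) ≤ ∑ i : {i : Fin n // (t : ℕ) < ν i},
        if ¬ DerLog P (D ⟨i, ⟨t, i.2⟩⟩) then (1 : ℝ) else 0 :=
      Finset.sum_nonneg fun i _ => by split_ifs <;> norm_num
    have hδ1 := hδ P hPX
    by_cases ht : (t : ℕ) < ν i0
    · rw [if_pos ht]
      by_cases hall : ∀ i : {i : Fin n // (t : ℕ) < ν i}, DerLog P (D ⟨i, ⟨t, i.2⟩⟩)
      · refine (h1.2 ⟨i0, ht⟩ fun i => hzl _ (hall i)).mono ?_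
        rw [Finset.sum_eq_zero fun i _ => by rw [if_neg (not_not.mpr (hall i))], zero_mul,
          sub_zero]
        exact hδ1.2
      · push Not at hall
        obtain ⟨i1, hi1⟩ := hall
        refine h1.1.mono ?_
        have h4 : (1 : ℝ) ≤ ∑ i : {i : Fin n // (t : ℕ) < ν i},
            if ¬ DerLog P (D ⟨i, ⟨t, i.2⟩⟩) then (1 : ℝ) else 0 := by
          refine le_trans ?_ (Finset.single_le_sum (f := fun i : {i : Fin n // (t : ℕ) < ν i} =>
            if ¬ DerLog P (D ⟨i, ⟨t, i.2⟩⟩) then (1 : ℝ) else 0) (fun j _ => by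
              split_ifs <;> norm_num) (Finset.mem_univ i1))
          rw [if_pos hi1]
        nlinarith [hδ1.1]
    · rw [if_neg ht]
      refine h1.1.mono ?_
      nlinarith [hδ1.1, mul_nonneg hsum0 hδ1.1]
  have hprod := hc.mul (GR.prod Finset.univ fun t _ => hg t)
  rw [← hsD2, Finset.sum_sub_distrib, ← Finset.sum_mul] at hprod
  have hcount : ∑ t : Fin (∑ i, ν i), (if (t : ℕ) < ν i0 then δ P else 0) = ν i0 * δ P := by
    rw [← Finset.sum_filter, Finset.sum_const, nsmul_eq_mul]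
    congr 2
    rw [Fin.card_filter_val_lt]
    exact min_eq_right (le_sum ν i0)
  have hn2 : (({a | ¬ DerLog P (D a)}.ncard : ℕ) : ℝ) = ∑ t : Fin (∑ i, ν i),
      ∑ i : {i : Fin n // (t : ℕ) < ν i}, if ¬ DerLog P (D ⟨i, ⟨t, i.2⟩⟩) then (1 : ℝ)
        else 0 := by
    rw [ncard_eq', sum_lev]
    refine Finset.sum_congr rfl fun t _ => Finset.sum_congr rfl fun i _ => ?_
    congr 1
  rw [hcount, ← hn2] at hprod
  refine hprod.mono (le_of_eq ?_)
  ring

end

end Pool.Agent.Zk28.TS
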