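import Pool.Agent.Zk28.TS.Act
import Pool.Agent.W602.GT.Defs

/-!
Orders of the relative invariants along a place.
-/

set_option autoImplicit false
set_option linter.unusedSectionVars false

open MvPolynomial Pool.Agent.Helper819.Apolar FF

namespace Pool.Agent.Zk28.TS

section

variable {k K : Type} [Field k] [Field K] [Algebra k K]

/-- `f` is zero, or of order at least `r`. -/
def GR (P : Place k K) (r : ℝ) (f : K) : Prop := f = 0 ∨ r ≤ (P.ord f : ℝ)

theorem GR.zero {P : Place k K} {r : ℝ} : GR P r 0 := Or.inl rfl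

theorem GR.mono {P : Place k K} {r r' : ℝ} {f : K} (h : GR P r f) (hr : r' ≤ r) : GR P r' f :=
  h.imp id fun h => le_trans hr h

theorem GR.add {P : Place k K} {r : ℝ} {f g : K} (hf : GR P r f) (hg : GR P r g) :
    GR P r (f + g) := by
  by_cases h0 : f + g = 0
  · exact Or.inl h0
  rcases hf with rfl | hf
  · rwa [zero_add]
  rcases hg with rfl | hg
  · rw [add_zero]; exact Or.inr hf
  by_cases hf0 : f = 0
  · rw [hf0, zero_add]; exact Or.inr hg
  by_cases hg0 : g = 0
  · rw [hg0, add_zero]; exact Or.inr hf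
  refine Or.inr ?_
  have h1 := P.ord_add hf0 hg0 h0
  rcases min_le_iff.mp h1 with h | h
  · exact le_trans hf (by exact_mod_cast h)
  · exact le_trans hg (by exact_mod_cast h)

theorem GR.sum {P : Place k K} {r : ℝ} {ι : Type*} (A : Finset ι) {f : ι → K}
    (h : ∀ i ∈ A, GR P r (f i)) : GR P r (∑ i ∈ A, f i) := by
  classical
  induction A using Finset.induction_on with
  | empty => exact GR.zero
  | insert i A hi ih =>
    rw [Finset.sum_insert hi]
    exact (h i (Finset.mem_insert_self i A)).add (ih fun j hj => h j (Finset.mem_insert_of_mem hj))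

theorem GR.mul {P : Place k K} {r r' : ℝ} {f g : K} (hf : GR P r f) (hg : GR P r' g) :
    GR P (r + r') (f * g) := by
  rcases hf with rfl | hf
  · rw [zero_mul]; exact GR.zero
  rcases hg with rfl | hg
  · rw [mul_zero]; exact GR.zero
  by_cases hf0 : f = 0
  · rw [hf0, zero_mul]; exact GR.zero
  by_cases hg0 : g = 0
  · rw [hg0, mul_zero]; exact GR.zero
  refine Or.inr ?_
  rw [P.ord_mul hf0 hg0]
  push_cast
  linarith

theorem GR.one {P : Place k K} : GR P 0 (1 : K) := Or.inr (by rw [P.ord_one]; simp)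

theorem GR.prod {P : Place k K} {ι : Type*} (A : Finset ι) {r : ι → ℝ} {f : ι → K}
    (h : ∀ i ∈ A, GR P (r i) (f i)) : GR P (∑ i ∈ A, r i) (∏ i ∈ A, f i) := by
  classical
  induction A using Finset.induction_on with
  | empty => rw [Finset.prod_empty, Finset.sum_empty]; exact GR.one
  | insert i A hi ih =>
    rw [Finset.prod_insert hi, Finset.sum_insert hi]
    exact (h i (Finset.mem_insert_self i A)).mul (ih fun j hj => h j (Finset.mem_insert_of_mem hj))

theorem GR.pow {P : Place k K} {r : ℝ} {f : K} (h : GR P r f) (N : ℕ) :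
    GR P (N * r) (f ^ N) := by
  have h1 := GR.prod (P := P) (Finset.range N) (r := fun _ => r) (f := fun _ => f) fun _ _ => h
  simpa using h1

theorem GR.det {P : Place k K} {n : ℕ} {A : Matrix (Fin n) (Fin n) K}
    (h : ∀ i j, GR P 0 (A i j)) : GR P 0 A.det := by
  rw [Matrix.det_apply]
  refine GR.sum _ fun σ _ => ?_
  have h1 : GR P 0 (∏ i, A (σ i) i) := by
    simpa using GR.prod (P := P) Finset.univ (r := fun _ => 0) (f := fun i => A (σ i) i)
      fun i _ => h _ _
  rcases Int.units_eq_one_or (Equiv.Perm.sign σ) with h2 | h2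
  · rw [h2, one_smul]; exact h1
  · rw [h2, Units.neg_smul, one_smul]
    rcases h1 with h1 | h1
    · rw [h1, neg_zero]; exact GR.zero
    · refine Or.inr ?_
      rw [P.ord_neg]
      exact h1

end

section

variable {K : Type} [Field K] [CharZero K] {n m : ℕ} {S : Type}

theorem pr_map {σ : Type} {k' : Type} [Field k'] (φ : k' →+* K) (f g : MvPolynomial σ k') :
    pr (map φ f) (map φ g) = φ (pr f g) := by
  unfold pr
  rw [support_map_of_injective _ φ.injective, map_sum]
  refine Finset.sum_congr rfl fun i _ => ?_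
  rw [coeff_map, coeff_map, map_mul, map_mul, map_natCast]

theorem map_dt {k' : Type} [Field k'] (φ : k' →+* K) : map φ (dt n k') = dt n K := by
  unfold dt
  rw [RingHom.map_det]
  congr 1
  ext1 i j
  simp [Matrix.mvPolynomialX]

theorem rho_map {k' : Type} [Field k'] [CharZero k'] (φ : k' →+* K) (N : ℕ)
    (p : MvPolynomial (Fin n × Fin n) k') : rho N (map φ p) = φ (rho N p) := by
  unfold rho cw
  rw [map_div₀, ← pr_map, ← pr_map, map_pow, map_dt]

/-- The functional vanishes on monomials whose degree in a row is not `N`. -/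
theorem rho_row {ι : Type*} (A : Finset ι) (r c : ι → Fin n) (N : ℕ) (i0 : Fin n)
    (h : rho N (∏ j ∈ A, (X (r j, c j) : MvPolynomial (Fin n × Fin n) K)) ≠ 0) :
    (A.filter fun j => r j = i0).card = N := by
  classical
  let B : Matrix (Fin n) (Fin n) K := Matrix.diagonal fun i => if i = i0 then 2 else 1
  have h1 : Lsub B (∏ j ∈ A, (X (r j, c j) : MvPolynomial (Fin n × Fin n) K)) =
      C (2 ^ (A.filter fun j => r j = i0).card) * ∏ j ∈ A, X (r j, c j) := by
    rw [map_prod]
    have h2 : ∀ j, Lsub B (X (r j, c j) : MvPolynomial (Fin n × Fin n) K) =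
        C (if r j = i0 then 2 else 1) * X (r j, c j) := by
      intro j
      unfold Lsub
      rw [bind₁_X_right, Finset.sum_eq_single (r j)]
      · simp only [B, Matrix.diagonal_apply_eq]
      · intro l _ hl
        simp only [B, Matrix.diagonal_apply_ne' _ hl, map_zero, zero_mul]
      · intro h0
        exact absurd (Finset.mem_univ _) h0
    rw [Finset.prod_congr rfl fun j _ => h2 j, Finset.prod_mul_distrib, ← map_prod,
      Finset.prod_ite, Finset.prod_const_one, mul_one, Finset.prod_const]
  have h2 : B.det = 2 := by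
    simp only [B, Matrix.det_diagonal, Finset.prod_ite_eq', Finset.mem_univ, if_true]
  have h3 := rho_Lsub N B (∏ j ∈ A, (X (r j, c j) : MvPolynomial (Fin n × Fin n) K))
  rw [h1, rho_smul, h2] at h3
  have h4 := mul_right_cancel₀ h h3
  have h5 : (2 : ℕ) ^ (A.filter fun j => r j = i0).card = 2 ^ N := by exact_mod_cast h4
  exact Nat.pow_right_injective le_rfl h5

variable {k : Type} [Field k] [CharZero k] [Algebra k K]

/-- The order of the relative invariants. -/
theorem Qv_ord (P : Place k K) {δ : ℝ} (i0 : Fin n) (v : S → (Fin m → Fin n) → K)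
    (hv : ∀ s J, GR P (-(δ * ((Finset.univ.filter fun a => J a = i0).card : ℝ))) (v s J))
    (N q : ℕ) (l : Fin q → S × (Fin m → Fin n)) : GR P (-(δ * N)) (Qv v N q l) := by
  classical
  unfold Qv
  have h1 : ∏ i, PP v (l i) = ∑ L : Fin q → (Fin m → Fin n),
      C (∏ i, v (l i).1 (L i)) * ∏ p : Fin q × Fin m, X (L p.1 p.2, (l p.1).2 p.2) := by
    unfold PP ta
    rw [Finset.prod_univ_sum, Fintype.piFinset_univ]
    refine Finset.sum_congr rfl fun L _ => ?_
    rw [Finset.prod_mul_distrib, map_prod, mul_comm, Fintype.prod_prod_type]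
    rfl
  rw [h1, rho_sum]
  refine GR.sum _ fun L _ => ?_
  rw [rho_smul]
  by_cases h0 : rho N (∏ p : Fin q × Fin m,
      (X (L p.1 p.2, (l p.1).2 p.2) : MvPolynomial (Fin n × Fin n) K)) = 0
  · rw [h0, mul_zero]; exact GR.zero
  have h2 := rho_row Finset.univ (fun p : Fin q × Fin m => L p.1 p.2)
    (fun p => (l p.1).2 p.2) N i0 h0
  have h3 : GR P 0 (rho N (∏ p : Fin q × Fin m,
      (X (L p.1 p.2, (l p.1).2 p.2) : MvPolynomial (Fin n × Fin n) K))) := by
    have h4 : (∏ p : Fin q × Fin m,
        (X (L p.1 p.2, (l p.1).2 p.2) : MvPolynomial (Fin n × Fin n) K)) =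
        map (algebraMap k K) (∏ p : Fin q × Fin m, X (L p.1 p.2, (l p.1).2 p.2)) := by
      rw [map_prod]
      exact Finset.prod_congr rfl fun p _ => (map_X _ _).symm
    rw [h4, rho_map]
    refine Or.inr ?_
    rw [P.ord_const]
    · simp
    · intro h5
      rw [h4, rho_map, h5, map_zero] at h0
      exact h0 rfl
  have h4 : GR P (∑ i, -(δ * ((Finset.univ.filter fun a => L i a = i0).card : ℝ)))
      (∏ i, v (l i).1 (L i)) := GR.prod _ fun i _ => hv _ _
  have h5 : ∑ i, -(δ * ((Finset.univ.filter fun a => L i a = i0).card : ℝ)) = -(δ * N) := by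
    rw [Finset.sum_neg_distrib, ← Finset.mul_sum, ← h2]
    congr 2
    rw [Finset.card_filter, Fintype.sum_prod_type]
    push_cast
    refine Finset.sum_congr rfl fun i _ => ?_
    rw [Finset.card_filter]
    push_cast
    rfl
  rw [h5] at h4
  have h6 := h4.mul h3
  rwa [add_zero] at h6

end

end Pool.Agent.Zk28.TS
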