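import Pool.Agent.W240.PG.Frame
import Pool.Agent.W762.PG.PRES
import Pool.Agent.W73.PG.PULL
import Pool.Agent.W824.PG.Many
import Pool.Agent.Zk28.TS.Defs
import Pool.Agent.Zk28.TS.Ord

/-!
Frames of vector fields.
-/

set_option autoImplicit false
set_option linter.unusedSectionVars false

open FF Pool.Agent.W602.GT

namespace Pool.Agent.Zk28.TS

variable {K : Type} [Field K] [Algebra ℂ K]

/-- A frame with coordinates. -/
def Fr {n : ℕ} (y : Fin n → K) (E : Fin n → Derivation ℂ K K) : Prop :=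
  (∀ i j, E i (y j) = if i = j then 1 else 0) ∧ ∀ D : Derivation ℂ K K, ∑ i, D (y i) • E i = D

theorem der_sum {n : ℕ} (c : Fin n → K) (E : Fin n → Derivation ℂ K K) (A : Finset (Fin n))
    (f : K) : (∑ i ∈ A, c i • E i) f = ∑ i ∈ A, c i * E i f := by
  classical
  induction A using Finset.induction_on with
  | empty => rfl
  | insert a s ha ih =>
    rw [Finset.sum_insert ha, Finset.sum_insert ha, ← ih]
    rfl

theorem Fr.indep {n : ℕ} {y : Fin n → K} {E : Fin n → Derivation ℂ K K} (h : Fr y E) :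
    LinearIndependent K E := by
  rw [Fintype.linearIndependent_iff]
  intro g hg i
  have h1 : (∑ j, g j • E j) (y i) = 0 := by rw [hg]; rfl
  rw [der_sum] at h1
  simpa [h.1] using h1

theorem Fr.span {n : ℕ} {y : Fin n → K} {E : Fin n → Derivation ℂ K K} (h : Fr y E) :
    Submodule.span K (Set.range E) = ⊤ := by
  rw [eq_top_iff]
  intro D _
  rw [← h.2 D]
  exact Submodule.sum_mem _ fun i _ => Submodule.smul_mem _ _ (Submodule.subset_span ⟨i, rfl⟩)

theorem Fr.basis {n : ℕ} {y : Fin n → K} {E : Fin n → Derivation ℂ K K} (h : Fr y E) :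
    Nonempty (Module.Basis (Fin n) K (Derivation ℂ K K)) :=
  ⟨Module.Basis.mk h.indep h.span.ge⟩

theorem Fr.finite {n : ℕ} {y : Fin n → K} {E : Fin n → Derivation ℂ K K} (h : Fr y E) :
    Module.Finite K (Derivation ℂ K K) :=
  Module.Finite.of_basis h.basis.some

theorem Fr.finrank {n : ℕ} {y : Fin n → K} {E : Fin n → Derivation ℂ K K} (h : Fr y E) :
    Module.finrank K (Derivation ℂ K K) = n := by
  rw [Module.finrank_eq_card_basis h.basis.some, Fintype.card_fin]

theorem exists_fr {n : ℕ} (htr : Algebra.trdeg ℂ K = n) :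
    ∃ (y : Fin n → K) (E : Fin n → Derivation ℂ K K), Fr y E := by
  obtain ⟨s, hs⟩ := exists_isTranscendenceBasis ℂ K
  have h1 : Cardinal.mk s = n := by rw [hs.cardinalMk_eq_trdeg, htr]
  have h2 : Nonempty (s ≃ Fin n) := by
    rw [← Cardinal.lift_mk_eq'.{0, 0}]
    simpa using h1
  obtain ⟨e⟩ := h2
  let y : Fin n → K := fun i => (e.symm i : K)
  have hy : IsTranscendenceBasis ℂ y := by
    have h3 := hs.comp_equiv e.symm
    exact h3
  choose E hE using fun j => Pool.Agent.W619.PQ.exists_dual (k := ℂ) y hy j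
  have hE' : ∀ i j, E i (y j) = if i = j then 1 else 0 := by
    intro i j
    rw [hE i j]
    simp only [eq_comm]
  exact ⟨y, E, hE', fun D => Pool.Agent.W73.PG.PULL.expand y hy E hE' D⟩

/-- Frames at a prime divisor. -/
theorem frame_at {n : ℕ} [Algebra.EssFiniteType ℂ K] (htr : Algebra.trdeg ℂ K = n)
    {P : Place ℂ K} (hP : Divisorial n P) :
    ∃ (y : Fin n → K) (E : Fin n → Derivation ℂ K K) (i0 : Fin n), Fr y E ∧
      (∀ i, P.Reg (y i)) ∧ P.ord (y i0) = 1 ∧ (∀ i, DerReg P (E i)) ∧
      ∀ i, i ≠ i0 → DerLog P (E i) := by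
  obtain ⟨y, E, i0, hy, hE, hi0, hyr, hpres⟩ := Pool.Agent.W240.PG.Frame.main.{0, 0}
    Pool.Agent.W762.PG.main ℂ K n htr
    (fun y hy => Pool.Agent.W824.PG.fin_adj inferInstance y hy) P hP
  refine ⟨y, E, i0, ⟨hE, fun D => Pool.Agent.W73.PG.PULL.expand y hy E hE D⟩, hyr, hi0, hpres,
    fun i hi f => ?_⟩
  have h0 : y i0 ≠ 0 := by
    intro h0
    rw [h0, P.ord_zero] at hi0
    omega
  refine Pool.Agent.W619.TW.log_of_pres P (E i) (hpres i) h0 hi0 ?_ f
  rw [hE, if_neg hi, zero_div]
  exact P.reg_zero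

theorem GR_of_reg {P : Place ℂ K} {f : K} (h : P.Reg f) : GR P 0 f :=
  h.imp id fun h => by exact_mod_cast h

/-- The value of a tensor on linear combinations. -/
theorem tensor_expand {n m : ℕ} (s : Tensor K m) (A : Matrix (Fin n) (Fin n) K)
    (D : Fin n → Derivation ℂ K K) (I : Fin m → Fin n) :
    s (fun a => ∑ j, A (I a) j • D j) = ta A.transpose (fun J => s fun a => D (J a)) I := by
  rw [MultilinearMap.map_sum]
  unfold ta
  refine Finset.sum_congr rfl fun J _ => ?_
  rw [MultilinearMap.map_smul_univ s (fun a => A (I a) (J a)) (fun a => D (J a)), smul_eq_mul]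
  rfl

open scoped Classical in
theorem ncard_eq {m : ℕ} (p : Fin m → Prop) :
    (({a | p a}.ncard : ℕ) : ℝ) = ∑ a, if p a then (1 : ℝ) else 0 := by
  rw [Set.ncard_eq_toFinset_card', Finset.sum_boole]
  congr 2
  ext a
  simp

/-- The sections given by relative invariants. -/
theorem section_Qv {n m : ℕ} [Algebra.EssFiniteType ℂ K] (htr : Algebra.trdeg ℂ K = n)
    {X : Set (Place ℂ K)} {δ : Place ℂ K → ℝ} (hδ : ∀ P ∈ X, 0 ≤ δ P) {S : Type}
    (s : S → Tensor K m) (hs : ∀ i, Adapted n X δ (s i)) [CharZero K] (N q : ℕ)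
    (l : Fin q → S × (Fin m → Fin n)) :
    IsSection n X δ N fun D => Qv (fun i J => s i fun a => D (J a)) N q l := by
  classical
  have hplu : IsPluri N fun D : Fin n → Derivation ℂ K K =>
      Qv (fun i J => s i fun a => D (J a)) N q l := by
    intro A D
    have h1 : (fun (i : S) (J : Fin m → Fin n) => s i fun a => ∑ j, A (J a) j • D j) =
        fun i => ta A.transpose (fun J => s i fun a => D (J a)) := by
      funext i J
      exact tensor_expand (s i) A D J
    change Qv (fun i J => s i fun a => ∑ j, A (J a) j • D j) N q l = _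
    rw [h1, Qv_act, Matrix.det_transpose]
  refine ⟨hplu, fun P hPX hP D hD => ?_⟩
  obtain ⟨y, E, i0, hF, hyr, hi0, hreg, hlog⟩ := frame_at htr hP
  have h1 := hplu (Matrix.of fun i j => D i (y j)) E
  have h2 : (fun i => ∑ j, (Matrix.of fun i j => D i (y j)) i j • E j) = D := by
    funext i
    exact hF.2 (D i)
  rw [h2] at h1
  have h3 : GR P 0 (Matrix.of fun i j => D i (y j)).det :=
    GR.det fun i j => GR_of_reg (hD i _ (hyr j))
  have h4 : GR P (-(δ P * N)) (Qv (fun i J => s i fun a => E (J a)) N q l) := by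
    refine Qv_ord P i0 _ (fun i J => ?_) N q l
    refine GR.mono (hs i P hPX hP (fun a => E (J a)) fun a => hreg _) ?_
    rw [ncard_eq, neg_le_neg_iff, mul_comm (δ P)]
    refine mul_le_mul_of_nonneg_right ?_ (hδ P hPX)
    rw [← Finset.sum_boole]
    refine Finset.sum_le_sum fun a _ => ?_
    by_cases h : J a = i0
    · rw [if_pos h]
      split_ifs <;> norm_num
    · rw [if_neg h, if_neg]
      exact fun h' => h' (hlog _ h)
  have h5 := (h3.pow N).mul h4
  rw [mul_zero, zero_add, mul_comm (δ P)] at h5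
  have h6 : GR P (-(N * δ P)) (Qv (fun i J => s i fun a => D (J a)) N q l) := by
    beta_reduce at h1
    rw [h1]
    exact h5
  exact h6

end Pool.Agent.Zk28.TS
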