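import Pool.Agent.Zk28.TS.Rat

/-!
Rational destabilizing flags for families of tensors over the algebraic closure which are stable under
the Galois group.
-/

set_option autoImplicit false
set_option linter.unusedSectionVars false

namespace Pool.Agent.Zk28.TS

section

variable {K : Type} [Field K] [CharZero K] {n m : ℕ} {S : Type}

/-- If all relative invariants of positive weight vanish at a Galois-stable family of tensors over the
algebraic closure, there is a short weight over `K`. -/
theorem exists_short_gal {F : Type} [Field F] [CharZero F] [Algebra K F] [IsGalois K F]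
    [IsAlgClosed F] (hm : 1 ≤ m) (v : S → (Fin m → Fin n) → F)
    (hgal : ∀ (σ : F ≃ₐ[K] F) (s : S), ∃ s', ∀ J, v s' J = σ (v s J))
    (h : ∀ N, 1 ≤ N → ∀ (q : ℕ) (l : Fin q → S × (Fin m → Fin n)), Qv v N q l = 0) :
    ∃ (c : Fin n → Fin n → K) (w : Fin n → ℝ), LinearIndependent K c ∧
      (∀ s (I : Fin m → Fin n), tm (v s) (fun a j => algebraMap K F (c (I a) j)) ≠ 0 →
        1 ≤ ∑ a, w (I a)) ∧ sq w * m ^ 2 < n := by
  classical
  obtain ⟨κ, _, ψ, g, y, hg, hy0, hy⟩ := unstable_res v h
  obtain ⟨g', hg', hsupp⟩ := exists_closed F v ψ g hg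
  let P : Set (MultilinearMap F (fun _ : Fin m => Fin n → F) F) := Set.range fun s => tm (v s)
  let b : Fin n → Fin n → F := fun i j => g' j i
  have hb : LinearIndependent F b := by
    have h1 : (Matrix.of b).det ≠ 0 := by
      have : Matrix.of b = g'.transpose := rfl
      rw [this, Matrix.det_transpose]
      exact hg'
    exact Matrix.linearIndependent_rows_of_det_ne_zero (A := Matrix.of b) h1
  have hbs : ∀ I ∈ supp P b, ∑ a, ((y (I a) : ℚ) : ℝ) ≤ 0 := by
    rintro I ⟨_, ⟨s, rfl⟩, hI⟩
    have h1 : ta g' (fun J => algebraMap F F (v s J)) I ≠ 0 := by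
      have h2 := tm_frame (v s) b I
      intro h0
      apply hI
      change tm (v s) (fun a => b (I a)) = 0
      rw [h2]
      exact h0
    obtain ⟨s', hs'⟩ := hsupp s I h1
    have h2 := hy s' I hs'
    exact_mod_cast h2
  obtain ⟨w1, hw1, hw1'⟩ := exists_short (P := P) (b := b) hm (y := fun i => ((y i : ℚ) : ℝ))
    (by exact_mod_cast hy0) hbs
  obtain ⟨b2, w, hopt⟩ := exists_opt hm P hb
  have hw : sq w * m ^ 2 < n :=
    lt_of_le_of_lt (mul_le_mul_of_nonneg_right (hopt.2.2 b w1 hb hw1) (sq_nonneg _)) hw1'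
  have hfl : ∀ (σ : F ≃ₐ[K] F) (t : ℝ), ∀ x ∈ fl F b2 w t, (fun i => σ (x i)) ∈ fl F b2 w t := by
    intro σ t x hx
    refine hopt.invariant (by simp) σ.toRingEquiv (fun x i => σ (x i)) (fun x y => ?_)
      (fun a x => ?_) (fun x hx => ?_) ?_ t hx
    · funext i; exact map_add σ _ _
    · funext i; exact map_mul σ _ _
    · funext i
      have := congrFun hx i
      exact (map_eq_zero σ).mp this
    · rintro _ ⟨s, rfl⟩ u hu
      obtain ⟨s', hs'⟩ := hgal σ.symm s
      refine ⟨_, ⟨s', rfl⟩, fun h0 => hu ?_⟩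
      have h1 : tm (v s) (fun a i => σ (u a i)) = σ (tm (v s') u) := by
        rw [tm_apply, tm_apply, map_sum]
        refine Finset.sum_congr rfl fun J _ => ?_
        rw [map_mul, map_prod, hs', AlgEquiv.apply_symm_apply]
      change tm (v s) (fun a i => σ (u a i)) = 0
      rw [h1]
      change σ ((fun s => tm (v s)) s' u) = 0
      rw [h0, map_zero]
  obtain ⟨c, hc, hcfl, hcF⟩ := exists_rat (K := K) hopt.1 hfl
  refine ⟨c, w, hc, ?_, hw⟩
  have h3 : Good P (fun i j => algebraMap K F (c i j)) w := hopt.2.1.transfer hcfl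
  exact fun s I hI => h3 I ⟨_, ⟨s, rfl⟩, hI⟩

end

end Pool.Agent.Zk28.TS
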