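import Pool.Agent.Zk28.TS.Frame

/-!
Frames at a prime divisor which are adapted to a flag.
-/

set_option autoImplicit false
set_option linter.unusedSectionVars false

open FF Pool.Agent.W602.GT

namespace Pool.Agent.Zk28.TS

section

variable {k K : Type} [Field k] [Field K] [Algebra k K]

/-- Lower triangular reduction to a matrix which is invertible over the valuation ring. -/
theorem hermite (P : Place k K) : ∀ (n : ℕ) (B : Matrix (Fin n) (Fin n) K), B.det ≠ 0 →
    ∃ A U : Matrix (Fin n) (Fin n) K, (∀ i j, i < j → A i j = 0) ∧ (∀ i j, GR P 0 (U i j)) ∧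
      U.det ≠ 0 ∧ P.ord U.det = 0 ∧ A * B = U
  | 0, B, _ => ⟨1, 1, fun i => i.elim0, fun i => i.elim0, by simp, by simp [P.ord_one], by
      ext i; exact i.elim0⟩
  | n + 1, B, hB => by
    classical
    -- the pivot
    have hne : (Finset.univ.filter fun j => B 0 j ≠ 0).Nonempty := by
      by_contra h
      rw [Finset.not_nonempty_iff_eq_empty, Finset.filter_eq_empty_iff] at h
      refine hB (Matrix.det_eq_zero_of_row_eq_zero 0 fun j => ?_)
      by_contra h1
      exact h (Finset.mem_univ j) h1
    obtain ⟨j0, hj0, hmin⟩ := Finset.exists_min_image _ (fun j => P.ord (B 0 j)) hne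
    set p : K := B 0 j0 with hp
    have hp0 : p ≠ 0 := (Finset.mem_filter.mp hj0).2
    have hreg : ∀ j, GR P 0 (B 0 j / p) := by
      intro j
      by_cases h : B 0 j = 0
      · left; rw [h, zero_div]
      · right
        rw [P.ord_div h hp0]
        have h1 := hmin j (Finset.mem_filter.mpr ⟨Finset.mem_univ _, h⟩)
        have h2 : 0 ≤ P.ord (B 0 j) - P.ord p := by linarith
        exact_mod_cast h2
    let B1 : Matrix (Fin n) (Fin n) K := Matrix.of fun i j =>
      B i.succ (j0.succAbove j) - B i.succ j0 * (B 0 (j0.succAbove j) / p)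
    have hB1 : B1.det ≠ 0 := by
      let cc : Fin (n + 1) → K := Fin.cons 0 fun i => -(B i.succ j0 / p)
      let M : Matrix (Fin (n + 1)) (Fin (n + 1)) K := Matrix.of fun i j => B i j + cc i * B 0 j
      have h1 : M.det = B.det := Matrix.det_eq_of_forall_row_eq_smul_add_const cc 0 (by
        simp [cc]) (fun i j => rfl)
      have h2 : M.det = (-1) ^ (0 + (j0 : ℕ)) * p * B1.det := by
        rw [Matrix.det_succ_column M j0, Finset.sum_eq_single 0]
        · congr 1
          · congr 1
            change B 0 j0 + cc 0 * B 0 j0 = p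
            simp [cc, hp]
          · congr 1
            ext i j
            change B (Fin.succAbove 0 i) (j0.succAbove j) +
              cc (Fin.succAbove 0 i) * B 0 (j0.succAbove j) = _
            rw [Fin.succAbove_zero]
            change B i.succ (j0.succAbove j) + -(B i.succ j0 / p) * B 0 (j0.succAbove j) =
              B i.succ (j0.succAbove j) - B i.succ j0 * (B 0 (j0.succAbove j) / p)
            ring
        · intro i _ hi
          obtain ⟨i', rfl⟩ := Fin.exists_succ_eq_of_ne_zero hi
          have h3 : M i'.succ j0 = 0 := by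
            change B i'.succ j0 + -(B i'.succ j0 / p) * B 0 j0 = 0
            rw [← hp]
            field_simp
            ring
          rw [h3, mul_zero, zero_mul]
        · intro h
          exact absurd (Finset.mem_univ _) h
      intro h0
      rw [h0, mul_zero, h1] at h2
      exact hB h2
    obtain ⟨A1, U1, hA1, hU1, hdet1, hord1, hmul⟩ := hermite P n B1 hB1
    let A : Matrix (Fin (n + 1)) (Fin (n + 1)) K := Matrix.of fun i => Fin.cases
      (motive := fun _ => Fin (n + 1) → K) (fun j => if j = 0 then p⁻¹ else 0)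
      (fun i' => Fin.cons (-(∑ k, A1 i' k * B k.succ j0) / p) (fun j => A1 i' j)) i
    have hA0 : ∀ j, A 0 j = if j = 0 then p⁻¹ else 0 := fun j => rfl
    have hAs0 : ∀ i : Fin n, A i.succ 0 = -(∑ k, A1 i k * B k.succ j0) / p := fun i => rfl
    have hAss : ∀ i j : Fin n, A i.succ j.succ = A1 i j := fun i j => rfl
    have hU0 : ∀ j, (A * B) 0 j = B 0 j / p := by
      intro j
      rw [Matrix.mul_apply, Finset.sum_eq_single 0]
      · rw [hA0, if_pos rfl, div_eq_inv_mul]
      · intro i _ hi
        rw [hA0, if_neg hi, zero_mul]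
      · intro h
        exact absurd (Finset.mem_univ _) h
    have hUs : ∀ (i : Fin n) j, (A * B) i.succ j =
        ∑ k, A1 i k * (B k.succ j - B k.succ j0 * (B 0 j / p)) := by
      intro i j
      rw [Matrix.mul_apply, Fin.sum_univ_succ, hAs0]
      simp only [hAss]
      rw [neg_div, Finset.sum_div, neg_mul, Finset.sum_mul, ← sub_eq_neg_add,
        ← Finset.sum_sub_distrib]
      refine Finset.sum_congr rfl fun k _ => ?_
      ring
    have hUj0 : ∀ i : Fin n, (A * B) i.succ j0 = 0 := by
      intro i
      rw [hUs]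
      refine Finset.sum_eq_zero fun k _ => ?_
      rw [← hp, div_self hp0, mul_one, sub_self, mul_zero]
    have hUsa : ∀ i j : Fin n, (A * B) i.succ (j0.succAbove j) = U1 i j := by
      intro i j
      rw [hUs, ← hmul, Matrix.mul_apply]
      rfl
    have hdet : (A * B).det = (-1) ^ (0 + (j0 : ℕ)) * U1.det := by
      rw [Matrix.det_succ_column (A * B) j0, Finset.sum_eq_single 0]
      · rw [hU0, ← hp, div_self hp0, mul_one]
        congr 1
        congr 1
        ext i j
        change (A * B) (Fin.succAbove 0 i) (j0.succAbove j) = _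
        rw [Fin.succAbove_zero, hUsa]
      · intro i _ hi
        obtain ⟨i', rfl⟩ := Fin.exists_succ_eq_of_ne_zero hi
        rw [hUj0, mul_zero, zero_mul]
      · intro h
        exact absurd (Finset.mem_univ _) h
    have hpm : (-1 : K) ^ (0 + (j0 : ℕ)) ≠ 0 := pow_ne_zero _ (neg_ne_zero.mpr one_ne_zero)
    refine ⟨A, A * B, ?_, ?_, ?_, ?_, rfl⟩
    · intro i j hij
      have hj : j ≠ 0 := by
        rintro rfl
        exact absurd hij (Fin.not_lt_zero i)
      obtain ⟨j', rfl⟩ := Fin.exists_succ_eq_of_ne_zero hj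
      by_cases hi : i = 0
      · rw [hi, hA0, if_neg hj]
      · obtain ⟨i', rfl⟩ := Fin.exists_succ_eq_of_ne_zero hi
        rw [hAss]
        exact hA1 i' j' (Fin.succ_lt_succ_iff.mp hij)
    · intro i j
      by_cases hi : i = 0
      · rw [hi, hU0]
        exact hreg j
      · obtain ⟨i', rfl⟩ := Fin.exists_succ_eq_of_ne_zero hi
        by_cases hj : j = j0
        · rw [hj, hUj0]
          exact GR.zero
        · obtain ⟨j', rfl⟩ := Fin.exists_succAbove_eq hj
          rw [hUsa]
          exact hU1 i' j'
    · rw [hdet]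
      exact mul_ne_zero hpm hdet1
    · rw [hdet, P.ord_mul hpm hdet1, hord1, P.ord_pow, P.ord_neg_one]
      simp

/-- Solutions of linear equations over the valuation ring. -/
theorem solve_reg {P : Place k K} {n : ℕ} {U : Matrix (Fin n) (Fin n) K}
    (hU : ∀ i j, GR P 0 (U i j)) (h0 : U.det ≠ 0) (h1 : P.ord U.det = 0) {x d : Fin n → K}
    (hd : ∀ j, GR P 0 (d j)) (hx : ∀ j, ∑ i, x i * U i j = d j) (i : Fin n) : GR P 0 (x i) := by
  classical
  have h2 : x i * U.det = ∑ j, d j * U.adjugate j i := by
    have h3 : Matrix.vecMul x U = d := by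
      funext j
      exact hx j
    have h4 : Matrix.vecMul (Matrix.vecMul x U) U.adjugate = U.det • x := by
      rw [Matrix.vecMul_vecMul, Matrix.mul_adjugate, Matrix.vecMul_smul, Matrix.vecMul_one]
    rw [h3] at h4
    have h5 := congrFun h4 i
    rw [Pi.smul_apply, smul_eq_mul] at h5
    rw [mul_comm, ← h5]
    rfl
  have hadj : ∀ j, GR P 0 (U.adjugate j i) := by
    intro j
    rw [Matrix.adjugate_apply]
    refine GR.det fun i' j' => ?_
    by_cases h : i' = i
    · subst h
      rw [Matrix.updateRow_self]
      by_cases h6 : j' = j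
      · subst h6
        rw [Pi.single_eq_same]
        exact GR.one
      · rw [Pi.single_eq_of_ne h6]
        exact GR.zero
    · rw [Matrix.updateRow_ne h]
      exact hU _ _
  have h3 : GR P 0 (x i * U.det) := by
    rw [h2]
    refine GR.sum _ fun j _ => ?_
    simpa using (hd j).mul (hadj j)
  rcases h3 with h3 | h3
  · exact Or.inl ((mul_eq_zero.mp h3).resolve_right h0)
  · by_cases hx0 : x i = 0
    · exact Or.inl hx0
    · right
      rw [P.ord_mul hx0 h0, h1, add_zero] at h3
      exact h3

end

section

variable {K : Type} [Field K] [Algebra ℂ K]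

/-- Frames at a prime divisor which are adapted to a flag. -/
theorem flag_frame {n : ℕ} [Algebra.EssFiniteType ℂ K] (htr : Algebra.trdeg ℂ K = n)
    {P : Place ℂ K} (hP : Divisorial n P) {b : Fin n → Derivation ℂ K K}
    (hb : LinearIndependent K b) :
    ∃ (A : Fin n → Fin n → K) (i0 : Fin n), (∀ i j, i < j → A i j = 0) ∧
      (Matrix.of A).det ≠ 0 ∧ (∀ i, DerReg P (∑ j, A i j • b j)) ∧
      (∀ i, i ≠ i0 → DerLog P (∑ j, A i j • b j)) ∧
      ∀ D, DerReg P D → ∀ x : Fin n → K, D = ∑ i, x i • (∑ j, A i j • b j) →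
        (∀ i, GR P 0 (x i)) ∧ (DerLog P D → GR P 1 (x i0)) := by
  classical
  obtain ⟨y, E, i0', hF, hyr, hi0, hreg, hlog⟩ := frame_at htr hP
  set τ : K := y i0' with hτ
  have hτ0 : τ ≠ 0 := by
    intro h0
    rw [h0, P.ord_zero] at hi0
    omega
  have hdet : (Matrix.of fun i j => b i (y j)).det ≠ 0 := by
    have h1 : LinearIndependent K (Matrix.of fun i j => b i (y j)).row := by
      rw [Fintype.linearIndependent_iff] at hb ⊢
      intro g hg i
      refine hb g ?_ i
      rw [← hF.2 (∑ i, g i • b i)]
      refine Finset.sum_eq_zero fun j _ => ?_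
      have h2 := congrFun hg j
      rw [der_sum]
      rw [Finset.sum_apply] at h2
      have h3 : ∑ i, g i * b i (y j) = 0 := h2
      rw [h3, zero_smul]
    exact ((Matrix.isUnit_iff_isUnit_det _).mp
      (Matrix.linearIndependent_rows_iff_isUnit.mp h1)).ne_zero
  obtain ⟨A0, U0, hA0, hU0, hdU, hoU, hmul⟩ := hermite P n _ hdet
  -- the first vector which is not tangent
  have hex : (Finset.univ.filter fun i => ¬ GR P 1 (U0 i i0')).Nonempty := by
    by_contra h
    rw [Finset.not_nonempty_iff_eq_empty, Finset.filter_eq_empty_iff] at h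
    have h1 : ∀ i, GR P 1 (U0 i i0') := fun i => by
      by_contra h2
      exact h (Finset.mem_univ i) h2
    have h2 : GR P 1 U0.det := by
      rw [Matrix.det_apply]
      refine GR.sum _ fun σ _ => ?_
      have h4 : GR P 1 (∏ i, U0 (σ i) i) := by
        rw [← Finset.mul_prod_erase _ _ (Finset.mem_univ i0')]
        have h6 : GR P 0 (∏ i ∈ Finset.univ.erase i0', U0 (σ i) i) := by
          simpa using GR.prod (P := P) (Finset.univ.erase i0') (r := fun _ => 0)
            (f := fun i => U0 (σ i) i) fun i _ => hU0 _ _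
        simpa using (h1 (σ i0')).mul h6
      rcases Int.units_eq_one_or (Equiv.Perm.sign σ) with h2 | h2
      · rw [h2, one_smul]; exact h4
      · rw [h2, Units.neg_smul, one_smul]
        rcases h4 with h4 | h4
        · rw [h4, neg_zero]; exact GR.zero
        · refine Or.inr ?_
          rw [P.ord_neg]
          exact h4
    rcases h2 with h2 | h2
    · exact hdU h2
    · rw [hoU] at h2
      norm_num at h2
  let i1 : Fin n := (Finset.univ.filter fun i => ¬ GR P 1 (U0 i i0')).min' hex
  have hi1 : ¬ GR P 1 (U0 i1 i0') := (Finset.mem_filter.mp (Finset.min'_mem _ hex)).2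
  have hlt : ∀ i, i < i1 → GR P 1 (U0 i i0') := by
    intro i hi
    by_contra h
    exact absurd (Finset.min'_le _ i (Finset.mem_filter.mpr ⟨Finset.mem_univ _, h⟩))
      (not_le.mpr hi)
  have hu0 : U0 i1 i0' ≠ 0 := fun h => hi1 (by rw [h]; exact GR.zero)
  have hu1 : P.ord (U0 i1 i0') = 0 := by
    have h1 : 0 ≤ P.ord (U0 i1 i0') := by
      rcases hU0 i1 i0' with h | h
      · exact absurd h hu0
      · exact_mod_cast h
    have h2 : ¬ 1 ≤ P.ord (U0 i1 i0') := fun h => hi1 (Or.inr (by exact_mod_cast h))
    omega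
  let r : Fin n → K := fun i => if i1 < i then U0 i i0' / U0 i1 i0' else 0
  have hr : ∀ i, GR P 0 (r i) := by
    intro i
    simp only [r]
    split_ifs
    · by_cases h : U0 i i0' = 0
      · left; rw [h, zero_div]
      · right
        rw [P.ord_div h hu0, hu1, sub_zero]
        rcases hU0 i i0' with h1 | h1
        · exact absurd h1 h
        · exact h1
    · exact GR.zero
  have hri1 : r i1 = 0 := if_neg (lt_irrefl _)
  let A : Fin n → Fin n → K := fun i j => A0 i j - r i * A0 i1 j
  let U : Matrix (Fin n) (Fin n) K := Matrix.of fun i j => U0 i j - r i * U0 i1 j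
  have hdetU : U.det = U0.det := Matrix.det_eq_of_forall_row_eq_smul_add_const
    (fun i => -(r i)) i1 (by rw [hri1, neg_zero]) (fun i j => by
      change U0 i j - r i * U0 i1 j = _
      ring)
  have hdetA : (Matrix.of A).det = A0.det := Matrix.det_eq_of_forall_row_eq_smul_add_const
    (fun i => -(r i)) i1 (by rw [hri1, neg_zero]) (fun i j => by
      change A0 i j - r i * A0 i1 j = _
      ring)
  have hdetA0 : A0.det ≠ 0 := by
    intro h0
    rw [← hmul, Matrix.det_mul, h0, zero_mul] at hdU
    exact hdU rfl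
  have hUreg : ∀ i j, GR P 0 (U i j) := by
    intro i j
    have h1 : GR P 0 (-(r i) * U0 i1 j) := by
      have h2 : GR P 0 (-(r i)) := by
        rcases hr i with h | h
        · rw [h, neg_zero]; exact GR.zero
        · exact Or.inr (by rw [P.ord_neg]; exact h)
      simpa using h2.mul (hU0 i1 j)
    have h3 : U i j = U0 i j + -(r i) * U0 i1 j := by
      change U0 i j - r i * U0 i1 j = _
      ring
    rw [h3]
    exact (hU0 i j).add h1
  -- values on the coordinates
  have hval : ∀ i j, (∑ l, A i l • b l) (y j) = U i j := by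
    intro i j
    rw [der_sum]
    have h1 : ∀ i', ∑ l, A0 i' l * b l (y j) = U0 i' j := by
      intro i'
      rw [← hmul, Matrix.mul_apply]
      rfl
    change ∑ l, (A0 i l - r i * A0 i1 l) * b l (y j) = U0 i j - r i * U0 i1 j
    rw [← h1, ← h1, Finset.mul_sum, ← Finset.sum_sub_distrib]
    exact Finset.sum_congr rfl fun l _ => by ring
  have hregP : ∀ i, DerReg P (∑ j, A i j • b j) := by
    intro i f hf
    rw [← hF.2 (∑ j, A i j • b j), der_sum]
    have h1 : GR P 0 (∑ j, (∑ l, A i l • b l) (y j) * E j f) := by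
      refine GR.sum _ fun j _ => ?_
      rw [hval]
      simpa using (hUreg i j).mul (GR_of_reg (hreg j f hf))
    exact h1.imp id fun h => by exact_mod_cast h
  have htan : ∀ i, i ≠ i1 → GR P 1 (U i i0') := by
    intro i hi
    rcases lt_or_gt_of_ne hi with h | h
    · have h1 : U i i0' = U0 i i0' := by
        change U0 i i0' - r i * U0 i1 i0' = _
        have h2 : r i = 0 := if_neg (not_lt.mpr h.le)
        rw [h2, zero_mul, sub_zero]
      rw [h1]
      exact hlt i h
    · left
      change U0 i i0' - r i * U0 i1 i0' = 0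
      have h2 : r i = U0 i i0' / U0 i1 i0' := if_pos h
      rw [h2, div_mul_cancel₀ _ hu0, sub_self]
  refine ⟨A, i1, fun i j hij => ?_, by rw [hdetA]; exact hdetA0, hregP, fun i hi f => ?_,
    fun D hD x hx => ?_⟩
  · change A0 i j - r i * A0 i1 j = 0
    rw [hA0 i j hij, zero_sub, neg_eq_zero]
    by_cases h : i1 < i
    · rw [hA0 i1 j (h.trans hij), mul_zero]
    · have h2 : r i = 0 := if_neg h
      rw [h2, zero_mul]
  · refine Pool.Agent.W619.TW.log_of_pres P _ (hregP i) hτ0 hi0 ?_ f
    have h1 := htan i hi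
    rw [← hval, ← hτ] at h1
    by_cases h0 : (∑ j, A i j • b j) τ = 0
    · rw [h0, zero_div]
      exact P.reg_zero
    · right
      rw [P.ord_div h0 hτ0, hi0]
      rcases h1 with h1 | h1
      · exact absurd h1 h0
      · have : (1 : ℤ) ≤ P.ord ((∑ j, A i j • b j) τ) := by exact_mod_cast h1
        omega
  · have hxU : ∀ j, ∑ i, x i * U i j = D (y j) := by
      intro j
      rw [hx]
      rw [der_sum]
      exact Finset.sum_congr rfl fun i _ => by rw [hval]
    have hxr : ∀ i, GR P 0 (x i) := solve_reg hUreg (by rw [hdetU]; exact hdU)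
      (by rw [hdetU]; exact hoU) (fun j => GR_of_reg (hD _ (hyr j))) hxU
    refine ⟨hxr, fun hDl => ?_⟩
    have h1 : GR P 1 (D τ) := by
      have h2 := GR_of_reg (hDl τ)
      have h3 : GR P 1 τ := Or.inr (by rw [hi0]; simp)
      have h4 := h2.mul h3
      rw [div_mul_cancel₀ _ hτ0, zero_add] at h4
      exact h4
    have h2 : x i1 * U i1 i0' = D τ + -∑ i ∈ Finset.univ.erase i1, x i * U i i0' := by
      rw [← hxU i0', ← Finset.add_sum_erase _ _ (Finset.mem_univ i1)]
      ring
    have h3 : GR P 1 (-∑ i ∈ Finset.univ.erase i1, x i * U i i0') := by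
      have h4 : GR P 1 (∑ i ∈ Finset.univ.erase i1, x i * U i i0') := by
        refine GR.sum _ fun i hi => ?_
        have h5 := (hxr i).mul (htan i (Finset.ne_of_mem_erase hi))
        rw [zero_add] at h5
        exact h5
      rcases h4 with h | h
      · rw [h, neg_zero]; exact GR.zero
      · exact Or.inr (by rw [P.ord_neg]; exact h)
    have h4 : GR P 1 (x i1 * U i1 i0') := by
      rw [h2]
      exact h1.add h3
    have h5 : U i1 i0' = U0 i1 i0' := by
      change U0 i1 i0' - r i1 * U0 i1 i0' = _
      rw [hri1, zero_mul, sub_zero]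
    rw [h5] at h4
    by_cases hx0 : x i1 = 0
    · exact Or.inl hx0
    · rcases h4 with h4 | h4
      · exact Or.inl ((mul_eq_zero.mp h4).resolve_right hu0)
      · right
        rw [P.ord_mul hx0 hu0, hu1, add_zero] at h4
        exact h4

end

end Pool.Agent.Zk28.TS
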