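import Pool.Agent.Zk28.TS.Kempf

/-!
Properties of the optimal weights.
-/

set_option autoImplicit false
set_option linter.unusedSectionVars false

open Filter Topology

namespace Pool.Agent.Zk28.TS

section

variable {F : Type*} [Field F] {V : Type*} [AddCommGroup V] [Module F V] {W : Type*}
  [AddCommGroup W] [Module F W] {n m : ℕ} {P : Set (MultilinearMap F (fun _ : Fin m => V) W)}
  {b : Fin n → V} {w : Fin n → ℝ}

theorem Opt.nonneg (h : Opt P b w) (i : Fin n) : 0 ≤ w i := by
  classical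
  have h1 : sq w ≤ sq fun i => max (w i) 0 := h.2.2 b _ h.1 fun I hI =>
    le_trans (h.2.1 I hI) (Finset.sum_le_sum fun a _ => le_max_left _ _)
  by_contra hneg
  push Not at hneg
  have h2 : sq (fun i => max (w i) 0) < sq w := by
    refine Finset.sum_lt_sum (fun j _ => ?_) ⟨i, Finset.mem_univ i, ?_⟩
    · change max (w j) 0 ^ 2 ≤ w j ^ 2
      rcases le_total 0 (w j) with h | h
      · rw [max_eq_left h]
      · rw [max_eq_right h]
        nlinarith [sq_nonneg (w j)]
    · change max (w i) 0 ^ 2 < w i ^ 2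
      rw [max_eq_right hneg.le]
      nlinarith
  linarith

theorem Opt.pos (h : Opt P b w) (hne : (supp P b).Nonempty) : 0 < sq w := by
  obtain ⟨I, hI⟩ := hne
  have h1 := h.2.1 I hI
  have h2 : 0 ≤ sq w := Finset.sum_nonneg fun i _ => sq_nonneg _
  rcases h2.eq_or_lt with h3 | h3
  · exfalso
    have h4 := (Finset.sum_eq_zero_iff_of_nonneg fun i _ => sq_nonneg (w i)).mp h3.symm
    have h5 : ∀ i, w i = 0 := fun i => by
      have := h4 i (Finset.mem_univ i)
      exact pow_eq_zero_iff (two_ne_zero) |>.mp this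
    simp only [h5, Finset.sum_const_zero] at h1
    linarith
  · exact h3

theorem Opt.perturb_le (h : Opt P b w) (d : Fin n → ℝ)
    (hd : ∀ I ∈ supp P b, ∑ a, w (I a) = 1 → ∑ a, d (I a) = 0) : 0 ≤ ∑ i, w i * d i := by
  classical
  by_contra hneg
  push Not at hneg
  have e2 : ∀ᶠ ε : ℝ in 𝓝 0, ∀ I : Fin m → Fin n, 1 < ∑ a, w (I a) →
      0 < (∑ a, w (I a) - 1) + ε * ∑ a, d (I a) := by
    rw [Filter.eventually_all]
    intro I
    by_cases hI : 1 < ∑ a, w (I a)
    · have h : ContinuousAt (fun ε : ℝ => (∑ a, w (I a) - 1) + ε * ∑ a, d (I a)) 0 := by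
        fun_prop
      filter_upwards [h.eventually (lt_mem_nhds (a := 0) (by simpa using hI))] with ε hε _
      exact hε
    · exact Filter.Eventually.of_forall fun ε h => absurd h hI
  have e3 : ∀ᶠ ε : ℝ in 𝓝 0, 2 * (∑ i, w i * d i) + ε * sq d < 0 := by
    have h : ContinuousAt (fun ε : ℝ => 2 * (∑ i, w i * d i) + ε * sq d) 0 := by fun_prop
    exact h.eventually (gt_mem_nhds (by
      beta_reduce
      rw [zero_mul, add_zero]
      linarith))
  have e4 : ∀ᶠ ε : ℝ in 𝓝[>] 0, ((∀ I : Fin m → Fin n, 1 < ∑ a, w (I a) →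
      0 < (∑ a, w (I a) - 1) + ε * ∑ a, d (I a)) ∧
      2 * (∑ i, w i * d i) + ε * sq d < 0) ∧ ε ∈ Set.Ioi (0 : ℝ) :=
    ((e2.and e3).filter_mono nhdsWithin_le_nhds).and self_mem_nhdsWithin
  obtain ⟨ε, ⟨h2, h3⟩, hε⟩ := e4.exists
  have hε' : 0 < ε := hε
  have h1 : sq w ≤ sq fun i => w i + ε * d i := by
    refine h.2.2 b _ h.1 fun I hI => ?_
    rw [Finset.sum_add_distrib, ← Finset.mul_sum]
    rcases (h.2.1 I hI).eq_or_lt with h4 | h4
    · rw [hd I hI h4.symm, mul_zero, add_zero]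
      exact h4.le
    · linarith [h2 I h4]
  have h4 : sq (fun i => w i + ε * d i) = sq w + ε * (2 * (∑ i, w i * d i) + ε * sq d) := by
    unfold sq
    have h5 : ∀ i, (w i + ε * d i) ^ 2 =
        w i ^ 2 + ε * (2 * (w i * d i)) + ε * (ε * d i ^ 2) := by
      intro i
      ring
    rw [Finset.sum_congr rfl fun i _ => h5 i, Finset.sum_add_distrib, Finset.sum_add_distrib,
      ← Finset.mul_sum, ← Finset.mul_sum, ← Finset.mul_sum, ← Finset.mul_sum]
    ring
  rw [h4] at h1
  nlinarith [mul_pos hε' (neg_pos.mpr h3)]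

theorem Opt.perturb (h : Opt P b w) (d : Fin n → ℝ)
    (hd : ∀ I ∈ supp P b, ∑ a, w (I a) = 1 → ∑ a, d (I a) = 0) : ∑ i, w i * d i = 0 := by
  refine le_antisymm ?_ (h.perturb_le d hd)
  have h1 := h.perturb_le (fun i => - d i) fun I hI h0 => by
    rw [Finset.sum_neg_distrib, hd I hI h0, neg_zero]
  simp only [mul_neg, Finset.sum_neg_distrib] at h1
  linarith

theorem Opt.sum (h : Opt P b w) : ∑ i, w i = m * sq w := by
  have h1 := h.perturb (fun i => 1 - m * w i) fun I _ hI => by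
    rw [Finset.sum_sub_distrib, ← Finset.mul_sum, hI]
    simp
  have h2 : ∑ i, w i * (1 - m * w i) = ∑ i, w i - m * sq w := by
    unfold sq
    rw [Finset.mul_sum, ← Finset.sum_sub_distrib]
    exact Finset.sum_congr rfl fun i _ => by ring
  rw [h2] at h1
  linarith

theorem Opt.rational (h : Opt P b w) (i : Fin n) : ∃ r : ℚ, w i = r := by
  classical
  have h1 : ∀ g : ℝ →ₗ[ℚ] ℚ, g 1 = 0 → g (w i) = 0 := by
    intro g hg
    have h2 := h.perturb (fun i => ((g (w i) : ℚ) : ℝ)) fun I _ hI => by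
      rw [← Rat.cast_sum, ← map_sum, hI, hg, Rat.cast_zero]
    have h3 := congrArg g h2
    rw [map_sum, map_zero] at h3
    have h4 : ∀ j, g (w j * ((g (w j) : ℚ) : ℝ)) = g (w j) ^ 2 := by
      intro j
      have h5 : w j * ((g (w j) : ℚ) : ℝ) = g (w j) • w j := by
        rw [Rat.smul_def, mul_comm]
      rw [h5, map_smul, smul_eq_mul, pow_two]
    rw [Finset.sum_congr rfl fun j _ => h4 j] at h3
    have h5 := (Finset.sum_eq_zero_iff_of_nonneg fun j _ => sq_nonneg (g (w j))).mp h3 i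
      (Finset.mem_univ i)
    exact pow_eq_zero_iff (two_ne_zero) |>.mp h5
  by_contra hno
  push Not at hno
  have h2 : w i ∉ Submodule.span ℚ {(1 : ℝ)} := by
    intro h3
    obtain ⟨r, hr⟩ := Submodule.mem_span_singleton.mp h3
    apply hno r
    rw [← hr, Rat.smul_def, mul_one]
  obtain ⟨f, hf1, hf2⟩ := Submodule.exists_le_ker_of_notMem h2
  exact hf1 (h1 f (hf2 (Submodule.mem_span_singleton_self 1)))

/-- Integral multiples of the optimal weights. -/
theorem Opt.integral (h : Opt P b w) (hne : (supp P b).Nonempty) :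
    ∃ (Q N : ℕ) (a : Fin n → ℕ), 0 < Q ∧ (∀ i, (a i : ℝ) = N - Q * w i / sq w) ∧
      (∀ i, a i ≤ N) ∧ Q * m + ∑ i, a i = n * N := by
  classical
  have hpos := h.pos hne
  choose r hr using h.rational
  have hr0 : ∀ i, 0 ≤ r i := fun i => by
    have := h.nonneg i
    rw [hr i] at this
    exact_mod_cast this
  let ρ : ℚ := ∑ i, r i ^ 2
  have hρ : (ρ : ℝ) = sq w := by
    unfold sq
    simp only [ρ]
    push_cast
    exact Finset.sum_congr rfl fun i _ => by rw [hr i]
  have hρ0 : 0 < ρ := by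
    have : (0 : ℝ) < ρ := by rw [hρ]; exact hpos
    exact_mod_cast this
  let x : Fin n → ℚ := fun i => r i / ρ
  have hx0 : ∀ i, 0 ≤ x i := fun i => div_nonneg (hr0 i) hρ0.le
  let Q : ℕ := ∏ i, (x i).den
  have hQ : 0 < Q := Finset.prod_pos fun i _ => (x i).den_pos
  have hN : ∀ i, ∃ N : ℕ, (N : ℚ) = Q * x i := by
    intro i
    refine ⟨(∏ j ∈ Finset.univ.erase i, (x j).den) * (x i).num.toNat, ?_⟩
    have h1 : (Q : ℚ) = (x i).den * ∏ j ∈ Finset.univ.erase i, ((x j).den : ℚ) := by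
      rw [Finset.mul_prod_erase _ (fun j => ((x j).den : ℚ)) (Finset.mem_univ i)]
      simp only [Q]
      push_cast
      rfl
    have h2 : (((x i).num.toNat : ℕ) : ℚ) = (x i).num := by
      have : (((x i).num.toNat : ℕ) : ℤ) = (x i).num :=
        Int.toNat_of_nonneg (Rat.num_nonneg.mpr (hx0 i))
      exact_mod_cast this
    have h3 : ((x i).den : ℚ) * x i = (x i).num := by
      rw [mul_comm]
      exact Rat.mul_den_eq_num (x i)
    push_cast
    rw [h2, h1, ← h3]
    ring
  choose ν hν using hN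
  have hν' : ∀ i, (ν i : ℝ) = Q * w i / sq w := by
    intro i
    have h1 : ((ν i : ℚ) : ℝ) = ((Q * x i : ℚ) : ℝ) := by rw [hν i]
    push_cast at h1
    rw [h1, hr i, ← hρ]
    simp only [x]
    push_cast
    ring
  let N : ℕ := ∑ i, ν i
  have hle : ∀ i, ν i ≤ N := fun i =>
    Finset.single_le_sum (f := ν) (fun j _ => Nat.zero_le _) (Finset.mem_univ i)
  refine ⟨Q, N, fun i => N - ν i, hQ, fun i => ?_, fun i => Nat.sub_le _ _, ?_⟩
  · rw [Nat.cast_sub (hle i), hν']
  · have h1 : (∑ i, ν i : ℕ) = Q * m := by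
      have h2 : ((∑ i, ν i : ℕ) : ℝ) = Q * m := by
        push_cast
        rw [Finset.sum_congr rfl fun i _ => hν' i, ← Finset.sum_div, ← Finset.mul_sum, h.sum]
        field_simp
      exact_mod_cast h2
    have h2 : ∑ i, ((N - ν i) + ν i) = n * N := by
      rw [Finset.sum_congr rfl fun i _ => Nat.sub_add_cancel (hle i), Finset.sum_const,
        Finset.card_univ, Fintype.card_fin, smul_eq_mul]
    rw [Finset.sum_add_distrib, h1] at h2
    rw [add_comm]
    exact h2

end

end Pool.Agent.Zk28.TS
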