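import Pool.Agent.Zk28.TS.Semi

/-!
The auxiliary family of tensors is semistable.
-/

set_option autoImplicit false
set_option linter.unusedSectionVars false

namespace Pool.Agent.Zk28.TS

section

variable {K F : Type*} [Field K] [Field F] [Algebra K F] {n m : ℕ} {S : Type*} {Q T M : ℕ}

/-- the pattern of indices -/
def pat {a : Fin n → ℕ} (I : Fin m → Fin n) : (Σ j : Fin Q ⊕ Fin T, kap m Q T a j) → Fin n
  | ⟨Sum.inl _, x⟩ => I x
  | ⟨Sum.inr _, i⟩ => i.1

/-- The auxiliary family of coordinates. -/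
noncomputable def aux {R : Type*} [CommRing R] (a : Fin n → ℕ) (w : Fin n → ℝ)
    (e : (Σ j : Fin Q ⊕ Fin T, kap m Q T a j) ≃ Fin M) (v : S → (Fin m → Fin n) → R)
    (s : Fin Q → S) (J : Fin M → Fin n) : R :=
  auxF a w (fun k => v (s k)) fun p => Pi.single (J (e p)) 1

theorem tm_aux {R : Type*} [CommRing R] (a : Fin n → ℕ) (w : Fin n → ℝ)
    (e : (Σ j : Fin Q ⊕ Fin T, kap m Q T a j) ≃ Fin M) (v : S → (Fin m → Fin n) → R)
    (s : Fin Q → S) (u : Fin M → Fin n → R) :
    tm (aux a w e v s) u = auxF a w (fun k => v (s k)) fun p => u (e p) :=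
  tm_coord e _ u

theorem semist (hn : 1 ≤ n) {v : S → (Fin m → Fin n) → F} {w : Fin n → ℝ}
    (hopt : Opt (Set.range fun s => resK (K := K) (tm (v s))) (std K n) w) (hw : 0 < sq w)
    {a : Fin n → ℕ} {N : ℕ} (ha : ∀ i, (a i : ℝ) = N - Q * w i / sq w) (hT : ∀ i, a i ≤ T)
    (e : (Σ j : Fin Q ⊕ Fin T, kap m Q T a j) ≃ Fin M)
    {c' : Fin n → Fin n → K} {w' : Fin n → ℝ} (hc' : LinearIndependent K c')
    (hg : Good (Set.range fun s' : Fin Q → S => resK (K := K) (tm (aux a w e v s'))) c' w')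
    (hsq : sq w' * M ^ 2 < n) : False := by
  classical
  have hn' : (0 : ℝ) < n := by exact_mod_cast hn
  set P' : Set (MultilinearMap K (fun _ : Fin M => Fin n → K) F) :=
    Set.range fun s' : Fin Q → S => resK (K := K) (tm (aux a w e v s')) with hP'
  have hd := short_destab hn hg hsq
  set mean : ℝ := (∑ i, w' i) / n with hmean
  -- a positive lower bound
  obtain ⟨κ, hκ, hκ'⟩ : ∃ κ : ℝ, 0 < κ ∧ ∀ I ∈ supp P' c', κ ≤ ∑ a, (w' (I a) - mean) := by
    let A : Finset (Fin M → Fin n) := Finset.univ.filter fun I => I ∈ supp P' c'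
    by_cases hA : A.Nonempty
    · obtain ⟨I0, hI0, hmin⟩ := A.exists_min_image (fun I => ∑ a, (w' (I a) - mean)) hA
      exact ⟨_, hd I0 (Finset.mem_filter.mp hI0).2, fun I hI =>
        hmin I (Finset.mem_filter.mpr ⟨Finset.mem_univ _, hI⟩)⟩
    · exact ⟨1, one_pos, fun I hI => absurd ⟨I, Finset.mem_filter.mpr ⟨Finset.mem_univ _, hI⟩⟩ hA⟩
  let u1 : Fin n → ℝ := fun i => (w' i - mean) / κ
  have hu1 : ∑ i, u1 i = 0 := by
    simp only [u1]
    rw [← Finset.sum_div, Finset.sum_sub_distrib, Finset.sum_const, Finset.card_univ,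
      Fintype.card_fin, nsmul_eq_mul, hmean, mul_div_cancel₀ _ hn'.ne', sub_self, zero_div]
  have hg1 : Good P' c' u1 := by
    intro I hI
    simp only [u1]
    rw [← Finset.sum_div, le_div_iff₀ hκ, one_mul]
    exact hκ' I hI
  -- the common frame
  have hspan : ∀ c : Fin n → Fin n → K, LinearIndependent K c →
      Submodule.span K (Set.range c) = ⊤ := fun c hc =>
    hc.span_eq_top_of_card_eq_finrank' (by simp)
  obtain ⟨c0, σ, τ, hc0, hcc⟩ := common_basis n (std K n) c' w u1 std_indep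
    (by rw [hspan _ std_indep, hspan _ hc'])
  let c : Fin n → Fin n → K := fun j => c0 (σ.symm j)
  let α : Fin n → ℝ := fun j => u1 (τ (σ.symm j))
  have hc1 : ∀ j i, c j i ≠ 0 → w i ≤ w j := by
    intro j i hi
    have h1 := (hcc (σ.symm j)).1
    rw [Equiv.apply_symm_apply] at h1
    exact fl_std h1 i hi
  have hc2 : ∀ j, c j ∈ fl K c' u1 (α j) := fun j => (hcc (σ.symm j)).2
  have hα : ∑ j, α j = 0 := by
    have h1 : ∑ j, α j = ∑ i, u1 i := by
      simp only [α]
      rw [Equiv.sum_comp σ.symm fun j => u1 (τ j), Equiv.sum_comp τ u1]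
    rw [h1, hu1]
  have hci : LinearIndependent K c := hc0.comp _ σ.symm.injective
  have hdet : (Matrix.of c).det ≠ 0 := indep_iff_det.mp hci
  have hgc : Good P' c α := hg1.transfer hc2
  -- the block part
  have hdet' : (Matrix.of (bpart w c)).det ≠ 0 := by rwa [bpart_det hc1]
  obtain ⟨s, I, hI1, hI2, hI3⟩ := block_claim hopt hw (c := bpart w c) (fun j i h => by
    by_contra hne
    exact h (bpart_ne hne)) hdet' α
  rw [← lead_bpart hc1 (v s) hI1] at hI2
  have hval : resK (K := K) (tm (aux a w e v fun _ : Fin Q => s))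
      (fun p => c (pat I (e.symm p))) ≠ 0 := by
    rw [resK_apply, tm_aux, auxF_apply]
    have h1 : ∀ p : (Σ j : Fin Q ⊕ Fin T, kap m Q T a j), e.symm (e p) = p :=
      fun p => e.symm_apply_apply p
    simp only [h1]
    refine mul_ne_zero (Finset.prod_ne_zero_iff.mpr fun k _ => hI2)
      (Finset.prod_ne_zero_iff.mpr fun t _ => ?_)
    exact minor_ne (F := F) hc1 hdet (fun i => (t : ℕ) < a i) (by
      intro i j hij hj
      have h2 : (a j : ℝ) ≤ a i := by
        rw [ha, ha]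
        have h3 : (Q : ℝ) * w i / sq w ≤ Q * w j / sq w := by gcongr
        linarith
      exact lt_of_lt_of_le hj (by exact_mod_cast h2))
  have hfin := hgc (fun p => pat I (e.symm p)) ⟨_, ⟨fun _ => s, rfl⟩, hval⟩
  have h4 : ∑ p, α (pat I (e.symm p)) = Q * ∑ x, α (I x) + ∑ i, (a i : ℝ) * α i := by
    have h5 : ∑ p, α (pat I (e.symm p)) =
        ∑ p : (Σ j : Fin Q ⊕ Fin T, kap m Q T a j), α (pat I p) :=
      e.symm.sum_comp fun p => α (pat I p)
    rw [h5, sum_pos]
    congr 1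
    · change ∑ k : Fin Q, ∑ x, α (I x) = _
      rw [Finset.sum_const, Finset.card_univ, Fintype.card_fin, nsmul_eq_mul]
    · have h6 := sum_level (T := T) a hT α
      simp only [nsmul_eq_mul] at h6
      exact h6
  have h5 : ∑ i, (a i : ℝ) * α i = -(Q * (∑ i, w i * α i) / sq w) := by
    have h6 : ∀ i, (a i : ℝ) * α i = N * α i - Q * (w i * α i) / sq w := by
      intro i
      rw [ha]
      ring
    rw [Finset.sum_congr rfl fun i _ => h6 i, Finset.sum_sub_distrib, ← Finset.mul_sum, hα,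
      ← Finset.sum_div, ← Finset.mul_sum]
    ring
  rw [h4, h5] at hfin
  have h6 : (Q : ℝ) * ∑ x, α (I x) ≤ Q * (∑ i, w i * α i) / sq w := by
    rw [le_div_iff₀ hw, mul_assoc]
    exact mul_le_mul_of_nonneg_left hI3 (Nat.cast_nonneg Q)
  linarith

end

end Pool.Agent.Zk28.TS
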