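import Pool.Agent.Zk28.TS.Gal
import Pool.Agent.Zk28.TS.Semi2
import Pool.Agent.Zk28.TS.Opt
import Pool.Agent.Zk28.TS.Ord

/-!
A relative invariant of the auxiliary family which does not vanish.
-/

set_option autoImplicit false
set_option linter.unusedSectionVars false

open MvPolynomial Pool.Agent.Helper819.Apolar FF

namespace Pool.Agent.Zk28.TS

section

variable {K : Type} [Field K] [CharZero K] {n m : ℕ} {S : Type}

/-- The degree of a relative invariant. -/
theorem Qv_deg {v : S → (Fin m → Fin n) → K} {N q : ℕ} {l : Fin q → S × (Fin m → Fin n)}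
    (h : Qv v N q l ≠ 0) : n * N = q * m := by
  classical
  unfold Qv at h
  have h1 : ∏ i, PP v (l i) = ∑ L : Fin q → (Fin m → Fin n),
      C (∏ i, v (l i).1 (L i)) * ∏ p : Fin q × Fin m, X (L p.1 p.2, (l p.1).2 p.2) := by
    unfold PP ta
    rw [Finset.prod_univ_sum, Fintype.piFinset_univ]
    refine Finset.sum_congr rfl fun L _ => ?_
    rw [Finset.prod_mul_distrib, map_prod, mul_comm, Fintype.prod_prod_type]
    rfl
  rw [h1, rho_sum] at h
  obtain ⟨L, _, hL⟩ := Finset.exists_ne_zero_of_sum_ne_zero h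
  rw [rho_smul] at hL
  have h0 := right_ne_zero_of_mul hL
  have h2 := fun i0 => rho_row Finset.univ (fun p : Fin q × Fin m => L p.1 p.2)
    (fun p => (l p.1).2 p.2) N i0 h0
  have h3 : ∑ i0 : Fin n, (Finset.univ.filter fun p : Fin q × Fin m => L p.1 p.2 = i0).card =
      (Finset.univ : Finset (Fin q × Fin m)).card :=
    (Finset.card_eq_sum_card_fiberwise (f := fun p : Fin q × Fin m => L p.1 p.2)
      (t := Finset.univ) (fun _ _ => Finset.mem_coe.mpr (Finset.mem_univ _))).symm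
  rw [Finset.sum_congr rfl fun i0 _ => h2 i0] at h3
  simpa using h3

end

section

variable {K : Type} [Field K] [CharZero K] {n m : ℕ} {S : Type}

theorem map_aux {R R' : Type*} [CommRing R] [CommRing R'] {Q T M : ℕ} (φ : R →+* R')
    (a : Fin n → ℕ) (w : Fin n → ℝ)
    (e : (Σ j : Fin Q ⊕ Fin T, kap m Q T a j) ≃ Fin M) (v : S → (Fin m → Fin n) → R)
    (s : Fin Q → S) (J : Fin M → Fin n) :
    φ (aux a w e v s J) = aux a w e (fun s J => φ (v s J)) s J := by
  classical
  unfold aux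
  rw [map_auxF]
  congr 1
  funext p i
  by_cases h : i = J (e p)
  · subst h; simp
  · simp [Pi.single_eq_of_ne h]

theorem card_pos_eq {Q T : ℕ} {a : Fin n → ℕ} (hT : ∀ i, a i ≤ T) :
    Fintype.card (Σ j : Fin Q ⊕ Fin T, kap m Q T a j) = Q * m + ∑ i, a i := by
  have h1 : Fintype.card (Σ j : Fin Q ⊕ Fin T, kap m Q T a j) =
      ∑ _p : (Σ j : Fin Q ⊕ Fin T, kap m Q T a j), 1 := by
    rw [Finset.sum_const, smul_eq_mul, mul_one]
    rfl
  rw [h1, sum_pos]
  have h2 := sum_level (T := T) a hT fun _ => (1 : ℕ)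
  rw [h2]
  simp

/-- A relative invariant which does not vanish. -/
theorem exists_inv {F : Type} [Field F] [CharZero F] [Algebra K F] [IsGalois K F]
    [IsAlgClosed F] (hn : 1 ≤ n) (hm : 1 ≤ m) (v : S → (Fin m → Fin n) → F)
    (hgal : ∀ (σ : F ≃ₐ[K] F) (s : S), ∃ s', ∀ J, v s' J = σ (v s J)) {w : Fin n → ℝ}
    (hopt : Opt (Set.range fun s => resK (K := K) (tm (v s))) (std K n) w)
    (hne : (supp (Set.range fun s => resK (K := K) (tm (v s))) (std K n)).Nonempty) :
    ∃ (Q N : ℕ) (a : Fin n → ℕ) (e : (Σ j : Fin Q ⊕ Fin N, kap m Q N a j) ≃ Fin (n * N))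
      (q : ℕ) (l : Fin q → (Fin Q → S) × (Fin (n * N) → Fin n)), 0 < Q ∧ 0 < N ∧ 0 < q ∧
      (∀ i, a i ≤ N) ∧ (∀ i, (a i : ℝ) = N - Q * w i / sq w) ∧
      Qv (aux a w e v) (q * N) q l ≠ 0 := by
  classical
  obtain ⟨Q, N, a, hQ, ha, haN, hsum⟩ := hopt.integral hne
  have hw := hopt.pos hne
  have hM : 1 ≤ n * N := by
    rw [← hsum]
    have : 1 ≤ Q * m := Nat.mul_pos hQ hm
    omega
  have hN : 0 < N := Nat.pos_of_mul_pos_left hM
  let e : (Σ j : Fin Q ⊕ Fin N, kap m Q N a j) ≃ Fin (n * N) :=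
    Fintype.equivFinOfCardEq (by rw [card_pos_eq haN, hsum])
  refine ⟨Q, N, a, e, ?_⟩
  by_contra hno
  push Not at hno
  have hvan : ∀ N', 1 ≤ N' → ∀ (q : ℕ) (l : Fin q → (Fin Q → S) × (Fin (n * N) → Fin n)),
      Qv (aux a w e v) N' q l = 0 := by
    intro N' hN' q l
    by_contra hne'
    have h1 := Qv_deg hne'
    have h2 : N' = q * N := by
      have h3 : n * N' = n * (q * N) := by rw [h1]; ring
      exact Nat.eq_of_mul_eq_mul_left hn h3
    have hq : 0 < q := by
      rcases Nat.eq_zero_or_pos q with h | h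
      · rw [h, zero_mul] at h2
        omega
      · exact h
    rw [h2] at hne'
    exact hne' (hno q l hQ hN hq haN ha)
  obtain ⟨c', w', hc', hg, hsq⟩ := exists_short_gal (K := K) hM (aux a w e v) (by
    intro σ s
    choose s' hs' using fun k => hgal σ (s k)
    refine ⟨s', fun J => ?_⟩
    have h1 := map_aux (σ : F →+* F) a w e v s J
    change _ = (σ : F →+* F) (aux a w e v s J)
    rw [h1]
    unfold aux
    congr 1
    congr 1
    funext k J'
    exact hs' k J') hvan
  refine semist hn hopt hw ha haN e hc' (w' := w') ?_ hsq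
  rintro I ⟨_, ⟨s, rfl⟩, hI⟩
  exact hg s I hI

end

end Pool.Agent.Zk28.TS
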