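import Pool.Agent.Zk28.TS.Prod

/-!
Leading parts of tensors for an optimal weighted flag; auxiliary tensors.
-/

set_option autoImplicit false
set_option linter.unusedSectionVars false

namespace Pool.Agent.Zk28.TS

section

variable {R : Type*} [CommRing R] {n m : ℕ}

open scoped Classical in
/-- The leading part. -/
noncomputable def lead (w : Fin n → ℝ) (T : (Fin m → Fin n) → R) : (Fin m → Fin n) → R :=
  fun I => if ∑ a, w (I a) = 1 then T I else 0

variable (Q T : ℕ) (m) (a : Fin n → ℕ)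

/-- positions -/
def kap : Fin Q ⊕ Fin T → Type
  | Sum.inl _ => Fin m
  | Sum.inr t => {i : Fin n // (t : ℕ) < a i}

instance (j : Fin Q ⊕ Fin T) : Fintype (kap m Q T a j) :=
  match j with
  | Sum.inl _ => inferInstanceAs (Fintype (Fin m))
  | Sum.inr t => inferInstanceAs (Fintype {i : Fin n // (t : ℕ) < a i})

variable {Q T m}

/-- the factors -/
noncomputable def fac (w : Fin n → ℝ) (T' : Fin Q → (Fin m → Fin n) → R) :
    ∀ j : Fin Q ⊕ Fin T, MultilinearMap R (fun _ : kap m Q T a j => Fin n → R) R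
  | Sum.inl k => (tm (lead w (T' k)) : MultilinearMap R (fun _ : Fin m => Fin n → R) R)
  | Sum.inr t => (detForm (fun i => (t : ℕ) < a i) :
      MultilinearMap R (fun _ : {i : Fin n // (t : ℕ) < a i} => Fin n → R) R)

/-- the auxiliary form -/
noncomputable def auxF (w : Fin n → ℝ) (T' : Fin Q → (Fin m → Fin n) → R) :
    MultilinearMap R (fun _ : (Σ j : Fin Q ⊕ Fin T, kap m Q T a j) => Fin n → R) R :=
  prodForm (fac a w T')

theorem auxF_apply (w : Fin n → ℝ) (T' : Fin Q → (Fin m → Fin n) → R)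
    (u : (Σ j : Fin Q ⊕ Fin T, kap m Q T a j) → Fin n → R) :
    auxF a w T' u = (∏ k, tm (lead w (T' k)) fun x => u ⟨Sum.inl k, x⟩) *
      ∏ t : Fin T, (Matrix.of fun i i' : {i : Fin n // (t : ℕ) < a i} =>
        u ⟨Sum.inr t, i⟩ i').det := by
  unfold auxF
  rw [prodForm_apply, Fintype.prod_sum_type]
  rfl

/-- sums over positions -/
theorem sum_pos {A : Type*} [AddCommMonoid A] (f : (Σ j : Fin Q ⊕ Fin T, kap m Q T a j) → A) :
    ∑ p, f p = ∑ k, ∑ x : Fin m, f ⟨Sum.inl k, x⟩ +
      ∑ t : Fin T, ∑ i : {i : Fin n // (t : ℕ) < a i}, f ⟨Sum.inr t, i⟩ := by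
  rw [Fintype.sum_sigma, Fintype.sum_sum_type]
  rfl

/-- the number of levels -/
theorem sum_level {A : Type*} [AddCommMonoid A] (hT : ∀ i, a i ≤ T) (f : Fin n → A) :
    ∑ t : Fin T, ∑ i : {i : Fin n // (t : ℕ) < a i}, f i = ∑ i, a i • f i := by
  classical
  have h1 : ∀ t : Fin T, ∑ i : {i : Fin n // (t : ℕ) < a i}, f i =
      ∑ i, if (t : ℕ) < a i then f i else 0 := by
    intro t
    rw [← Finset.sum_filter]
    exact (Finset.sum_subtype (Finset.univ.filter fun i => (t : ℕ) < a i) (by simp) f).symm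
  rw [Finset.sum_congr rfl fun t _ => h1 t, Finset.sum_comm]
  refine Finset.sum_congr rfl fun i _ => ?_
  rw [← Finset.sum_filter, Finset.sum_const]
  congr 1
  have h2 : (Finset.univ.filter fun t : Fin T => (t : ℕ) < a i).card =
      (Finset.univ.filter fun t : Fin T => (t : ℕ) < a i).card := rfl
  rw [Fin.card_filter_val_lt]
  exact min_eq_right (hT i)

theorem map_lead {R' : Type*} [CommRing R'] (φ : R →+* R') (w : Fin n → ℝ)
    (T' : (Fin m → Fin n) → R) : (fun I => φ (lead w T' I)) = lead w fun I => φ (T' I) := by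
  classical
  funext I
  unfold lead
  split_ifs
  · rfl
  · exact map_zero φ

theorem map_tm {R' : Type*} [CommRing R'] (φ : R →+* R') (T' : (Fin m → Fin n) → R)
    (u : Fin m → Fin n → R) : φ (tm T' u) = tm (fun J => φ (T' J)) fun a i => φ (u a i) := by
  rw [tm_apply, tm_apply, map_sum]
  refine Finset.sum_congr rfl fun J _ => ?_
  rw [map_mul, map_prod]

theorem map_auxF {R' : Type*} [CommRing R'] (φ : R →+* R') (w : Fin n → ℝ)
    (T' : Fin Q → (Fin m → Fin n) → R)
    (u : (Σ j : Fin Q ⊕ Fin T, kap m Q T a j) → Fin n → R) :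
    φ (auxF a w T' u) = auxF a w (fun k J => φ (T' k J)) fun p i => φ (u p i) := by
  rw [auxF_apply, auxF_apply, map_mul, map_prod, map_prod]
  congr 1
  · refine Finset.prod_congr rfl fun k _ => ?_
    rw [map_tm, map_lead]
  · refine Finset.prod_congr rfl fun t _ => ?_
    rw [RingHom.map_det]
    rfl

end

end Pool.Agent.Zk28.TS
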