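import Pool.Agent.Helper386.D5V.Helper399_FF4
import Pool.Agent.Zk28.TS.MDefs
import Pool.Agent.Zk28.TS.Change

/-!
Orders of algebraic functions.
-/

set_option autoImplicit false
set_option linter.unusedSectionVars false

open FF Pool.Agent.W602.GT

namespace Pool.Agent.Zk28.TS

variable {K : Type} [Field K] [Algebra ℂ K]

theorem GR.neg {k K : Type} [Field k] [Field K] [Algebra k K] {P : Place k K} {r : ℝ} {f : K}
    (h : GR P r f) : GR P r (-f) := by
  rcases h with h | h
  · rw [h, neg_zero]; exact GR.zero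
  · exact Or.inr (by rw [P.ord_neg]; exact h)

/-- The order of an algebraic function at a place of an extension. -/
theorem AlgOrd.place {P : Place ℂ K} {r : ℝ} {f : AlgebraicClosure K} (h : AlgOrd P r f)
    {L : Type} [Field L] [Algebra K L] [Algebra ℂ L] [IsScalarTower ℂ K L]
    {Ω : Place ℂ L} {e : ℕ} (hΩ : Over Ω P e) {x : L}
    (hx : ∀ p : Polynomial K, Polynomial.aeval f p = 0 → Polynomial.aeval x p = 0) :
    GR Ω (e * r) x := by
  obtain ⟨p, hmon, hroot, hcoef⟩ := h
  by_cases hx0 : x = 0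
  · exact Or.inl hx0
  by_contra hno
  have hlt : (Ω.ord x : ℝ) < e * r := by
    by_contra hge
    exact hno (Or.inr (not_lt.mp hge))
  have h1 := hx p hroot
  rw [Polynomial.aeval_eq_sum_range, Finset.sum_range_succ, hmon.coeff_natDegree, one_smul] at h1
  have h2 : x ^ p.natDegree = -∑ i ∈ Finset.range p.natDegree, p.coeff i • x ^ i :=
    eq_neg_of_add_eq_zero_right h1
  have h3 : GR Ω (p.natDegree * Ω.ord x + (e * r - Ω.ord x))
      (∑ i ∈ Finset.range p.natDegree, p.coeff i • x ^ i) := by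
    refine GR.sum _ fun i hi => ?_
    have hi' : i < p.natDegree := Finset.mem_range.mp hi
    rcases hcoef i hi' with h4 | h4
    · rw [h4, zero_smul]; exact GR.zero
    rw [Algebra.smul_def]
    have h5 : GR Ω (e * (((p.natDegree : ℝ) - i) * r)) (algebraMap K L (p.coeff i)) := by
      refine Or.inr ?_
      rw [hΩ.2]
      push_cast
      exact mul_le_mul_of_nonneg_left h4 (Nat.cast_nonneg e)
    have h60 : GR Ω (Ω.ord x) x := Or.inr le_rfl
    have h6 : GR Ω (i * Ω.ord x) (x ^ i) := h60.pow i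
    refine (h5.mul h6).mono ?_
    have h7 : (1 : ℝ) ≤ (p.natDegree : ℝ) - i := by
      have : (i : ℝ) + 1 ≤ p.natDegree := by exact_mod_cast hi'
      linarith
    have h8 : 0 < e * r - Ω.ord x := by linarith
    nlinarith
  have h4 : GR Ω (p.natDegree * Ω.ord x + (e * r - Ω.ord x)) (x ^ p.natDegree) := by
    rw [h2]
    exact h3.neg
  rcases h4 with h5 | h5
  · exact hx0 (eq_zero_of_pow_eq_zero h5)
  · rw [Ω.ord_pow] at h5
    push_cast at h5
    linarith

theorem exists_place {P : Place ℂ K} (L : Type) [Field L] [Algebra K L] [Algebra ℂ L]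
    [IsScalarTower ℂ K L] [FiniteDimensional K L] :
    ∃ (Ω : Place ℂ L) (e : ℕ), Over Ω P e := by
  obtain ⟨S, T, -, hT, hsum⟩ := FF.exists_places_over (K' := L) P
  have hpos : 0 < Module.finrank K L := Module.finrank_pos
  obtain ⟨w, hw⟩ : S.Nonempty := by
    rw [Finset.nonempty_iff_ne_empty]
    rintro rfl
    rw [Finset.sum_empty] at hsum
    omega
  obtain ⟨e, h, -⟩ := hT w hw
  exact ⟨w, e, h⟩

theorem AlgOrd.zero {P : Place ℂ K} {r : ℝ} : AlgOrd P r 0 := by
  refine ⟨Polynomial.X, Polynomial.monic_X, by simp, fun i hi => ?_⟩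
  rw [Polynomial.natDegree_X] at hi
  have : i = 0 := by omega
  subst this
  exact Or.inl Polynomial.coeff_X_zero

/-- Functions in `K`. -/
theorem AlgOrd.of_GR {P : Place ℂ K} {r : ℝ} {f : K} (h : GR P r f) :
    AlgOrd P r (algebraMap K (AlgebraicClosure K) f) := by
  refine ⟨Polynomial.X - Polynomial.C f, Polynomial.monic_X_sub_C f, by simp, fun i hi => ?_⟩
  rw [Polynomial.natDegree_X_sub_C] at hi ⊢
  have : i = 0 := by omega
  subst this
  rw [Polynomial.coeff_sub, Polynomial.coeff_X_zero, Polynomial.coeff_C_zero, zero_sub]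
  rcases h with h | h
  · left; rw [h, neg_zero]
  · right
    rw [P.ord_neg]
    simpa using h

/-- The image under an automorphism. -/
theorem AlgOrd.image {P Q : Place ℂ K} {r : ℝ} {f g : AlgebraicClosure K} (σ : K ≃ₐ[ℂ] K)
    (τ : AlgebraicClosure K ≃+* AlgebraicClosure K)
    (hτ : ∀ x : K, τ (algebraMap K _ x) = algebraMap K _ (σ x)) (hPQ : ∀ x, Q.ord (σ x) = P.ord x)
    (h : AlgOrd Q r f) (hg : τ g = f) : AlgOrd P r g := by
  obtain ⟨p, hmon, hroot, hcoef⟩ := h
  let φ : K →+* K := (σ.symm : K →+* K)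
  have hdeg : (p.map φ).natDegree = p.natDegree := Polynomial.natDegree_map _
  refine ⟨p.map φ, hmon.map φ, ?_, fun i hi => ?_⟩
  · apply τ.injective
    rw [map_zero, ← hroot, ← hg, Polynomial.aeval_def, Polynomial.aeval_def,
      Polynomial.eval₂_map]
    have h1 := Polynomial.hom_eval₂ p ((algebraMap K (AlgebraicClosure K)).comp φ)
      (τ : AlgebraicClosure K →+* AlgebraicClosure K) g
    change (τ : AlgebraicClosure K →+* AlgebraicClosure K)
      (Polynomial.eval₂ ((algebraMap K (AlgebraicClosure K)).comp φ) g p) = _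
    rw [h1]
    congr 1
    ext x
    change τ (algebraMap K _ (σ.symm x)) = _
    rw [hτ, AlgEquiv.apply_symm_apply]
  · rw [hdeg] at hi ⊢
    rw [Polynomial.coeff_map]
    change σ.symm (p.coeff i) = 0 ∨ _
    rcases hcoef i hi with h | h
    · left; rw [h, map_zero]
    · right
      change _ ≤ ((P.ord (σ.symm (p.coeff i)) : ℤ) : ℝ)
      rw [← hPQ, AlgEquiv.apply_symm_apply]
      exact h

end Pool.Agent.Zk28.TS
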