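import Pool.Agent.Zk28.TS.Herm
import Pool.Agent.Zk28.TS.Main
import Pool.Agent.Zk28.TS.MPlace

/-!
Actions on multivalued tensors; expansions in frames.
-/

set_option autoImplicit false
set_option linter.unusedSectionVars false

open FF Pool.Agent.W602.GT

namespace Pool.Agent.Zk28.TS

variable {K : Type} [Field K] [Algebra ℂ K]

/-- The set of the adapted tensors. -/
def PA (n : ℕ) (X : Set (Place ℂ K)) (δ β : Place ℂ K → ℝ) (m : ℕ) :
    Set (MTensor K (Fin m)) := {s | MAdapted n X δ β s}

/-- The Galois group acts. -/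
theorem gal_adapted {n : ℕ} {X : Set (Place ℂ K)} {δ β : Place ℂ K → ℝ} {κ : Type}
    {s : MTensor K κ} (hs : MAdapted n X δ β s)
    (σ : AlgebraicClosure K ≃ₐ[K] AlgebraicClosure K) :
    MAdapted n X δ β (σ.toLinearMap.compMultilinearMap s) := by
  intro P hPX hP D hD
  obtain ⟨p, hmon, hroot, hcoef⟩ := hs P hPX hP D hD
  refine ⟨p, hmon, ?_, hcoef⟩
  change Polynomial.aeval (σ (s D)) p = 0
  have h1 := Polynomial.aeval_algHom_apply σ.toAlgHom (s D) p
  rw [hroot, map_zero] at h1
  exact h1

/-- The conjugate of a tensor. -/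
noncomputable def mpull (σ : K ≃ₐ[ℂ] K) (τ : AlgebraicClosure K ≃+* AlgebraicClosure K)
    (hτ : ∀ x : K, τ (algebraMap K _ x) = algebraMap K _ (σ x)) {m : ℕ}
    (s : MTensor K (Fin m)) : MTensor K (Fin m) where
  toFun D := τ.symm (s fun a => conj σ (D a))
  map_update_add' D i x y := by
    have h : ∀ z, (fun a => conj σ (Function.update D i z a)) =
        Function.update (fun a => conj σ (D a)) i (conj σ z) := by
      intro z
      funext a
      by_cases ha : a = i
      · subst ha; simp
      · simp [Function.update_of_ne ha]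
    rw [h, h, h, conj_add, MultilinearMap.map_update_add, map_add]
  map_update_smul' D i c x := by
    have h : ∀ z, (fun a => conj σ (Function.update D i z a)) =
        Function.update (fun a => conj σ (D a)) i (conj σ z) := by
      intro z
      funext a
      by_cases ha : a = i
      · subst ha; simp
      · simp [Function.update_of_ne ha]
    rw [h, h, conj_smul, MultilinearMap.map_update_smul, Algebra.smul_def, Algebra.smul_def,
      map_mul, ← hτ, RingEquiv.symm_apply_apply]

theorem mpull_apply (σ : K ≃ₐ[ℂ] K) (τ : AlgebraicClosure K ≃+* AlgebraicClosure K)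
    (hτ : ∀ x : K, τ (algebraMap K _ x) = algebraMap K _ (σ x)) {m : ℕ}
    (s : MTensor K (Fin m)) (D : Fin m → Derivation ℂ K K) :
    mpull σ τ hτ s D = τ.symm (s fun a => conj σ (D a)) := rfl

/-- Automorphisms act on adapted tensors. -/
theorem mpull_adapted {n : ℕ} {X : Set (Place ℂ K)} {δ β : Place ℂ K → ℝ} {σ : K ≃ₐ[ℂ] K}
    (hσ : MPreserves X δ β σ) (τ : AlgebraicClosure K ≃+* AlgebraicClosure K)
    (hτ : ∀ x : K, τ (algebraMap K _ x) = algebraMap K _ (σ x)) {m : ℕ}
    {s : MTensor K (Fin m)} (hs : MAdapted n X δ β s) :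
    MAdapted n X δ β (mpull σ τ hτ s) := by
  intro P hPX hP D hD
  obtain ⟨Q, hQX, hδ, hβ, hQ⟩ := hσ P hPX
  have hreg : ∀ f, Q.Reg (σ f) ↔ P.Reg f := by
    intro f
    unfold Place.Reg
    rw [hQ f]
    constructor
    · rintro (h | h)
      · exact Or.inl ((map_eq_zero σ).mp h)
      · exact Or.inr h
    · rintro (h | h)
      · exact Or.inl (by rw [h, map_zero])
      · exact Or.inr h
  have hQd : Divisorial n Q := by
    obtain ⟨u, hu⟩ := hP
    refine ⟨fun i => σ (u i), fun F hF => ?_⟩
    have h1 : MvPolynomial.aeval (fun i => σ (u i)) F = σ (MvPolynomial.aeval u F) := by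
      have h2 := MvPolynomial.comp_aeval_apply u σ.toAlgHom F
      exact h2.symm
    rw [h1, hQ]
    exact ⟨(map_ne_zero σ).mpr (hu F hF).1, (hu F hF).2⟩
  have hD' : ∀ a, DerReg Q (conj σ (D a)) := by
    intro a f hf
    rw [conj_apply, hreg]
    apply hD a
    rw [← hreg, AlgEquiv.apply_symm_apply]
    exact hf
  have hlog : ∀ a, DerLog Q (conj σ (D a)) ↔ DerLog P (D a) := by
    intro a
    constructor
    · intro h f
      rw [← hreg]
      have h1 := h (σ f)
      rw [conj_apply, AlgEquiv.symm_apply_apply, ← map_div₀] at h1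
      exact h1
    · intro h f
      have h1 := h (σ.symm f)
      rw [← hreg, map_div₀, AlgEquiv.apply_symm_apply] at h1
      exact h1
  have h1 := hs Q hQX hQd (fun a => conj σ (D a)) hD'
  simp only [hlog, hδ, hβ] at h1
  refine h1.image σ τ hτ hQ ?_
  rw [mpull_apply, RingEquiv.apply_symm_apply]

/-- An extension of the automorphism to the algebraic functions. -/
theorem exists_lift (σ : K ≃ₐ[ℂ] K) : ∃ τ : AlgebraicClosure K ≃+* AlgebraicClosure K,
    ∀ x : K, τ (algebraMap K _ x) = algebraMap K _ (σ x) :=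
  ⟨IsAlgClosure.equivOfEquiv (AlgebraicClosure K) (AlgebraicClosure K) σ.toRingEquiv, fun x =>
    IsAlgClosure.equivOfEquiv_algebraMap (AlgebraicClosure K) (AlgebraicClosure K)
      σ.toRingEquiv x⟩

section

variable {F : Type} [Field F] [Algebra K F] {n m : ℕ}

/-- The value of a tensor on linear combinations. -/
theorem mtensor_expand
    (s : MultilinearMap K (fun _ : Fin m => Derivation ℂ K K) F) (c : Fin n → Fin n → K)
    (b : Fin n → Derivation ℂ K K) (I : Fin m → Fin n) :
    s (fun a => ∑ j, c (I a) j • b j) =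
      tm (fun J => s fun a => b (J a)) fun a j => algebraMap K F (c (I a) j) := by
  rw [MultilinearMap.map_sum, tm_apply]
  refine Finset.sum_congr rfl fun J _ => ?_
  rw [MultilinearMap.map_smul_univ s (fun a => c (I a) (J a)) (fun a => b (J a)),
    Algebra.smul_def, map_prod]

theorem resK_std (T : (Fin m → Fin n) → F) (J : Fin m → Fin n) :
    resK (K := K) (tm T) (fun a => std K n (J a)) = T J := by
  rw [resK_apply]
  have h5 : (fun (a : Fin m) (i : Fin n) => algebraMap K F (std K n (J a) i)) =
      fun a => (Pi.single (J a) 1 : Fin n → F) := by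
    funext a i
    unfold std
    by_cases h6 : i = J a
    · subst h6; simp
    · simp [Pi.single_eq_of_ne h6]
  rw [h5]
  exact tm_single T J

/-- Optimality in coordinates. -/
theorem opt_std {P : Set (MultilinearMap K (fun _ : Fin m => Derivation ℂ K K) F)}
    {b : Fin n → Derivation ℂ K K} {w : Fin n → ℝ} (h : Opt P b w) {S : Type}
    (f : S → MultilinearMap K (fun _ : Fin m => Derivation ℂ K K) F) (hf : Set.range f = P) :
    Opt (Set.range fun s => resK (K := K) (tm fun J => f s fun a => b (J a)))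
      (std K n) w := by
  refine ⟨std_indep, ?_, fun c' w' hc' hg => ?_⟩
  · rintro I ⟨_, ⟨s, rfl⟩, hI⟩
    rw [resK_std] at hI
    exact h.2.1 I ⟨f s, hf ▸ ⟨s, rfl⟩, hI⟩
  · refine h.2.2 (fun i => ∑ j, c' i j • b j) w' ?_ ?_
    · rw [Fintype.linearIndependent_iff] at hc' ⊢
      intro g hg0 i
      refine hc' g ?_ i
      have h1 : ∑ j, (∑ i, g i * c' i j) • b j = 0 := by
        rw [← hg0]
        simp only [Finset.sum_smul, Finset.smul_sum, mul_smul]
        exact Finset.sum_comm
      have h2 := Fintype.linearIndependent_iff.mp h.1 _ h1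
      funext j
      rw [Finset.sum_apply]
      exact h2 j
    · rintro I ⟨s, hs, hI⟩
      rw [← hf] at hs
      obtain ⟨s, rfl⟩ := hs
      refine hg I ⟨_, ⟨s, rfl⟩, ?_⟩
      rw [resK_apply, ← mtensor_expand]
      exact hI

theorem Opt.perm {W : Type*} [AddCommGroup W] [Module K W]
    {P : Set (MultilinearMap K (fun _ : Fin m => Derivation ℂ K K) W)}
    {b : Fin n → Derivation ℂ K K} {w : Fin n → ℝ} (h : Opt P b w) (σ : Equiv.Perm (Fin n)) :
    Opt P (b ∘ σ) (w ∘ σ) := by
  have hsq : sq (w ∘ σ) = sq w := Equiv.sum_comp σ fun i => w i ^ 2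
  refine ⟨h.1.comp _ σ.injective, ?_, fun b' w' hb' hg' => by rw [hsq]; exact h.2.2 b' w' hb' hg'⟩
  rintro I ⟨s, hs, hI⟩
  exact h.2.1 (fun a => σ (I a)) ⟨s, hs, hI⟩

end

end Pool.Agent.Zk28.TS
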