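import Pool.Agent.Zk28.TS.MAct

/-!
The order of the norm of a relative invariant.
-/

set_option autoImplicit false
set_option linter.unusedSectionVars false

open FF Pool.Agent.W602.GT

namespace Pool.Agent.Zk28.TS

section

variable {R : Type*} [CommRing R] {n : ℕ}

theorem tri_det {A : Fin n → Fin n → R} (hA : ∀ i j, i < j → A i j = 0) (C : Fin n → Prop)
    [DecidablePred C] : (Matrix.of fun i i' : {i // C i} => A i i').det =
      ∏ i : {i // C i}, A i i := by
  classical
  rw [Matrix.det_of_isLowerTriangular]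
  · rfl
  · intro i j hij
    exact hA _ _ hij

theorem tri_det_all {A : Fin n → Fin n → R} (hA : ∀ i j, i < j → A i j = 0) :
    (Matrix.of A).det = ∏ i, A i i := by
  classical
  rw [Matrix.det_of_isLowerTriangular]
  · rfl
  · intro i j hij
    exact hA _ _ hij

theorem prod_level {T : ℕ} {a : Fin n → ℕ} (hT : ∀ i, a i ≤ T) (f : Fin n → R) :
    ∏ t : Fin T, ∏ i : {i : Fin n // (t : ℕ) < a i}, f i = ∏ i, f i ^ a i := by
  classical
  have h1 : ∀ t : Fin T, ∏ i : {i : Fin n // (t : ℕ) < a i}, f i =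
      ∏ i, if (t : ℕ) < a i then f i else 1 := by
    intro t
    rw [← Finset.prod_filter]
    exact (Finset.prod_subtype (Finset.univ.filter fun i => (t : ℕ) < a i) (by simp) f).symm
  rw [Finset.prod_congr rfl fun t _ => h1 t, Finset.prod_comm]
  refine Finset.prod_congr rfl fun i _ => ?_
  rw [← Finset.prod_filter, Finset.prod_const]
  congr 1
  rw [Fin.card_filter_val_lt]
  exact min_eq_right (hT i)

end

section

variable {K : Type} [Field K] [Algebra ℂ K] {n m : ℕ} {S : Type}

/-- The order of the norm of a relative invariant. -/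
theorem norm_order [CharZero K] {L : Type} [Field L] [Algebra K L] [Algebra ℂ L]
    [IsScalarTower ℂ K L]
    [FiniteDimensional K L] [IsGalois K L] [CharZero L] {P : Place ℂ K} {w : Fin n → ℝ}
    (hw : Monotone w)
    {A : Fin n → Fin n → K} (hA : ∀ i j, i < j → A i j = 0) (hdet : (Matrix.of A).det ≠ 0)
    {v : S → (Fin m → Fin n) → L} (hv : ∀ s I, v s I ≠ 0 → 1 ≤ ∑ x, w (I x))
    {i0 : Fin n} {δ β : ℝ}
    (hord : ∀ (Ω : Place ℂ L) (e : ℕ), Over Ω P e → ∀ (σ : L ≃ₐ[K] L) s J,
      GR Ω (e * (-(((Finset.univ.filter fun a => J a = i0).card : ℝ) * δ + β)))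
        (σ (ta (Matrix.of fun i j => algebraMap K L (A i j)).transpose (v s) J)))
    {Q N : ℕ} {a : Fin n → ℕ} (ha : ∀ i j, w i = w j → a i = a j) (haN : ∀ i, a i ≤ N)
    (e : (Σ j : Fin Q ⊕ Fin N, kap m Q N a j) ≃ Fin (n * N)) (q : ℕ)
    (l : Fin q → (Fin Q → S) × (Fin (n * N) → Fin n)) :
    GR P (-(((Fintype.card (L ≃ₐ[K] L) * q * (N - a i0) : ℕ) : ℝ) * δ +
        ((Fintype.card (L ≃ₐ[K] L) * q * Q : ℕ) : ℝ) * β))
      (Algebra.norm K (Qv (aux a w e v) (q * N) q l) *
        ∏ i, A i i ^ (Fintype.card (L ≃ₐ[K] L) * q * (N - a i))) := by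
  classical
  set d := Fintype.card (L ≃ₐ[K] L) with hd
  set AL : Fin n → Fin n → L := fun i j => algebraMap K L (A i j) with hAL
  have hAL0 : ∀ i j, i < j → AL i j = 0 := fun i j h => by
    simp only [hAL, hA i j h, map_zero]
  have hALw : ∀ j i, AL j i ≠ 0 → w i ≤ w j := by
    intro j i h
    refine hw ?_
    by_contra hlt
    exact h (hAL0 j i (not_le.mp hlt))
  have hdiag : ∀ i, A i i ≠ 0 := by
    intro i h0
    rw [tri_det_all hA] at hdet
    exact hdet (Finset.prod_eq_zero (Finset.mem_univ i) h0)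
  set D : K := ∏ i, A i i with hD
  set κ : K := ∏ i, A i i ^ a i with hκ
  have hκ0 : κ ≠ 0 := Finset.prod_ne_zero_iff.mpr fun i _ => pow_ne_zero _ (hdiag i)
  -- the transformed family
  set v' : S → (Fin m → Fin n) → L := fun s => ta (Matrix.of AL).transpose (v s) with hv'
  have hb0 : ∀ i j, i < j → bpart w AL i j = 0 := by
    intro i j h
    unfold bpart
    split_ifs
    · exact hAL0 i j h
    · rfl
  have hbdiag : ∀ i, bpart w AL i i = algebraMap K L (A i i) := fun i => bpart_eq rfl
  have hκL : (∏ t : Fin N, (Matrix.of fun i i' : {i : Fin n // (t : ℕ) < a i} =>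
        bpart w AL i i').det) = algebraMap K L κ := by
    have h1 : ∀ t : Fin N, (Matrix.of fun i i' : {i : Fin n // (t : ℕ) < a i} =>
        bpart w AL i i').det = ∏ i : {i : Fin n // (t : ℕ) < a i}, algebraMap K L (A i i) := by
      intro t
      rw [tri_det hb0]
      exact Finset.prod_congr rfl fun i _ => hbdiag i
    rw [Finset.prod_congr rfl fun t _ => h1 t,
      prod_level haN fun i => algebraMap K L (A i i), hκ, map_prod]
    exact Finset.prod_congr rfl fun i _ => by rw [map_pow]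
  have hrel : algebraMap K L D ^ (q * N) * Qv (aux a w e v) (q * N) q l =
      algebraMap K L κ ^ q * Qv (aux a w e v') (q * N) q l := by
    have h1 := Qv_act (Matrix.of (bpart w AL)).transpose (aux a w e v) (q * N) q l
    rw [Matrix.det_transpose, tri_det_all hb0] at h1
    have h2 : (∏ i, bpart w AL i i) = algebraMap K L D := by
      rw [hD, map_prod]
      exact Finset.prod_congr rfl fun i _ => hbdiag i
    rw [h2] at h1
    rw [← h1, ← Qv_smul]
    congr 1
    funext s J
    rw [aux_change hALw ha e hv s J, hκL]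
  -- the norm
  have hnorm : algebraMap K L (Algebra.norm K (Qv (aux a w e v) (q * N) q l) *
        ∏ i, A i i ^ (d * q * (N - a i))) =
      ∏ σ : L ≃ₐ[K] L, σ (Qv (aux a w e v') (q * N) q l) := by
    have h1 : algebraMap K L (κ ^ (d * q)) ≠ 0 := (map_ne_zero _).mpr (pow_ne_zero _ hκ0)
    refine mul_left_cancel₀ h1 ?_
    have h2 : κ ^ (d * q) * (Algebra.norm K (Qv (aux a w e v) (q * N) q l) *
        ∏ i, A i i ^ (d * q * (N - a i))) =
        D ^ (q * N * d) * Algebra.norm K (Qv (aux a w e v) (q * N) q l) := by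
      have h3 : κ ^ (d * q) * ∏ i, A i i ^ (d * q * (N - a i)) = D ^ (q * N * d) := by
        rw [hκ, hD, ← Finset.prod_pow, ← Finset.prod_pow, ← Finset.prod_mul_distrib]
        refine Finset.prod_congr rfl fun i _ => ?_
        rw [← pow_mul, ← pow_add]
        congr 1
        have h4 : a i + (N - a i) = N := Nat.add_sub_cancel' (haN i)
        calc a i * (d * q) + d * q * (N - a i) = d * q * (a i + (N - a i)) := by ring
          _ = q * N * d := by rw [h4]; ring
      rw [← h3]
      ring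
    rw [← map_mul, h2, map_mul, Algebra.norm_eq_prod_automorphisms]
    have h3 : ∏ σ : L ≃ₐ[K] L, σ (algebraMap K L D ^ (q * N) *
        Qv (aux a w e v) (q * N) q l) = ∏ σ : L ≃ₐ[K] L, σ (algebraMap K L κ ^ q *
        Qv (aux a w e v') (q * N) q l) := by rw [hrel]
    simp only [map_mul, map_pow, AlgEquiv.commutes, Finset.prod_mul_distrib,
      Finset.prod_const, Finset.card_univ] at h3
    rw [map_pow, map_pow, pow_mul, h3, ← pow_mul, mul_comm q d]
  -- a place of `L`
  obtain ⟨Ω, eΩ, hΩ⟩ := exists_place (P := P) L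
  have he : (0 : ℝ) < eΩ := by exact_mod_cast hΩ.1
  have h1 : ∀ σ : L ≃ₐ[K] L, GR Ω (-(eΩ * δ * ((q * N : ℕ) : ℝ)) +
      q * (eΩ * δ * a i0 + Q * (-(eΩ * β)))) (σ (Qv (aux a w e v') (q * N) q l)) := by
    intro σ
    have h2 := map_Qv (σ : L →+* L) (aux a w e v') (q * N) q l
    change GR Ω _ ((σ : L →+* L) (Qv (aux a w e v') (q * N) q l))
    rw [h2]
    refine Qv_ord' Ω i0 _ (fun s J => ?_) (q * N) q l
    have h3 := map_aux (σ : L →+* L) a w e v' s J
    rw [h3]
    refine aux_ord Ω i0 haN w e _ (fun s J => ?_) s J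
    refine (hord Ω eΩ hΩ σ s J).mono (le_of_eq ?_)
    ring
  have h2 := GR.prod (P := Ω) Finset.univ fun σ _ => h1 σ
  rw [← hnorm, Finset.sum_const, Finset.card_univ, nsmul_eq_mul, ← hd] at h2
  rcases h2 with h2 | h2
  · left
    exact (map_eq_zero _).mp h2
  · right
    rw [hΩ.2] at h2
    push_cast at h2
    have h3 : (eΩ : ℝ) * (-(((d * q * (N - a i0) : ℕ) : ℝ) * δ + ((d * q * Q : ℕ) : ℝ) * β)) =
        (d : ℝ) * (-(eΩ * δ * (q * N)) + q * (eΩ * δ * a i0 + Q * (-(eΩ * β)))) := by
      push_cast [Nat.cast_sub (haN i0)]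
      ring
    rw [← h3] at h2
    exact le_of_mul_le_mul_left h2 he

end

end Pool.Agent.Zk28.TS
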