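import Pool.Agent.Zk28.TS.Rat

/-!
Products of multilinear forms, leading parts, determinant forms.
-/

set_option autoImplicit false
set_option linter.unusedSectionVars false

namespace Pool.Agent.Zk28.TS

section

variable {R : Type*} [CommRing R] {V : Type*} [AddCommGroup V] [Module R V]
  {ι : Type*} [Fintype ι] {κ : ι → Type*}

open scoped Classical in
theorem prod_update [inst : DecidableEq (Σ j, κ j)]
    (f : ∀ j, MultilinearMap R (fun _ : κ j => V) R) (u : (Σ j, κ j) → V)
    (j0 : ι) (a0 : κ j0) (x : V) :
    ∏ j, f j (fun a => @Function.update _ _ inst u ⟨j0, a0⟩ x ⟨j, a⟩) =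
      f j0 (Function.update (fun a => u ⟨j0, a⟩) a0 x) *
        ∏ j ∈ Finset.univ.erase j0, f j (fun a => u ⟨j, a⟩) := by
  rw [← Finset.mul_prod_erase _ _ (Finset.mem_univ j0)]
  congr 1
  · congr 1
    funext a
    by_cases ha : a = a0
    · subst ha
      rw [Function.update_self, Function.update_self]
    · rw [Function.update_of_ne ha, Function.update_of_ne]
      intro h
      exact ha (eq_of_heq (Sigma.mk.inj_iff.mp h).2)
  · refine Finset.prod_congr rfl fun j hj => ?_
    congr 1
    funext a
    rw [Function.update_of_ne]
    intro h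
    exact (Finset.mem_erase.mp hj).1 (Sigma.mk.inj_iff.mp h).1

/-- The product of multilinear forms in separate variables. -/
noncomputable def prodForm (f : ∀ j, MultilinearMap R (fun _ : κ j => V) R) :
    MultilinearMap R (fun _ : (Σ j, κ j) => V) R where
  toFun u := ∏ j, f j (fun a => u ⟨j, a⟩)
  map_update_add' u p x y := by
    obtain ⟨j0, a0⟩ := p
    rw [prod_update, prod_update, prod_update, MultilinearMap.map_update_add, add_mul]
  map_update_smul' u p c x := by
    obtain ⟨j0, a0⟩ := p
    rw [prod_update, prod_update, MultilinearMap.map_update_smul, smul_eq_mul, smul_eq_mul,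
      mul_assoc]

theorem prodForm_apply (f : ∀ j, MultilinearMap R (fun _ : κ j => V) R) (u : (Σ j, κ j) → V) :
    prodForm f u = ∏ j, f j (fun a => u ⟨j, a⟩) := rfl

end

section

variable {R : Type*} [CommRing R] {n : ℕ}

/-- The form with the coordinates of a multilinear form. -/
theorem tm_coord {κ : Type*} [Fintype κ] {M : ℕ} (e : κ ≃ Fin M)
    (τ : MultilinearMap R (fun _ : κ => Fin n → R) R) (u : Fin M → Fin n → R) :
    tm (fun J => τ fun p => Pi.single (J (e p)) 1) u = τ fun p => u (e p) := by
  classical
  have h1 : (fun p => u (e p)) = fun p => ∑ j, u (e p) j • (Pi.single j 1 : Fin n → R) := by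
    funext p i
    rw [Finset.sum_apply, Finset.sum_eq_single i]
    · simp
    · intro j _ hj
      simp [Pi.single_eq_of_ne (Ne.symm hj)]
    · intro h
      exact absurd (Finset.mem_univ _) h
  rw [h1, MultilinearMap.map_sum, tm_apply]
  rw [← (Equiv.arrowCongr e (Equiv.refl (Fin n))).sum_comp]
  refine Finset.sum_congr rfl fun J _ => ?_
  rw [MultilinearMap.map_smul_univ τ (fun p => u (e p) (J p))
    (fun p => (Pi.single (J p) 1 : Fin n → R)), smul_eq_mul]
  congr 1
  · rw [← e.prod_comp]
    simp [Equiv.arrowCongr]
  · simp [Equiv.arrowCongr]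

/-- The determinant of the coordinates with indices in `C`. -/
noncomputable def detForm (C : Fin n → Prop) [DecidablePred C] :
    MultilinearMap R (fun _ : {i // C i} => Fin n → R) R :=
  (Matrix.detRowAlternating (n := {i // C i}) (R := R)).toMultilinearMap.compLinearMap
    (fun _ => LinearMap.funLeft R R Subtype.val)

theorem detForm_apply (C : Fin n → Prop) [DecidablePred C] (u : {i // C i} → Fin n → R) :
    detForm C u = (Matrix.of fun i i' : {i // C i} => u i i').det := rfl

end

end Pool.Agent.Zk28.TS
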