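import Pool.Agent.Zk28.TS.Val

/-!
Destabilizing weights over the residue field of a valuation ring, and over the algebraic closure.
-/

set_option autoImplicit false
set_option linter.unusedSectionVars false

open MvPolynomial Pool.Agent.Helper819.Apolar

namespace Pool.Agent.Zk28.TS

section

variable {K : Type} [Field K] [CharZero K] {n m : ℕ} {S : Type}

theorem ta_mem {L : Type} [Field L] (O : ValuationSubring L) (A : Matrix (Fin n) (Fin n) O)
    {T : (Fin m → Fin n) → L} (hT : ∀ I, T I ∈ O) (I : Fin m → Fin n) :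
    ta (A.map O.subtype) T I ∈ O := by
  have h1 := map_ta O.subtype A (fun J => (⟨T J, hT J⟩ : O)) I
  have h2 : (fun J => O.subtype (⟨T J, hT J⟩ : O)) = T := rfl
  rw [h2] at h1
  rw [← h1]
  exact Subtype.property _

/-- If all relative invariants of positive weight vanish, there are destabilizing weights over an
extension of the field. -/
theorem unstable_res (v : S → (Fin m → Fin n) → K)
    (h : ∀ N, 1 ≤ N → ∀ (q : ℕ) (l : Fin q → S × (Fin m → Fin n)), Qv v N q l = 0) :
    ∃ (κ : Type) (_ : Field κ) (ψ : K →+* κ) (g : Matrix (Fin n) (Fin n) κ) (y : Fin n → ℚ),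
      g.det ≠ 0 ∧ 0 < ∑ i, y i ∧
        ∀ s I, ta g (fun J => ψ (v s J)) I ≠ 0 → ∑ a, y (I a) ≤ 0 := by
  classical
  let L := FractionRing (MvPolynomial (Fin n × Fin n) K)
  obtain ⟨O, hP, hC, hd⟩ := exists_val L v h
  set ι : MvPolynomial (Fin n × Fin n) K →+* L := algebraMap _ _ with hι
  let X : Matrix (Fin n) (Fin n) L := (Matrix.mvPolynomialX (Fin n) (Fin n) K).map ι
  obtain ⟨U, U', V, V', hU1, hU2, hV1, hV2, d, hX⟩ := Pool.Agent.Helper819.Gr.smith (O := O) n X
  let T : S → (Fin m → Fin n) → L := fun s J => ι (C (v s J))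
  have hT : ∀ s I, T s I ∈ O := fun s I => hC _
  have hXT : ∀ s I, ta X (T s) I ∈ O := by
    intro s I
    have h1 : ι (PP v (s, I)) = ta X (T s) I := map_ta ι _ _ I
    rw [← h1]
    exact hP (s, I)
  have hDU : ∀ s I, (∏ a, d (I a)) * ta (U.map O.subtype) (T s) I ∈ O := by
    intro s I
    have h1 : ta X (T s) = ta (V.map O.subtype)
        (ta (Matrix.diagonal d) (ta (U.map O.subtype) (T s))) := by
      rw [hX, ta_mul, ta_mul]
    have h2 : ta (V'.map O.subtype) (ta X (T s)) =
        ta (Matrix.diagonal d) (ta (U.map O.subtype) (T s)) := by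
      rw [h1, ← ta_mul]
      have h3 : V.map O.subtype * V'.map O.subtype = 1 := by
        have h4 : (V * V').map O.subtype = (1 : Matrix (Fin n) (Fin n) L) := by
          rw [hV1]
          ext i j
          rw [Matrix.map_apply, Matrix.one_apply, Matrix.one_apply]
          split_ifs
          · exact map_one _
          · exact map_zero _
        rw [← h4]
        ext i j
        simp [Matrix.mul_apply]
      rw [h3, ta_one]
    rw [← ta_diagonal, ← h2]
    exact ta_mem O V' (hXT s) I
  -- the residue field
  let T' : S → (Fin m → Fin n) → O := fun s J => ⟨T s J, hT s J⟩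
  let ψ0 : K →+* O :=
    { toFun := fun x => ⟨ι (C x), hC x⟩
      map_one' := Subtype.ext (by simp)
      map_mul' := fun x y => Subtype.ext (by simp)
      map_zero' := Subtype.ext (by simp)
      map_add' := fun x y => Subtype.ext (by simp) }
  let ψ : K →+* IsLocalRing.ResidueField O := (IsLocalRing.residue O).comp ψ0
  have hdet : ∀ A B : Matrix (Fin n) (Fin n) O, A * B = 1 → O.valuation ((A.det : O) : L) = 1 := by
    intro A B hAB
    have h1 : A.det * B.det = 1 := by rw [← Matrix.det_mul, hAB, Matrix.det_one]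
    exact (O.valuation_eq_one_iff _).mp (IsUnit.of_mul_eq_one _ h1)
  have hdd : 1 < ∏ i, O.valuation (d i) := by
    have h1 : X.det = ι (dt n K) := by
      change ((Matrix.mvPolynomialX (Fin n) (Fin n) K).map ι).det = _
      rw [← RingHom.mapMatrix_apply, ← RingHom.map_det]
      rfl
    have h2 : ∀ A : Matrix (Fin n) (Fin n) O, (A.map O.subtype).det = ((A.det : O) : L) := by
      intro A
      rw [← RingHom.mapMatrix_apply, ← RingHom.map_det]
      rfl
    have h3 : X.det = ((U.det : O) : L) * (∏ i, d i) * ((V.det : O) : L) := by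
      rw [hX, Matrix.det_mul, Matrix.det_mul, Matrix.det_diagonal, h2, h2]
    rw [← h1, h3, map_mul, map_mul, hdet U U' hU1, hdet V V' hV1, one_mul, mul_one, map_prod] at hd
    exact hd
  obtain ⟨y, hy0, hy⟩ := exists_weights (fun i => O.valuation (d i)) hdd
    (Finset.univ.filter fun I : Fin m → Fin n =>
      ∃ s, ta (U.map (IsLocalRing.residue O)) (fun J => ψ (v s J)) I ≠ 0) (by
      intro I hI
      obtain ⟨s, hs⟩ := (Finset.mem_filter.mp hI).2
      have h1 : IsLocalRing.residue O (ta U (T' s) I) =
          ta (U.map (IsLocalRing.residue O)) (fun J => ψ (v s J)) I := map_ta _ _ _ I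
      rw [← h1] at hs
      have h2 : IsUnit (ta U (T' s) I) := by
        by_contra hnu
        exact hs ((IsLocalRing.residue_eq_zero_iff _).mpr
          ((IsLocalRing.mem_maximalIdeal _).mpr hnu))
      have h3 : O.valuation ((ta U (T' s) I : O) : L) = 1 := (O.valuation_eq_one_iff _).mp h2
      have h4 : ((ta U (T' s) I : O) : L) = ta (U.map O.subtype) (T s) I :=
        map_ta O.subtype U (T' s) I
      have h5 := (O.valuation_le_one_iff _).mpr (hDU s I)
      rw [map_mul, ← h4, h3, mul_one, map_prod] at h5
      exact h5)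
  refine ⟨IsLocalRing.ResidueField O, inferInstance, ψ, U.map (IsLocalRing.residue O), y, ?_, hy0,
    fun s I hI => hy I (Finset.mem_filter.mpr ⟨Finset.mem_univ _, s, hI⟩)⟩
  rw [← RingHom.mapMatrix_apply, ← RingHom.map_det]
  have h1 : IsUnit U.det := IsUnit.of_mul_eq_one U'.det (by rw [← Matrix.det_mul, hU1, Matrix.det_one])
  exact (h1.map (IsLocalRing.residue O)).ne_zero

end

end Pool.Agent.Zk28.TS
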