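import Pool.Agent.Zk28.TS.Lead

/-!
The leading part for the optimal weighted flag is semistable after a twist.
-/

set_option autoImplicit false
set_option linter.unusedSectionVars false

open Filter Topology

namespace Pool.Agent.Zk28.TS

section

variable {K F : Type*} [Field K] [Field F] [Algebra K F] {n m : ℕ}

/-- a form over `F`, on vectors over `K` -/
noncomputable def resK (τ : MultilinearMap F (fun _ : Fin m => Fin n → F) F) :
    MultilinearMap K (fun _ : Fin m => Fin n → K) F :=
  (τ.restrictScalars K).compLinearMap fun _ => (Algebra.linearMap K F).compLeft (Fin n)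

theorem resK_apply (τ : MultilinearMap F (fun _ : Fin m => Fin n → F) F)
    (u : Fin m → Fin n → K) :
    resK (K := K) τ u = τ fun a i => algebraMap K F (u a i) := rfl

/-- the standard frame -/
def std (K : Type*) [Field K] (n : ℕ) : Fin n → Fin n → K := fun i => Pi.single i 1

theorem std_indep : LinearIndependent K (std K n) := by
  have h := (Pi.basisFun K (Fin n)).linearIndependent
  have h1 : (⇑(Pi.basisFun K (Fin n)) : Fin n → Fin n → K) = std K n := by
    funext i
    rw [Pi.basisFun_apply]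
    rfl
  rwa [h1] at h

theorem sum_std (x : Fin n → K) : ∑ i, x i • std K n i = x := by
  funext j
  rw [Finset.sum_apply, Finset.sum_eq_single j]
  · simp [std]
  · intro i _ hi
    simp [std, Pi.single_eq_of_ne (Ne.symm hi)]
  · intro h
    exact absurd (Finset.mem_univ _) h

theorem fl_std {w : Fin n → ℝ} {t : ℝ} {x : Fin n → K} (hx : x ∈ fl K (std K n) w t) (i : Fin n)
    (hi : x i ≠ 0) : w i ≤ t := by
  obtain ⟨c, hc, rfl⟩ := exists_coeff hx
  rw [sum_std] at hi
  exact hc i hi

/-- block part -/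
noncomputable def bpart (w : Fin n → ℝ) (c : Fin n → Fin n → K) : Fin n → Fin n → K := by
  classical exact fun j i => if w i = w j then c j i else 0

theorem bpart_eq {w : Fin n → ℝ} {c : Fin n → Fin n → K} {i j : Fin n} (h : w i = w j) :
    bpart w c j i = c j i := if_pos h

theorem bpart_ne {w : Fin n → ℝ} {c : Fin n → Fin n → K} {i j : Fin n} (h : w i ≠ w j) :
    bpart w c j i = 0 := if_neg h

theorem bpart_det {w : Fin n → ℝ} {c : Fin n → Fin n → K} (hc : ∀ j i, c j i ≠ 0 → w i ≤ w j) :
    (Matrix.of (bpart w c)).det = (Matrix.of c).det := by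
  classical
  rw [← Matrix.det_transpose, ← Matrix.det_transpose (Matrix.of c)]
  have h1 : Matrix.BlockTriangular (Matrix.of c).transpose w := by
    intro i j hij
    by_contra h
    exact absurd (hc j i h) (not_le.mpr hij)
  have h2 : Matrix.BlockTriangular (Matrix.of (bpart w c)).transpose w := by
    intro i j hij
    exact bpart_ne (ne_of_gt hij)
  rw [h1.det, h2.det]
  refine Finset.prod_congr rfl fun t _ => ?_
  congr 1
  ext i j
  change bpart w c j.1 i.1 = c j.1 i.1
  exact bpart_eq (by rw [i.2, j.2])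

theorem indep_iff_det {c : Fin n → Fin n → K} :
    LinearIndependent K c ↔ (Matrix.of c).det ≠ 0 := by
  constructor
  · intro h
    have h1 : LinearIndependent K (Matrix.of c).row := h
    exact ((Matrix.isUnit_iff_isUnit_det _).mp
      (Matrix.linearIndependent_rows_iff_isUnit.mp h1)).ne_zero
  · intro h
    exact Matrix.linearIndependent_rows_of_det_ne_zero (A := Matrix.of c) h

/-- The leading part of a form on the block part of a frame. -/
theorem lead_bpart {w : Fin n → ℝ} {c : Fin n → Fin n → K} (hc : ∀ j i, c j i ≠ 0 → w i ≤ w j)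
    (T : (Fin m → Fin n) → F) {I : Fin m → Fin n} (hI : ∑ a, w (I a) = 1) :
    tm (lead w T) (fun a i => algebraMap K F (c (I a) i)) =
      tm (lead w T) fun a i => algebraMap K F (bpart w c (I a) i) := by
  classical
  rw [tm_apply, tm_apply]
  refine Finset.sum_congr rfl fun J _ => ?_
  by_cases hJ : ∑ a, w (J a) = 1
  · congr 1
    by_cases hall : ∀ a, c (I a) (J a) ≠ 0
    · have h1 : ∀ a, w (J a) = w (I a) := by
        have h2 : ∀ a ∈ Finset.univ, w (J a) ≤ w (I a) := fun a _ => hc _ _ (hall a)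
        have h3 := (Finset.sum_eq_sum_iff_of_le h2).mp (by rw [hI, hJ])
        exact fun a => h3 a (Finset.mem_univ a)
      exact Finset.prod_congr rfl fun a _ => by rw [bpart_eq (h1 a)]
    · push Not at hall
      obtain ⟨a, ha⟩ := hall
      have h2 : bpart w c (I a) (J a) = 0 := by
        unfold bpart
        split_ifs
        · exact ha
        · rfl
      rw [Finset.prod_eq_zero (Finset.mem_univ a) (by rw [ha, map_zero]),
        Finset.prod_eq_zero (Finset.mem_univ a) (by rw [h2, map_zero])]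
  · have h2 : lead w T J = 0 := if_neg hJ
    rw [h2, mul_zero, mul_zero]

/-- The minors of the frame. -/
theorem minor_ne {w : Fin n → ℝ} {c : Fin n → Fin n → K} (hc : ∀ j i, c j i ≠ 0 → w i ≤ w j)
    (hdet : (Matrix.of c).det ≠ 0) (C : Fin n → Prop) [DecidablePred C]
    (hC : ∀ i j, w i ≤ w j → C j → C i) :
    (Matrix.of fun i i' : {i // C i} => algebraMap K F (c i i')).det ≠ 0 := by
  classical
  have h1 := Matrix.twoBlockTriangular_det (Matrix.of c).transpose C (by
    intro i hi j hj
    by_contra h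
    exact hi (hC i j (hc j i h) hj))
  rw [Matrix.det_transpose] at h1
  have h2 : ((Matrix.of c).transpose.toSquareBlockProp C).det ≠ 0 := by
    intro h0
    rw [h0, zero_mul] at h1
    exact hdet h1
  have h3 : (Matrix.of fun i i' : {i // C i} => algebraMap K F (c i i')) =
      (algebraMap K F).mapMatrix ((Matrix.of c).transpose.toSquareBlockProp C).transpose := rfl
  rw [h3, ← RingHom.map_det, Matrix.det_transpose]
  exact (map_ne_zero _).mpr h2

variable {S : Type*}

/-- Claim for frames which respect the blocks. -/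
theorem block_claim {v : S → (Fin m → Fin n) → F} {w : Fin n → ℝ}
    (hopt : Opt (Set.range fun s => resK (K := K) (tm (v s))) (std K n) w)
    (hw : 0 < sq w) {c : Fin n → Fin n → K} (hc : ∀ j i, c j i ≠ 0 → w i = w j)
    (hdet : (Matrix.of c).det ≠ 0) (α : Fin n → ℝ) :
    ∃ s, ∃ I : Fin m → Fin n, ∑ a, w (I a) = 1 ∧
      tm (lead w (v s)) (fun a i => algebraMap K F (c (I a) i)) ≠ 0 ∧
      (∑ a, α (I a)) * sq w ≤ ∑ i, w i * α i := by
  classical
  by_contra hno
  push Not at hno
  let Act : Finset (Fin m → Fin n) := Finset.univ.filter fun I => ∑ a, w (I a) = 1 ∧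
    ∃ s, tm (lead w (v s)) (fun a i => algebraMap K F (c (I a) i)) ≠ 0
  obtain ⟨μ, hμ, hμA⟩ : ∃ μ : ℝ, ∑ i, w i * α i < μ * sq w ∧ ∀ I ∈ Act, μ ≤ ∑ a, α (I a) := by
    by_cases hA : Act.Nonempty
    · obtain ⟨I0, hI0, hmin⟩ := Act.exists_min_image (fun I => ∑ a, α (I a)) hA
      obtain ⟨h1, s, hs⟩ := (Finset.mem_filter.mp hI0).2
      exact ⟨∑ a, α (I0 a), hno s I0 h1 hs, hmin⟩
    · refine ⟨(∑ i, w i * α i) / sq w + 1, ?_, fun I hI => absurd ⟨I, hI⟩ hA⟩
      rw [add_mul, div_mul_cancel₀ _ hw.ne']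
      linarith
  have e1 : ∀ᶠ ε : ℝ in 𝓝 0, 0 < 1 + ε * μ := by
    have h : ContinuousAt (fun ε : ℝ => 1 + ε * μ) 0 := by fun_prop
    exact h.eventually (lt_mem_nhds (by simp))
  have e2 : ∀ᶠ ε : ℝ in 𝓝 0, ∀ I : Fin m → Fin n, 1 < ∑ a, w (I a) →
      0 < (∑ a, w (I a) - 1) + ε * (∑ a, α (I a) - μ) := by
    rw [Filter.eventually_all]
    intro I
    by_cases hI : 1 < ∑ a, w (I a)
    · have h : ContinuousAt (fun ε : ℝ => (∑ a, w (I a) - 1) + ε * (∑ a, α (I a) - μ)) 0 := by
        fun_prop
      filter_upwards [h.eventually (lt_mem_nhds (a := 0) (by simpa using hI))] with ε hε _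
      exact hε
    · exact Filter.Eventually.of_forall fun ε h => absurd h hI
  have e3 : ∀ᶠ ε : ℝ in 𝓝 0,
      2 * (∑ i, w i * α i - μ * sq w) + ε * (sq α - μ ^ 2 * sq w) < 0 := by
    have h : ContinuousAt (fun ε : ℝ =>
        2 * (∑ i, w i * α i - μ * sq w) + ε * (sq α - μ ^ 2 * sq w)) 0 := by fun_prop
    exact h.eventually (gt_mem_nhds (by
      beta_reduce
      rw [zero_mul, add_zero]
      linarith))
  have e4 : ∀ᶠ ε : ℝ in 𝓝[>] 0, (0 < 1 + ε * μ ∧ (∀ I : Fin m → Fin n, 1 < ∑ a, w (I a) →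
      0 < (∑ a, w (I a) - 1) + ε * (∑ a, α (I a) - μ)) ∧
      2 * (∑ i, w i * α i - μ * sq w) + ε * (sq α - μ ^ 2 * sq w) < 0) ∧ ε ∈ Set.Ioi (0 : ℝ) :=
    ((e1.and (e2.and e3)).filter_mono nhdsWithin_le_nhds).and self_mem_nhdsWithin
  obtain ⟨ε, ⟨h1, h2, h3⟩, hε⟩ := e4.exists
  have hε' : 0 < ε := hε
  have hci : LinearIndependent K c := indep_iff_det.mpr hdet
  have hg : Good (Set.range fun s => resK (K := K) (tm (v s))) c
      fun i => (w i + ε * α i) / (1 + ε * μ) := by
    rintro I ⟨_, ⟨s, rfl⟩, hI⟩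
    have hI' : tm (v s) (fun a i => algebraMap K F (c (I a) i)) ≠ 0 := hI
    rw [← Finset.sum_div, le_div_iff₀ h1, one_mul, Finset.sum_add_distrib, ← Finset.mul_sum]
    have hI2 := hI'
    rw [tm_apply] at hI2
    obtain ⟨J, _, hJ⟩ := Finset.exists_ne_zero_of_sum_ne_zero hI2
    have hJ1 : ∀ a, w (J a) = w (I a) := fun a => hc _ _ fun h0 => by
      apply hJ
      rw [Finset.prod_eq_zero (Finset.mem_univ a) (by rw [h0, map_zero]), zero_mul]
    have hJ2 : v s J ≠ 0 := fun h0 => hJ (by rw [h0, mul_zero])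
    have hJ3 : 1 ≤ ∑ a, w (J a) := hopt.2.1 J ⟨_, ⟨s, rfl⟩, by
      change tm (v s) (fun a i => algebraMap K F (std K n (J a) i)) ≠ 0
      have h5 : (fun a i => algebraMap K F (std K n (J a) i)) =
          fun a => (Pi.single (J a) 1 : Fin n → F) := by
        funext a i
        unfold std
        by_cases h6 : i = J a
        · subst h6; simp
        · simp [Pi.single_eq_of_ne h6]
      rw [h5, tm_apply, Finset.sum_eq_single J]
      · simpa using hJ2
      · intro J' _ hJ'
        obtain ⟨a, ha⟩ := Function.ne_iff.mp hJ'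
        rw [Finset.prod_eq_zero (Finset.mem_univ a) (Pi.single_eq_of_ne ha _), zero_mul]
      · intro h
        exact absurd (Finset.mem_univ _) h⟩
    have hJ4 : ∑ a, w (J a) = ∑ a, w (I a) := Finset.sum_congr rfl fun a _ => hJ1 a
    rw [hJ4] at hJ3
    rcases hJ3.eq_or_lt with h5 | h5
    · have h6 : tm (lead w (v s)) (fun a i => algebraMap K F (c (I a) i)) =
          tm (v s) fun a i => algebraMap K F (c (I a) i) := by
        rw [tm_apply, tm_apply]
        refine Finset.sum_congr rfl fun J' _ => ?_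
        by_cases hall : ∀ a, c (I a) (J' a) ≠ 0
        · congr 1
          refine if_pos ?_
          rw [h5]
          exact Finset.sum_congr rfl fun a _ => hc _ _ (hall a)
        · push Not at hall
          obtain ⟨a, ha⟩ := hall
          rw [Finset.prod_eq_zero (Finset.mem_univ a) (by rw [ha, map_zero]), zero_mul, zero_mul]
      have h7 := hμA I (Finset.mem_filter.mpr ⟨Finset.mem_univ _, h5.symm, s, by
        rw [h6]; exact hI'⟩)
      rw [← h5]
      nlinarith
    · have h6 := h2 I h5
      nlinarith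
  have h4 := hopt.2.2 c _ hci hg
  have h5 : sq (fun i => (w i + ε * α i) / (1 + ε * μ)) * (1 + ε * μ) ^ 2 =
      sq w + ε * (2 * (∑ i, w i * α i) + ε * sq α) := by
    unfold sq
    rw [Finset.sum_mul]
    have h6 : ∀ i, ((w i + ε * α i) / (1 + ε * μ)) ^ 2 * (1 + ε * μ) ^ 2 =
        w i ^ 2 + ε * (2 * (w i * α i)) + ε * (ε * α i ^ 2) := by
      intro i
      rw [div_pow, div_mul_cancel₀ _ (by positivity)]
      ring
    rw [Finset.sum_congr rfl fun i _ => h6 i, Finset.sum_add_distrib, Finset.sum_add_distrib,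
      ← Finset.mul_sum, ← Finset.mul_sum, ← Finset.mul_sum, ← Finset.mul_sum]
    ring
  have h6 : sq w * (1 + ε * μ) ^ 2 ≤ sq w + ε * (2 * (∑ i, w i * α i) + ε * sq α) := by
    rw [← h5]
    exact mul_le_mul_of_nonneg_right h4 (sq_nonneg _)
  nlinarith [mul_pos hε' (neg_pos.mpr h3)]

end

end Pool.Agent.Zk28.TS
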