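import Pool.Agent.Zk28.TS.Act
import Pool.Agent.Helper819.Gr.Smith
import Pool.Agent.N180.CfA

/-!
The criterion of Hilbert and Mumford for tensors: if all relative invariants of positive weight
vanish, then there is a destabilizing weight over an extension of the field.
-/

set_option autoImplicit false
set_option linter.unusedSectionVars false

open MvPolynomial Pool.Agent.Helper819.Apolar

namespace Pool.Agent.Zk28.TS

section

variable {K : Type} [Field K] [CharZero K] {n m : ℕ} {S : Type}

theorem dt_ne_zero : dt n K ≠ 0 := by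
  intro h
  have h1 := rho_dt (n := n) (k := K) 1
  rw [pow_one, h, rho_zero] at h1
  exact zero_ne_one h1

/-- A valuation ring which contains the coordinates, and not the determinant. -/
theorem exists_val (L : Type) [Field L] [Algebra (MvPolynomial (Fin n × Fin n) K) L]
    [IsFractionRing (MvPolynomial (Fin n × Fin n) K) L] (v : S → (Fin m → Fin n) → K)
    (h : ∀ N, 1 ≤ N → ∀ (q : ℕ) (l : Fin q → S × (Fin m → Fin n)), Qv v N q l = 0) :
    ∃ O : ValuationSubring L,
      (∀ c, algebraMap (MvPolynomial (Fin n × Fin n) K) L (PP v c) ∈ O) ∧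
      (∀ x : K, algebraMap (MvPolynomial (Fin n × Fin n) K) L (C x) ∈ O) ∧
        1 < O.valuation (algebraMap (MvPolynomial (Fin n × Fin n) K) L (dt n K)) := by
  classical
  set ι : MvPolynomial (Fin n × Fin n) K →+* L := algebraMap _ _ with hι
  have hinj : Function.Injective ι := IsFractionRing.injective _ _
  set B := Algebra.adjoin K (Set.range (PP v)) with hB
  set e : L := (ι (dt n K))⁻¹ with he
  have hdt : ι (dt n K) ≠ 0 := fun h0 => dt_ne_zero (hinj (by rw [h0, map_zero]))
  let f : B →+* L := ι.comp B.val.toRingHom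
  let φ : Polynomial B →+* L := Polynomial.eval₂RingHom f e
  let A : Subring L := RingHom.range (R := Polynomial B) φ
  have heA : e ∈ A := ⟨Polynomial.X, Polynomial.eval₂_X f e⟩
  have hfA : ∀ b : B, f b ∈ A := fun b => ⟨Polynomial.C b, Polynomial.eval₂_C f e⟩
  have hI : (Ideal.span {(⟨e, heA⟩ : A)}) ≠ ⊤ := by
    intro htop
    have h1 : (1 : A) ∈ Ideal.span {(⟨e, heA⟩ : A)} := by rw [htop]; trivial
    obtain ⟨a, ha⟩ := Ideal.mem_span_singleton'.mp h1
    obtain ⟨p, hp⟩ := a.2
    have ha' : (a : L) * e = 1 := congrArg Subtype.val ha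
    have h2 : (a : L) = ι (dt n K) := by
      rw [he] at ha'
      field_simp at ha'
      exact ha'
    rw [h2] at hp
    have hp' : Polynomial.eval₂ f e p = ι (dt n K) := hp
    rw [Polynomial.eval₂_eq_sum_range] at hp'
    refine no_relation v h p.natDegree (fun i => (p.coeff i : MvPolynomial (Fin n × Fin n) K))
      (fun i => (p.coeff i).2) (hinj ?_)
    have h5 : ι (dt n K) ^ (p.natDegree + 1) =
        (∑ i ∈ Finset.range (p.natDegree + 1), f (p.coeff i) * e ^ i) * ι (dt n K) ^ p.natDegree := by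
      rw [hp', pow_succ']
    rw [map_pow, h5, Finset.sum_mul, map_sum]
    refine Finset.sum_congr rfl fun i hi => ?_
    have hi' : i ≤ p.natDegree := Nat.lt_succ_iff.mp (Finset.mem_range.mp hi)
    rw [map_mul, map_pow, he, inv_pow]
    have h3 : ι (dt n K) ^ p.natDegree = ι (dt n K) ^ i * ι (dt n K) ^ (p.natDegree - i) := by
      rw [← pow_add]
      congr 1
      omega
    rw [h3]
    change ι (p.coeff i : MvPolynomial (Fin n × Fin n) K) * _ * _ = _
    field_simp
  obtain ⟨O, hO, hO'⟩ := Ideal.image_subset_nonunits_valuationSubring _ hI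
  refine ⟨O, fun c => ?_, fun x => ?_, ?_⟩
  · exact hO (hfA ⟨PP v c, Algebra.subset_adjoin ⟨c, rfl⟩⟩)
  · exact hO (hfA ⟨C x, B.algebraMap_mem x⟩)
  · have h1 : e ∈ O.nonunits := hO' ⟨⟨e, heA⟩, Ideal.subset_span rfl, rfl⟩
    rw [ValuationSubring.mem_nonunits_iff] at h1
    rw [he, map_inv₀] at h1
    exact (inv_lt_one₀ ((Valuation.pos_iff _).mpr hdt)).mp h1

/-- Farkas' lemma for weights in an ordered group. -/
theorem exists_weights {Γ : Type*} [LinearOrderedCommGroupWithZero Γ] (g : Fin n → Γ)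
    (hg : 1 < ∏ i, g i) (T : Finset (Fin m → Fin n)) (hT : ∀ I ∈ T, ∏ a, g (I a) ≤ 1) :
    ∃ y : Fin n → ℚ, 0 < ∑ i, y i ∧ ∀ I ∈ T, ∑ a, y (I a) ≤ 0 := by
  classical
  by_contra hno
  push Not at hno
  let A : (Fin m → Fin n) → (Fin n → ℚ) →ₗ[ℚ] ℚ := fun I =>
    { toFun := fun y => ∑ a, y (I a)
      map_add' := fun y z => by simp [Finset.sum_add_distrib]
      map_smul' := fun c y => by simp [Finset.mul_sum] }
  let b : (Fin n → ℚ) →ₗ[ℚ] ℚ :=
    { toFun := fun y => ∑ i, y i
      map_add' := fun y z => by simp [Finset.sum_add_distrib]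
      map_smul' := fun c y => by simp [Finset.mul_sum] }
  obtain ⟨c, hc, hb⟩ := Pool.Agent.N180.Cf.farkas T A b (by
    intro x hx
    by_contra hlt
    push Not at hlt
    obtain ⟨I, hI, h1⟩ := hno x hlt
    exact absurd (hx I hI) (not_le.mpr h1))
  -- common denominator
  let N : ℕ := ∏ I ∈ T, (c I).den
  have hN : 0 < N := Finset.prod_pos fun I _ => (c I).den_pos
  have hk : ∀ I ∈ T, ∃ k : ℕ, (N : ℚ) * c I = k := by
    intro I hI
    obtain ⟨r, hr⟩ := Finset.dvd_prod_of_mem (fun I => (c I).den) hI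
    refine ⟨r * (c I).num.toNat, ?_⟩
    have h1 : ((c I).num.toNat : ℤ) = (c I).num := Int.toNat_of_nonneg (Rat.num_nonneg.mpr (hc I))
    have h2 : ((c I).num.toNat : ℚ) = ((c I).num : ℚ) := by exact_mod_cast h1
    have h3 : (N : ℚ) = ((c I).den : ℚ) * r := by exact_mod_cast hr
    rw [h3]
    push_cast
    rw [h2]
    have h4 := Rat.mul_den_eq_num (c I)
    calc ((c I).den : ℚ) * r * c I = r * (c I * (c I).den) := by ring
      _ = _ := by rw [h4]
  choose! k hk using hk
  let cnt : (Fin m → Fin n) → Fin n → ℕ := fun I i => (Finset.univ.filter fun a => I a = i).card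
  have hcnt : ∀ I i, A I (Pi.single i 1) = cnt I i := by
    intro I i
    change ∑ a, (Pi.single i (1 : ℚ) : Fin n → ℚ) (I a) = _
    simp only [cnt, Pi.single_apply, Finset.card_filter]
    push_cast
    rfl
  have hsum : ∀ i, N = ∑ I ∈ T, k I * cnt I i := by
    intro i
    have h1 : b (Pi.single i 1) = 1 := by
      change ∑ j, (Pi.single i (1 : ℚ) : Fin n → ℚ) j = 1
      simp
    rw [hb, LinearMap.sum_apply] at h1
    have h2 : (N : ℚ) = ∑ I ∈ T, (k I : ℚ) * cnt I i := by
      calc (N : ℚ) = N * 1 := (mul_one _).symm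
        _ = N * ∑ I ∈ T, (c I • A I) (Pi.single i 1) := by rw [h1]
        _ = _ := by
          rw [Finset.mul_sum]
          refine Finset.sum_congr rfl fun I hI => ?_
          rw [LinearMap.smul_apply, hcnt, smul_eq_mul, ← mul_assoc, hk I hI]
    exact_mod_cast h2
  have hprod : ∀ I : Fin m → Fin n, ∏ a, g (I a) = ∏ i, g i ^ cnt I i := by
    intro I
    rw [← Finset.prod_fiberwise_of_maps_to (s := Finset.univ) (t := Finset.univ) (g := I)
      (fun _ _ => Finset.mem_univ _)]
    refine Finset.prod_congr rfl fun i _ => ?_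
    rw [Finset.prod_congr rfl (g := fun _ => g i)]
    · rw [Finset.prod_const]
    · intro a ha
      rw [(Finset.mem_filter.mp ha).2]
  have h1 : (∏ i, g i) ^ N = ∏ I ∈ T, (∏ a, g (I a)) ^ k I := by
    calc (∏ i, g i) ^ N = ∏ i, g i ^ N := (Finset.prod_pow _ _ _).symm
      _ = ∏ i, ∏ I ∈ T, g i ^ (k I * cnt I i) := by
        refine Finset.prod_congr rfl fun i _ => ?_
        rw [Finset.prod_pow_eq_pow_sum, ← hsum i]
      _ = ∏ I ∈ T, ∏ i, g i ^ (k I * cnt I i) := Finset.prod_comm
      _ = _ := by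
        refine Finset.prod_congr rfl fun I _ => ?_
        rw [hprod, ← Finset.prod_pow]
        refine Finset.prod_congr rfl fun i _ => ?_
        rw [← pow_mul, mul_comm]
  have h2 : ∏ I ∈ T, (∏ a, g (I a)) ^ k I ≤ 1 :=
    Finset.prod_le_one' fun I hI => pow_le_one₀ zero_le (hT I hI)
  rw [← h1] at h2
  exact absurd h2 (not_le.mpr (one_lt_pow₀ hg hN.ne'))

end

end Pool.Agent.Zk28.TS
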